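import Pool.Agent.Lib.MP_9599cf_ntL.Defs

/-! # The minimal polynomial of a Salem number -/

set_option autoImplicit false

namespace SalemLen

open Polynomial

private theorem cx_minpoly {t : ℝ} (h : IsSalem t) (z : ℂ) :
    (cx (minpoly ℤ t)).eval z = Polynomial.aeval z (minpoly ℚ t) := by
  have h1 : minpoly ℚ t = (minpoly ℤ t).map (algebraMap ℤ ℚ) :=
    minpoly.isIntegrallyClosed_eq_field_fractions' ℚ h.1
  rw [h1, aeval_def, eval₂_map, cx, eval_map]
  congr 1

private theorem irr {t : ℝ} (h : IsSalem t) : Irreducible (minpoly ℚ t) :=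
  minpoly.irreducible h.1.tower_top

private theorem mon {t : ℝ} (h : IsSalem t) : (minpoly ℚ t).Monic :=
  minpoly.monic h.1.tower_top

/-- PROOF. `minpoly ℤ t` and `minpoly ℚ t` have the same complex roots
(`minpoly.isIntegrallyClosed_eq_field_fractions'`, `h.1`). Let `z₀` be the root on the unit circle. The
polynomial is real, so `conj z₀ = z₀⁻¹` is a root. `minpoly ℚ t` is irreducible, so it is the minimal
polynomial of `z₀`; the reverse polynomial vanishes at `z₀` (as `z₀⁻¹` is a root), so `minpoly ℚ t` divides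
its reverse, which has at most the same degree: for each root `z` also `z⁻¹` is a root. -/
theorem IsSalem.inv_root {t : ℝ} (h : IsSalem t) {z : ℂ} (hz : (cx (minpoly ℤ t)).eval z = 0) :
    (cx (minpoly ℤ t)).eval z⁻¹ = 0 := by
  rw [cx_minpoly h] at hz ⊢
  obtain ⟨w, hw, hw1⟩ := h.2.2.2
  have hconj : Polynomial.aeval ((starRingEnd ℂ) w) (minpoly ℚ t) = 0 := by
    have h2 := congrArg (starRingEnd ℂ) hw
    rw [map_zero, aeval_def, hom_eval₂] at h2
    rw [aeval_def, ← h2]
    congr 1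
    exact RingHom.ext_rat _ _
  have hinv : (starRingEnd ℂ) w = w⁻¹ := by
    rw [Complex.inv_def, Complex.normSq_eq_norm_sq, hw1]
    simp
  rw [hinv] at hconj
  have hw0 : w ≠ 0 := by
    rintro rfl
    rw [norm_zero] at hw1
    exact zero_ne_one hw1
  have hrev : Polynomial.aeval w (reverse (minpoly ℚ t)) = 0 := by
    letI : Invertible w⁻¹ := invertibleOfNonzero (inv_ne_zero hw0)
    have h2 := (eval₂_reverse_eq_zero_iff (algebraMap ℚ ℂ) w⁻¹ (minpoly ℚ t)).mpr hconj
    rw [invOf_eq_inv, inv_inv] at h2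
    exact h2
  have hmin : minpoly ℚ t = minpoly ℚ w := minpoly.eq_of_irreducible_of_monic (irr h) hw (mon h)
  have hdvd : minpoly ℚ t ∣ reverse (minpoly ℚ t) := by
    have h2 := minpoly.dvd ℚ w hrev
    rw [← hmin] at h2
    exact h2
  have hz2 : Polynomial.aeval z (reverse (minpoly ℚ t)) = 0 := by
    obtain ⟨q, hq⟩ := hdvd
    rw [hq, map_mul, hz, zero_mul]
  by_cases hz0 : z = 0
  · subst hz0
    rw [inv_zero]
    exact hz
  · letI : Invertible z⁻¹ := invertibleOfNonzero (inv_ne_zero hz0)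
    have h3 := (eval₂_reverse_eq_zero_iff (algebraMap ℚ ℂ) z⁻¹ (minpoly ℚ t))
    rw [invOf_eq_inv, inv_inv] at h3
    exact h3.mp hz2

/-- PROOF. `‖z‖ ≤ 1` (definition), and `z⁻¹` is a root by `inv_root` which is not `t`, so `‖z⁻¹‖ ≤ 1`
(`z ≠ 0`: otherwise `0` would be a root of the irreducible polynomial, so `t = 0`). -/
theorem IsSalem.norm_eq_one {t : ℝ} (h : IsSalem t) {z : ℂ}
    (hz : (cx (minpoly ℤ t)).eval z = 0) (h1 : z ≠ t) (h2 : z ≠ (t : ℂ)⁻¹) : ‖z‖ = 1 := by
  have hi := h.inv_root hz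
  rw [cx_minpoly h] at hz hi
  have hz0 : z ≠ 0 := by
    rintro rfl
    have h3 : minpoly ℚ t = minpoly ℚ (0 : ℂ) := minpoly.eq_of_irreducible_of_monic (irr h) hz (mon h)
    have h4 := minpoly.aeval ℚ t
    rw [h3, minpoly.zero, aeval_X] at h4
    have h5 := h.2.1
    rw [h4] at h5
    exact absurd h5 (by norm_num)
  have ha : ‖z‖ ≤ 1 := h.2.2.1 z hz h1
  have hb : ‖z⁻¹‖ ≤ 1 := by
    refine h.2.2.1 z⁻¹ hi ?_
    intro h3
    exact h2 (by rw [← h3, inv_inv])
  rw [norm_inv] at hb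
  have hp : 0 < ‖z‖ := norm_pos_iff.mpr hz0
  exact le_antisymm ha ((inv_le_one₀ hp).mp hb)

end SalemLen
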