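import Pool.Agent.Lib.MP_9599cf_ntL.Defs

/-! # The number of monomials -/

set_option autoImplicit false

namespace SalemLen

open Polynomial

/-- PROOF. `Polynomial.reverse` permutes the coefficients: the support is the image of the support under the
injective `revAt` (`Polynomial.reflect_support`). -/
theorem card_reverse (P : ℤ[X]) : P.reverse.support.card = P.support.card := by
  unfold Polynomial.reverse
  rw [Polynomial.reflect_support, Finset.card_image_of_injective _ (Polynomial.revAt P.natDegree).injective]

/-- PROOF. `Polynomial.support_add`, `Finset.card_union_le`; the support of `X ^ m * g` is a shifted support,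
`C ε * Q` has support contained in the support of `Q`, `card_reverse`. -/
theorem card_sal_le (g : ℤ[X]) (m : ℕ) (ε : ℤ) :
    (X ^ m * g + C ε * g.reverse).support.card ≤ 2 * g.support.card := by
  have h1 : (X ^ m * g : ℤ[X]).support.card ≤ g.support.card := by
    have hsub : (X ^ m * g : ℤ[X]).support ⊆ g.support.image (fun n => n + m) := by
      intro n hn
      rw [Polynomial.mem_support_iff, mul_comm, Polynomial.coeff_mul_X_pow'] at hn
      rw [Finset.mem_image]
      by_cases hmn : m ≤ n
      · rw [if_pos hmn] at hn
        exact ⟨n - m, Polynomial.mem_support_iff.2 hn, Nat.sub_add_cancel hmn⟩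
      · rw [if_neg hmn] at hn
        exact absurd rfl hn
    exact (Finset.card_le_card hsub).trans Finset.card_image_le
  have h2 : (C ε * g.reverse : ℤ[X]).support.card ≤ g.support.card := by
    rw [← card_reverse g]
    apply Finset.card_le_card
    intro n hn
    rw [Polynomial.mem_support_iff, Polynomial.coeff_C_mul] at hn
    rw [Polynomial.mem_support_iff]
    intro h
    rw [h, mul_zero] at hn
    exact hn rfl
  have h3 := (Finset.card_le_card (Polynomial.support_add (p := (X ^ m * g : ℤ[X]))
    (q := C ε * g.reverse))).trans (Finset.card_union_le _ _)
  omega

end SalemLen
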