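import Pool.Agent.Lib.MP_9599cf_ntL.Defs

/-! # The length -/

set_option autoImplicit false

namespace SalemLen

open Polynomial

/-- The length as a sum over a long enough range. -/
theorem len_eq_range (P : ℤ[X]) {n : ℕ} (hn : P.natDegree < n) :
    len P = ∑ i ∈ Finset.range n, (P.coeff i).natAbs := by
  unfold len
  refine Finset.sum_subset ?_ ?_
  · intro i hi
    exact Finset.mem_range.2 (lt_of_le_of_lt (le_natDegree_of_mem_supp i hi) hn)
  · intro i _ hi
    rw [notMem_support_iff.1 hi, Int.natAbs_zero]

/-- PROOF. `support_neg`, `Int.natAbs_neg`. -/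
theorem len_neg (P : ℤ[X]) : len (-P) = len P := by
  unfold len
  rw [support_neg]
  refine Finset.sum_congr rfl fun i _ => ?_
  rw [coeff_neg, Int.natAbs_neg]

/-- PROOF. The coefficients of the reverse are the coefficients of `P` in another order
(`Polynomial.reverse`, `Polynomial.coeff_reverse`, `Polynomial.reflect_support`; `revAt` is an involution). -/
theorem len_reverse (P : ℤ[X]) : len P.reverse = len P := by
  have h1 : P.reverse.natDegree < P.natDegree + 1 :=
    Nat.lt_succ_of_le (reverse_natDegree_le P)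
  rw [len_eq_range P.reverse h1, len_eq_range P (Nat.lt_succ_self P.natDegree),
    ← Finset.sum_range_reflect]
  refine Finset.sum_congr rfl fun i hi => ?_
  have hi' : i ≤ P.natDegree := Nat.lt_succ_iff.1 (Finset.mem_range.1 hi)
  rw [coeff_reverse]
  have h2 : P.natDegree + 1 - 1 - i = P.natDegree - i := by omega
  rw [h2, revAt_le (Nat.sub_le _ _)]
  congr 2
  omega

/-- The length of a sum. -/
theorem len_add_le (P Q : ℤ[X]) : len (P + Q) ≤ len P + len Q := by
  set n : ℕ := max P.natDegree Q.natDegree + 1 with hn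
  have hP : P.natDegree < n := by omega
  have hQ : Q.natDegree < n := by omega
  have hPQ : (P + Q).natDegree < n := by
    have := natDegree_add_le P Q
    omega
  rw [len_eq_range _ hPQ, len_eq_range _ hP, len_eq_range _ hQ, ← Finset.sum_add_distrib]
  refine Finset.sum_le_sum fun i _ => ?_
  rw [coeff_add]
  exact Int.natAbs_add_le _ _

/-- The length of a shift. -/
theorem len_X_pow_mul (P : ℤ[X]) (m : ℕ) : len (X ^ m * P) = len P := by
  have h1 : (X ^ m * P).natDegree < m + (P.natDegree + 1) := by
    have := natDegree_mul_le (p := (X : ℤ[X]) ^ m) (q := P)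
    rw [natDegree_X_pow] at this
    omega
  rw [len_eq_range _ h1, len_eq_range P (Nat.lt_succ_self P.natDegree), Finset.sum_range_add]
  have h2 : ∑ x ∈ Finset.range m, ((X ^ m * P : ℤ[X]).coeff x).natAbs = 0 := by
    refine Finset.sum_eq_zero fun i hi => ?_
    rw [coeff_X_pow_mul', if_neg (not_le.2 (Finset.mem_range.1 hi)), Int.natAbs_zero]
  rw [h2, zero_add]
  refine Finset.sum_congr rfl fun i _ => ?_
  rw [Nat.add_comm m i, coeff_X_pow_mul]

/-- The length of a multiple by a unit. -/
theorem len_C_mul (Q : ℤ[X]) {ε : ℤ} (hε : |ε| = 1) : len (C ε * Q) = len Q := by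
  rcases (abs_eq (by norm_num : (0 : ℤ) ≤ 1)).1 hε with h | h
  · rw [h, C_1, one_mul]
  · rw [h, C_neg, C_1, neg_mul, one_mul, len_neg]

/-- PROOF. `len (P + Q) ≤ len P + len Q` (extend both sums to the union of the supports), `len (X ^ m * g) = len g`
(shifted coefficients), `len (C ε * Q) = len Q` for `|ε| = 1`, `len_reverse`. -/
theorem len_sal_le (g : ℤ[X]) (m : ℕ) {ε : ℤ} (hε : |ε| = 1) :
    len (X ^ m * g + C ε * g.reverse) ≤ 2 * len g := by
  refine (len_add_le _ _).trans ?_
  rw [len_X_pow_mul, len_C_mul _ hε, len_reverse, two_mul]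

end SalemLen
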