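import Pool.Agent.Lib.MP_9599cf_ntL.Mah1

/-! # Mahler measures on circles, normalized polynomials -/

set_option autoImplicit false

namespace SalemLen

open Polynomial

private theorem Mah2_one {r : ℝ} (hr : 0 < r) : mr r (1 : ℂ[X]) = 1 := by
  have h := mr_one_sub hr (0 : ℂ)
  simpa using h

private theorem Mah2_factor {P : ℂ[X]} (hP : P.eval 0 = 1) :
    P = (P.roots.map fun z => 1 - C z⁻¹ * X).prod := by
  have hne : P ≠ 0 := by
    rintro rfl
    simp at hP
  have h0 : ∀ z ∈ P.roots, z ≠ 0 := by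
    rintro z hz rfl
    rw [mem_roots hne, IsRoot.def, hP] at hz
    exact one_ne_zero hz
  have h1 : C P.leadingCoeff * (P.roots.map fun z => X - C z).prod = P :=
    C_leadingCoeff_mul_prod_multiset_X_sub_C (IsAlgClosed.splits P).natDegree_eq_card_roots.symm
  have h2 : (P.roots.map fun z => X - C z).prod =
      (P.roots.map fun z => C (-z)).prod * (P.roots.map fun z => 1 - C z⁻¹ * X).prod := by
    rw [← Multiset.prod_map_mul]
    refine congrArg Multiset.prod (Multiset.map_congr rfl fun z hz => ?_)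
    have h3 : (C (-z) : ℂ[X]) * C z⁻¹ = C (-1) := by
      rw [← C_mul]
      congr 1
      have := h0 z hz
      field_simp
    have h4 : (C (-z) : ℂ[X]) * (1 - C z⁻¹ * X) = C (-z) - (C (-z) * C z⁻¹) * X := by ring
    rw [h4, h3]
    simp
    ring
  have h5 : C P.leadingCoeff * (P.roots.map fun z => (C (-z) : ℂ[X])).prod = 1 := by
    have h6 : (P.roots.map fun z => (C (-z) : ℂ[X])).prod = C (P.roots.map fun z => -z).prod := by
      rw [map_multiset_prod, Multiset.map_map]
      rfl
    rw [h6, ← C_mul]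
    have h7 := congrArg (Polynomial.eval 0) h1
    rw [eval_mul, eval_C, eval_multiset_prod, Multiset.map_map, hP] at h7
    have h8 : (Multiset.map (eval 0 ∘ fun z => X - C z) P.roots) = P.roots.map fun z => -z := by
      refine Multiset.map_congr rfl fun z _ => ?_
      simp
    rw [h8] at h7
    rw [h7, C_1]
  calc P = C P.leadingCoeff * (P.roots.map fun z => X - C z).prod := h1.symm
    _ = (C P.leadingCoeff * (P.roots.map fun z => (C (-z) : ℂ[X])).prod) *
        (P.roots.map fun z => 1 - C z⁻¹ * X).prod := by rw [h2, mul_assoc]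
    _ = _ := by rw [h5, one_mul]

private theorem Mah2_prod {r : ℝ} (hr : 0 < r) (s : Multiset ℂ) :
    mr r (s.map fun z => 1 - C z⁻¹ * X).prod = (s.map fun z => max 1 (r * ‖z⁻¹‖)).prod := by
  induction s using Multiset.induction_on with
  | empty => simpa using Mah2_one hr
  | cons a s ih =>
    rw [Multiset.map_cons, Multiset.prod_cons, mr_mul, ih, mr_one_sub hr, Multiset.map_cons,
      Multiset.prod_cons]

/-- PROOF. `P (0) = 1`, so `P = ∏ (1 - C (z⁻¹) * X)` over the roots `z` of `P` (all nonzero): from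
`P = C a * ∏ (X - C z)` and `1 = a ∏ (- z)`. Then `mr_mul`, `mr_one_sub`: `mr r P = ∏ max 1 (r / ‖z‖) ≥ 1`. -/
theorem one_le_mr {P : ℂ[X]} (hP : P.eval 0 = 1) {r : ℝ} (hr : 0 < r) : 1 ≤ mr r P := by
  rw [Mah2_factor hP, Mah2_prod hr]
  generalize P.roots = s
  induction s using Multiset.induction_on with
  | empty => simp
  | cons a s ih =>
    rw [Multiset.map_cons, Multiset.prod_cons]
    exact one_le_mul_of_one_le_of_one_le (le_max_left _ _) ih

/-- PROOF. As `one_le_mr`, with `r / ‖z‖ ≤ 1` for all roots. -/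
theorem mr_eq_one {P : ℂ[X]} (hP : P.eval 0 = 1) {r : ℝ} (hr : 0 < r)
    (h : ∀ z : ℂ, P.eval z = 0 → r ≤ ‖z‖) : mr r P = 1 := by
  have hs : ∀ z ∈ P.roots, r ≤ ‖z‖ := fun z hz => h z (isRoot_of_mem_roots hz)
  rw [Mah2_factor hP, Mah2_prod hr]
  refine Multiset.prod_eq_one fun x hx => ?_
  obtain ⟨z, hz, rfl⟩ := Multiset.mem_map.1 hx
  refine max_eq_left ?_
  have h1 := hs z hz
  have h2 : 0 < ‖z‖ := hr.trans_le h1
  rw [norm_inv, ← div_eq_mul_inv, div_le_one h2]
  exact h1

end SalemLen
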