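import Pool.Agent.Lib.MP_9599cf_ntL.Defs

/-! # Comparison of Mahler measures -/

set_option autoImplicit false

namespace SalemLen

open Polynomial

/-- Comparison of Mahler measures of polynomials on the unit circle. -/
private theorem mah3_le {A B : ℂ[X]} (h : ∀ z : ℂ, ‖z‖ = 1 → ‖A.eval z‖ ≤ ‖B.eval z‖) :
    A.mahlerMeasure ≤ B.mahlerMeasure := by
  by_cases hA : A = 0
  · rw [hA, mahlerMeasure_zero]
    exact mahlerMeasure_nonneg B
  have hfin : {z : ℂ | A.eval z = 0}.Finite := by
    refine (A.rootSet_finite ℂ).subset ?_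
    intro z hz
    rw [Polynomial.mem_rootSet]
    exact ⟨hA, by simpa using hz⟩
  have hae : ∀ᵐ θ : ℝ ∂MeasureTheory.volume, A.eval (circleMap 0 1 θ) ≠ 0 :=
    (hfin.countable.preimage_circleMap 0 one_ne_zero).ae_notMem _
  have hB : B ≠ 0 := by
    obtain ⟨θ, hθ⟩ := hae.exists
    intro hB
    apply hθ
    have h1 := h (circleMap 0 1 θ) (by simp)
    rw [hB, eval_zero, norm_zero] at h1
    exact norm_le_zero_iff.1 h1
  rw [mahlerMeasure_def_of_ne_zero hA, mahlerMeasure_def_of_ne_zero hB]
  apply Real.exp_le_exp.2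
  refine mul_le_mul_of_nonneg_left ?_ (by positivity)
  refine intervalIntegral.integral_mono_ae Real.two_pi_pos.le A.intervalIntegrable_mahlerMeasure
    B.intervalIntegrable_mahlerMeasure ?_
  filter_upwards [hae] with θ hθ
  exact Real.log_le_log (norm_pos_iff.2 hθ) (h _ (by simp))

/-- PROOF. If `Q = 0` then `P` vanishes on a circle, so `P = 0`, both sides are `0`. If `P = 0` clear. Otherwise
`mahlerMeasure` is the exponential of the circle average of `log ‖·‖` of `P (r x)`, `Q (r x)` on the unit
circle (`Polynomial.mahlerMeasure_def_of_ne_zero`, `circleAverage`, integrable: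
`Polynomial.intervalIntegrable_mahlerMeasure`); `K > 0` (or `P` vanishes on the circle), and
`log ‖P (z)‖ ≤ log K + log ‖Q (z)‖` at all points of the circle where `Q (z) ≠ 0` (all but finitely many:
so almost everywhere; at the points with `Q z = 0` also `P z = 0`), where also `P (z) = 0` is
possible only at finitely many points. (`Real.log 0 = 0`: compare almost everywhere,
`intervalIntegral.integral_mono_ae`.) -/
theorem mr_le {P Q : ℂ[X]} {r : ℝ} (hr : 0 < r) {K : ℝ} (hK : 0 ≤ K)
    (h : ∀ z : ℂ, ‖z‖ = r → ‖P.eval z‖ ≤ K * ‖Q.eval z‖) : mr r P ≤ K * mr r Q := by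
  have h1 : K * mr r Q = (C (K : ℂ) * Q.comp (C (r : ℂ) * X)).mahlerMeasure := by
    rw [mahlerMeasure_mul, mahlerMeasure_const, mr, Complex.norm_real, Real.norm_eq_abs,
      abs_of_nonneg hK]
  rw [h1, mr]
  apply mah3_le
  intro z hz
  rw [eval_mul, eval_C, norm_mul, Complex.norm_real, Real.norm_eq_abs, abs_of_nonneg hK,
    eval_comp, eval_comp, eval_mul, eval_C, eval_X]
  apply h
  rw [norm_mul, hz, Complex.norm_real, Real.norm_eq_abs, abs_of_pos hr, mul_one]

end SalemLen
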