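import Pool.Agent.Lib.MP_9599cf_ntL.Sal1
import Pool.Agent.Lib.MP_9599cf_ntL.Mah2
import Pool.Agent.Lib.MP_9599cf_ntL.Mah3

/-! # At most one zero outside the unit circle -/

set_option autoImplicit false

namespace SalemLen

open Polynomial

private theorem Sal2_sal_eq (h : ℤ[X]) (m : ℕ) (ε : ℤ) :
    cx (sal h m ε) = X ^ m * cx h + C (ε : ℂ) * cx h.reverse := by
  simp [cx, sal, Polynomial.map_add, Polynomial.map_mul]

private theorem Sal2_cx_monic {P : ℤ[X]} (hP : P.Monic) :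
    (cx P).Monic ∧ (cx P).natDegree = P.natDegree :=
  ⟨hP.map _, hP.natDegree_map _⟩

private theorem Sal2_sal_monic {h : ℤ[X]} (hh : h.Monic) {m : ℕ} (hm : 1 ≤ m) (ε : ℤ) :
    (sal h m ε).Monic ∧ (sal h m ε).natDegree = m + h.natDegree := by
  have h1 : (X ^ m * h : ℤ[X]).Monic := (monic_X_pow m).mul hh
  have h2 : (X ^ m * h : ℤ[X]).natDegree = m + h.natDegree := by
    rw [(monic_X_pow m).natDegree_mul hh, natDegree_X_pow]
  have h3 : (C ε * h.reverse : ℤ[X]).natDegree < (X ^ m * h : ℤ[X]).natDegree := by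
    rw [h2]
    have h4 : (C ε * h.reverse : ℤ[X]).natDegree ≤ h.reverse.natDegree := natDegree_C_mul_le _ _
    have h5 : h.reverse.natDegree ≤ h.natDegree := reverse_natDegree_le h
    omega
  have h4 : (C ε * h.reverse : ℤ[X]).degree < (X ^ m * h : ℤ[X]).degree :=
    degree_lt_degree h3
  refine ⟨h1.add_of_left h4, ?_⟩
  rw [sal, natDegree_add_eq_left_of_natDegree_lt h3, h2]

/-- PROOF. Let `ρ = (1 + c) / 2` (`1 < ρ < c`), and `δ, η > 0` with `δ < c - 1`, `(c - δ) ^ 2 > (1 + η) ρ c`. For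
`m` large: `‖x‖, ‖y‖ ≥ c - δ` by `annulus`; on the circle `‖z‖ = ρ`, `‖h.reverse (z)‖ ≤ η ‖z ^ m h (z)‖`
(`reverse_le`: `‖h.reverse (z)‖ (c - ρ) ≤ ‖h (z)‖ (1 + c ρ)`, and `ρ ^ m → ∞`), so by `mr_le`
`mr ρ (cx (sal h m ε)) ≤ (1 + η) mr ρ (X ^ m * cx h) = (1 + η) ρ ^ m * c * ρ ^ (d - 1)`, `d = h.natDegree`
(`mr_mul`, `mr_eq_pow` for `X ^ m` and `k`, `mr_X_sub`). On the other side
`mr ρ (cx (sal h m ε)) = max ρ ‖x‖ * max ρ ‖y‖ * mr ρ Q ≥ (c - δ) ^ 2 * ρ ^ (m + d - 2)` (`pow_le_mr`; `Q` is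
monic of degree `m + d - 2` because `sal h m ε` is monic of degree `m + d` for `m ≥ 1`). So
`(c - δ) ^ 2 ≤ (1 + η) ρ c`, a contradiction. -/
theorem Pis.count {h : ℤ[X]} {c : ℝ} (H : Pis h c) :
    ∀ᶠ m : ℕ in Filter.atTop, ∀ ε : ℤ, |ε| = 1 → ∀ x y : ℂ, ∀ Q : ℂ[X],
      cx (sal h m ε) = (X - C x) * ((X - C y) * Q) → 1 < ‖x‖ → 1 < ‖y‖ → False := by
  have hc := H.gt
  obtain ⟨k, hk, hkz⟩ := H.dom
  set ρ : ℝ := (1 + c) / 2 with hρ
  have hρ1 : 1 < ρ := by rw [hρ]; linarith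
  have hρc : ρ < c := by rw [hρ]; linarith
  have hρ0 : 0 < ρ := by linarith
  set δ : ℝ := (c - ρ) / 4 with hδ
  have hδ0 : 0 < δ := by rw [hδ]; linarith
  set η : ℝ := (c - ρ) / (4 * ρ) with hη
  have hη0 : 0 < η := by rw [hη]; exact div_pos (by linarith) (by linarith)
  have hηρ : (1 + η) * ρ = ρ + (c - ρ) / 4 := by
    rw [hη]
    field_simp
  have hcδ : 1 < c - δ := by rw [hδ]; linarith
  have hkey : (1 + η) * ρ * c < (c - δ) ^ 2 := by
    rw [hηρ, hδ]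
    nlinarith [sq_nonneg (c - ρ)]
  have hpow : ∀ᶠ m : ℕ in Filter.atTop, (1 + c * ρ) / (η * (c - ρ)) ≤ ρ ^ m :=
    (tendsto_pow_atTop_atTop_of_one_lt hρ1).eventually_ge_atTop _
  filter_upwards [H.annulus hδ0, hpow, Filter.eventually_ge_atTop 1] with m hann hm hm1
  intro ε hε x y Q hQ hx hy
  have hcxm := Sal2_cx_monic H.monic
  have hsm := Sal2_sal_monic H.monic hm1 ε
  have hcs := Sal2_cx_monic hsm.1
  -- the degrees
  have hkm : k.Monic := by
    have h1 : ((X - C (c : ℂ)) * k).Monic := hk ▸ hcxm.1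
    exact (monic_X_sub_C (c : ℂ)).of_mul_monic_left h1
  have hkd : h.natDegree = 1 + k.natDegree := by
    rw [← hcxm.2, hk, (monic_X_sub_C (c : ℂ)).natDegree_mul hkm, natDegree_X_sub_C]
  have hQ1 : ((X - C y) * Q).Monic := by
    have h1 : ((X - C x) * ((X - C y) * Q)).Monic := hQ ▸ hcs.1
    exact (monic_X_sub_C x).of_mul_monic_left h1
  have hQm : Q.Monic := (monic_X_sub_C y).of_mul_monic_left hQ1
  have hQd : m + k.natDegree = 1 + Q.natDegree := by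
    have h1 : (cx (sal h m ε)).natDegree = 1 + (1 + Q.natDegree) := by
      rw [hQ, (monic_X_sub_C x).natDegree_mul hQ1, natDegree_X_sub_C,
        (monic_X_sub_C y).natDegree_mul hQm, natDegree_X_sub_C]
    rw [hcs.2, hsm.2, hkd] at h1
    omega
  -- the zeros `x`, `y`
  have hxc : c - δ ≤ ‖x‖ := by
    by_contra hlt
    refine hann ε hε x hx (not_le.1 hlt) ?_
    rw [hQ]
    simp
  have hyc : c - δ ≤ ‖y‖ := by
    by_contra hlt
    refine hann ε hε y hy (not_le.1 hlt) ?_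
    rw [hQ]
    simp
  -- lower bound
  have hlow : (c - δ) ^ 2 * ρ ^ Q.natDegree ≤ mr ρ (cx (sal h m ε)) := by
    rw [hQ, mr_mul, mr_mul, mr_X_sub hρ0, mr_X_sub hρ0, sq, mul_assoc]
    have h1 := pow_le_mr hQm hρ0
    have h2 : c - δ ≤ max ρ ‖x‖ := hxc.trans (le_max_right _ _)
    have h3 : c - δ ≤ max ρ ‖y‖ := hyc.trans (le_max_right _ _)
    have h4 : 0 ≤ ρ ^ Q.natDegree := by positivity
    have h5 : 0 ≤ c - δ := by linarith
    exact mul_le_mul h2 (mul_le_mul h3 h1 h4 (h5.trans h3)) (mul_nonneg h5 h4) (h5.trans h2)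
  -- upper bound
  have hup : mr ρ (cx (sal h m ε)) ≤ (1 + η) * mr ρ (X ^ m * cx h) := by
    refine mr_le hρ0 (by linarith) fun z hz => ?_
    have h1 : ‖(cx h.reverse).eval z‖ * ‖z - c‖ ≤ ‖(cx h).eval z‖ * ‖1 - c * z‖ :=
      H.reverse_le (by rw [hz]; exact hρ1.le)
    have h2 : c - ρ ≤ ‖z - c‖ := by
      have h3 : ‖(c : ℂ)‖ - ‖z‖ ≤ ‖(c : ℂ) - z‖ := norm_sub_norm_le _ _
      rw [norm_sub_rev, hz, Complex.norm_real, Real.norm_eq_abs, abs_of_pos (by linarith)] at h3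
      exact h3
    have h3 : ‖1 - c * z‖ ≤ 1 + c * ρ := by
      refine (norm_sub_le _ _).trans ?_
      rw [norm_one, norm_mul, hz, Complex.norm_real, Real.norm_eq_abs, abs_of_pos (by linarith)]
    have h4 : ‖(cx h.reverse).eval z‖ ≤ η * ρ ^ m * ‖(cx h).eval z‖ := by
      have h5 : 0 < c - ρ := by linarith
      have h6 : 1 + c * ρ ≤ ρ ^ m * (η * (c - ρ)) := by
        rwa [div_le_iff₀ (mul_pos hη0 h5)] at hm
      have h7 : ‖(cx h.reverse).eval z‖ * (c - ρ) ≤ (η * ρ ^ m * ‖(cx h).eval z‖) * (c - ρ) := by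
        calc ‖(cx h.reverse).eval z‖ * (c - ρ) ≤ ‖(cx h.reverse).eval z‖ * ‖z - c‖ :=
              mul_le_mul_of_nonneg_left h2 (norm_nonneg _)
          _ ≤ ‖(cx h).eval z‖ * ‖1 - c * z‖ := h1
          _ ≤ ‖(cx h).eval z‖ * (1 + c * ρ) := mul_le_mul_of_nonneg_left h3 (norm_nonneg _)
          _ ≤ ‖(cx h).eval z‖ * (ρ ^ m * (η * (c - ρ))) :=
              mul_le_mul_of_nonneg_left h6 (norm_nonneg _)
          _ = _ := by ring
      exact le_of_mul_le_mul_right h7 h5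
    have hε' : ‖(ε : ℂ)‖ = 1 := by
      rw [Complex.norm_intCast]
      exact_mod_cast hε
    rw [Sal2_sal_eq]
    simp only [eval_add, eval_mul, eval_pow, eval_X, eval_C]
    refine (norm_add_le _ _).trans ?_
    rw [norm_mul, norm_mul, norm_pow, hz, hε', one_mul]
    nlinarith [h4]
  have hval : mr ρ (X ^ m * cx h) = ρ ^ m * (c * ρ ^ k.natDegree) := by
    rw [mr_mul, hk, mr_mul, mr_X_sub hρ0, mr_eq_pow hkm hρ0 fun z hz => ((hkz z hz).le.trans hρ1.le),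
      mr_eq_pow (monic_X_pow m) hρ0 fun z hz => ?_, natDegree_X_pow, Complex.norm_real,
      Real.norm_eq_abs, abs_of_pos (by linarith : (0 : ℝ) < c), max_eq_right hρc.le]
    rw [eval_pow, eval_X] at hz
    rw [pow_eq_zero_iff (by omega)] at hz
    rw [hz, norm_zero]
    exact hρ0.le
  have hfin := hlow.trans hup
  rw [hval] at hfin
  have h1 : ρ ^ m * (c * ρ ^ k.natDegree) = c * ρ * ρ ^ Q.natDegree := by
    have h2 : ρ ^ m * ρ ^ k.natDegree = ρ * ρ ^ Q.natDegree := by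
      rw [← pow_add, hQd, pow_add, pow_one]
    calc ρ ^ m * (c * ρ ^ k.natDegree) = c * (ρ ^ m * ρ ^ k.natDegree) := by ring
      _ = _ := by rw [h2]; ring
  rw [h1] at hfin
  have h2 : 0 < ρ ^ Q.natDegree := by positivity
  nlinarith [hfin, mul_lt_mul_of_pos_right hkey h2]

end SalemLen
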