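import Pool.Agent.Lib.MP_9599cf_ntL.Defs

/-! # A real zero below the Pisot number -/

set_option autoImplicit false

namespace SalemLen

open Polynomial

private theorem sal3_cx (P : ℤ[X]) (x : ℝ) :
    (cx P).eval (x : ℂ) = (((P.map (Int.castRingHom ℝ)).eval x : ℝ) : ℂ) := by
  have h1 : cx P = (P.map (Int.castRingHom ℝ)).map Complex.ofRealHom := by
    rw [cx, Polynomial.map_map]
    congr 1
  rw [h1, eval_map]
  exact eval₂_at_apply Complex.ofRealHom x

private theorem sal3_factor {h : ℤ[X]} {c : ℝ} (H : Pis h c) :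
    ∃ k : ℝ[X], h.map (Int.castRingHom ℝ) = (X - C c) * k ∧ ∀ x : ℝ, 1 ≤ x → 0 < k.eval x := by
  obtain ⟨k', hk', hz⟩ := H.dom
  have hroot : (h.map (Int.castRingHom ℝ)).IsRoot c := by
    have h1 : (cx h).eval (c : ℂ) = 0 := by rw [hk']; simp
    rw [sal3_cx] at h1
    exact_mod_cast h1
  obtain ⟨k, hk⟩ := dvd_iff_isRoot.2 hroot
  have hmon : k.Monic := by
    have h1 : ((X - C c) * k).Monic := by
      rw [← hk]
      exact H.monic.map _
    exact Monic.of_mul_monic_left (monic_X_sub_C c) h1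
  have hkk : k.map Complex.ofRealHom = k' := by
    have h1 : cx h = (h.map (Int.castRingHom ℝ)).map Complex.ofRealHom := by
      rw [cx, Polynomial.map_map]
      congr 1
    rw [hk, Polynomial.map_mul, hk'] at h1
    have h2 : (X - C c : ℝ[X]).map Complex.ofRealHom = X - C (c : ℂ) := by
      rw [Polynomial.map_sub, Polynomial.map_X, Polynomial.map_C]
      rfl
    rw [h2] at h1
    exact (mul_left_cancel₀ (X_sub_C_ne_zero _) h1).symm
  have hne : ∀ x : ℝ, 1 ≤ x → k.eval x ≠ 0 := by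
    intro x hx h0
    have h1 : k'.eval (x : ℂ) = 0 := by
      rw [← hkk, eval_map]
      have h2 := eval₂_at_apply (p := k) Complex.ofRealHom x
      rw [h0, map_zero] at h2
      exact h2
    have h3 := hz _ h1
    rw [Complex.norm_real, Real.norm_eq_abs, abs_of_nonneg (by linarith)] at h3
    linarith
  refine ⟨k, hk, fun x hx => ?_⟩
  by_contra hcon
  have hlt : k.eval x < 0 := lt_of_le_of_ne (not_lt.1 hcon) (hne x hx)
  by_cases hd : k.natDegree = 0
  · have h1 : k = 1 := by
      rw [eq_C_of_natDegree_eq_zero hd]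
      have h2 : k.coeff 0 = 1 := by
        have := hmon.coeff_natDegree
        rwa [hd] at this
      rw [h2, C_1]
    rw [h1] at hlt
    norm_num at hlt
  · have hdeg : 0 < k.degree := natDegree_pos_iff_degree_pos.1 (Nat.pos_of_ne_zero hd)
    have ht := k.tendsto_atTop_of_leadingCoeff_nonneg hdeg (by rw [hmon.leadingCoeff]; norm_num)
    obtain ⟨y, hy1, hy2⟩ := ((ht.eventually_gt_atTop 0).and
      (Filter.eventually_ge_atTop x)).exists
    have hIVT := intermediate_value_Icc hy2 (k.continuous.continuousOn (s := Set.Icc x y))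
    obtain ⟨z, hz1, hz2⟩ := hIVT ⟨hlt.le, hy1.le⟩
    exact hne z (hx.trans hz1.1) hz2

private theorem sal3_rev {h : ℤ[X]} {c : ℝ} (H : Pis h c) :
    (h.reverse.map (Int.castRingHom ℝ)).eval c ≠ 0 := by
  intro h0
  have hc : c ≠ 0 := by
    have := H.gt
    linarith
  have hc' : (c : ℂ) ≠ 0 := by exact_mod_cast hc
  have h1 : (cx h.reverse).eval (c : ℂ) = 0 := by
    rw [sal3_cx, h0, Complex.ofReal_zero]
  apply H.inv
  let _ : Invertible ((c : ℂ)⁻¹) := invertibleOfNonzero (inv_ne_zero hc')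
  have h2 := eval₂_reverse_mul_pow (Int.castRingHom ℂ) ((c : ℂ)⁻¹) h
  rw [invOf_eq_inv, inv_inv] at h2
  rw [cx, eval_map, ← h2]
  rw [cx, eval_map] at h1
  rw [h1, zero_mul]

/-- PROOF. For real `x > 1`, `x ≠ c`: `h (x) / (x - c) = k (x)` is real and positive (`k` is monic with
real coefficients, no real zero in `[1, ∞)`, positive for large `x`: intermediate value theorem; or: the
real polynomial function `h` has no zero in `(1, c)` and in `(c, ∞)`, tends to `∞`, and `c` is a simple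
zero). So `h (x) < 0` on `(1, c)`. `h.reverse (c) = c ^ d h (1 / c) ≠ 0` (`H.inv`, `d = h.natDegree`; real
number); let `ε` be its sign: `sal h m ε` has the value `ε h.reverse (c) > 0` at `c`. Fix
`x₁` with `max 1 (c - δ) < x₁ < c`: the value at `x₁` is `x₁ ^ m h (x₁) + ε h.reverse (x₁) → -∞` for
`m → ∞`. Intermediate value theorem. -/
theorem Pis.exists_root {h : ℤ[X]} {c : ℝ} (H : Pis h c) {δ : ℝ} (hδ : 0 < δ) :
    ∃ ε : ℤ, |ε| = 1 ∧ ∀ᶠ m : ℕ in Filter.atTop, ∃ t : ℝ, 1 < t ∧ c - δ < t ∧ t < c ∧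
      (cx (sal h m ε)).eval (t : ℂ) = 0 := by
  obtain ⟨k, hk, hpos⟩ := sal3_factor H
  have hrev := sal3_rev H
  obtain ⟨ε, hε, hεpos⟩ : ∃ ε : ℤ, |ε| = 1 ∧
      0 < (ε : ℝ) * (h.reverse.map (Int.castRingHom ℝ)).eval c := by
    rcases lt_or_gt_of_ne hrev with h1 | h1
    · exact ⟨-1, by norm_num, by push_cast; linarith⟩
    · exact ⟨1, by norm_num, by push_cast; linarith⟩
  refine ⟨ε, hε, ?_⟩
  obtain ⟨x₁, hx1, hx2⟩ : ∃ x₁ : ℝ, max 1 (c - δ) < x₁ ∧ x₁ < c :=
    exists_between (max_lt H.gt (by linarith))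
  have hx1' : 1 < x₁ := lt_of_le_of_lt (le_max_left _ _) hx1
  have hx1'' : c - δ < x₁ := lt_of_le_of_lt (le_max_right _ _) hx1
  set f : ℝ → ℝ := fun x => (h.map (Int.castRingHom ℝ)).eval x with hf
  set g : ℝ → ℝ := fun x => (h.reverse.map (Int.castRingHom ℝ)).eval x with hg
  have hfneg : f x₁ < 0 := by
    have h1 : f x₁ = (x₁ - c) * k.eval x₁ := by
      simp only [hf]
      rw [hk]
      simp
    rw [h1]
    exact mul_neg_of_neg_of_pos (by linarith) (hpos x₁ hx1'.le)
  have hfc : f c = 0 := by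
    simp only [hf]
    rw [hk]
    simp
  have hval : ∀ (m : ℕ) (x : ℝ), (cx (sal h m ε)).eval (x : ℂ) =
      ((x ^ m * f x + ε * g x : ℝ) : ℂ) := by
    intro m x
    rw [sal3_cx]
    congr 1
    simp [sal, hf, hg]
  have htend : Filter.Tendsto (fun m : ℕ => x₁ ^ m * f x₁ + ε * g x₁) Filter.atTop
      Filter.atBot := by
    refine Filter.tendsto_atBot_add_const_right _ _ ?_
    exact (tendsto_pow_atTop_atTop_of_one_lt hx1').atTop_mul_const_of_neg hfneg
  filter_upwards [htend.eventually_lt_atBot 0] with m hm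
  have hcont : Continuous (fun x : ℝ => x ^ m * f x + ε * g x) := by
    have c1 : Continuous f := Polynomial.continuous _
    have c2 : Continuous g := Polynomial.continuous _
    fun_prop
  have hIVT := intermediate_value_Ioo hx2.le (hcont.continuousOn (s := Set.Icc x₁ c))
  have hcv : 0 < c ^ m * f c + ε * g c := by
    rw [hfc, mul_zero, zero_add]
    exact hεpos
  obtain ⟨t, ht1, ht2⟩ := hIVT ⟨hm, hcv⟩
  refine ⟨t, hx1'.trans ht1.1, hx1''.trans ht1.1, ht1.2, ?_⟩
  rw [hval]
  simp only at ht2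
  rw [ht2, Complex.ofReal_zero]

end SalemLen
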