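import Pool.Agent.Lib.MP_9599cf_ntL.Defs

/-! # Division by a power of X, with the number of monomials -/

set_option autoImplicit false

namespace SalemLen

open Polynomial

private theorem stripC_len (Q : ℤ[X]) : len (Q * X) = len Q := by
  have h1 : ∀ P : ℤ[X], ∀ n, P.natDegree < n → len P = ∑ i ∈ Finset.range n, (P.coeff i).natAbs := by
    intro P n hn
    have h2 := Polynomial.sum_over_range' P (f := fun _ a => (a : ℤ).natAbs) (fun _ => rfl) n hn
    rw [Polynomial.sum_def] at h2
    exact h2
  have h3 : (Q * X).natDegree < Q.natDegree + 1 + 1 := by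
    have h4 := Polynomial.natDegree_mul_le (p := Q) (q := X)
    have h5 := Polynomial.natDegree_X_le (R := ℤ)
    omega
  rw [h1 _ _ h3, h1 Q (Q.natDegree + 1) (Nat.lt_succ_self _), Finset.sum_range_succ']
  simp only [Polynomial.coeff_mul_X, Polynomial.coeff_mul_X_zero, Int.natAbs_zero, add_zero]

private theorem stripC_card (Q : ℤ[X]) : (Q * X).support.card = Q.support.card := by
  have h1 : (Q * X).support = Q.support.map ⟨fun i => i + 1, fun a b h => Nat.succ_injective h⟩ := by
    ext i
    rw [mem_support_iff, Finset.mem_map]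
    rcases i with _ | i
    · rw [coeff_mul_X_zero]
      constructor
      · intro h
        exact absurd rfl h
      · rintro ⟨j, -, hj⟩
        exact absurd hj (Nat.succ_ne_zero j)
    · rw [coeff_mul_X]
      constructor
      · intro h
        exact ⟨i, mem_support_iff.2 h, rfl⟩
      · rintro ⟨j, hj, hj2⟩
        have h2 : j = i := Nat.succ_injective hj2
        rw [← h2]
        exact mem_support_iff.1 hj
  rw [h1, Finset.card_map]

private theorem stripC_step {P : ℤ[X]} (hP : P.Monic) {t : ℝ} (ht : 1 < t) (h : Dom P t)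
    (h0 : P.coeff 0 = 0) : ∃ P' : ℤ[X], P'.Monic ∧ len P' = len P ∧
      P'.support.card = P.support.card ∧ Dom P' t ∧ P'.natDegree < P.natDegree := by
  have e : P.divX * X = P := by
    have h1 := Polynomial.divX_mul_X_add P
    rw [h0, C_0, add_zero] at h1
    exact h1
  have hm : P.divX.Monic := by
    apply Polynomial.Monic.of_mul_monic_right (q := X) monic_X
    rw [e]
    exact hP
  refine ⟨P.divX, hm, ?_, ?_, ?_, ?_⟩
  · rw [← stripC_len, e]
  · rw [← stripC_card, e]
  · obtain ⟨Q, hQ, hz⟩ := h
    have h2 : cx P = cx P.divX * X := by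
      rw [← e]
      simp only [cx, Polynomial.map_mul, Polynomial.map_X]
      rw [e]
    have h3 : Q.eval 0 = 0 := by
      have h4 := congrArg (Polynomial.eval 0) (h2.symm.trans hQ)
      simp only [eval_mul, eval_X, mul_zero, eval_sub, eval_C, zero_sub] at h4
      have h5 : (-(t : ℂ)) ≠ 0 := by
        rw [neg_ne_zero, Complex.ofReal_ne_zero]
        linarith
      rcases mul_eq_zero.mp h4.symm with h6 | h6
      · exact absurd h6 h5
      · exact h6
    have h7 : Q.divX * X = Q := by
      have h8 := Polynomial.divX_mul_X_add Q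
      rw [Polynomial.coeff_zero_eq_eval_zero, h3, C_0, add_zero] at h8
      exact h8
    refine ⟨Q.divX, ?_, ?_⟩
    · have h9 : cx P.divX * X = (X - C (t : ℂ)) * Q.divX * X := by
        rw [mul_assoc, h7, ← hQ, h2]
      exact mul_right_cancel₀ X_ne_zero h9
    · intro z hz'
      apply hz
      rw [← h7, eval_mul, hz', zero_mul]
  · have h10 : (P.divX * X).natDegree = P.divX.natDegree + 1 :=
      Polynomial.natDegree_mul_X hm.ne_zero
    rw [e] at h10
    omega

/-- PROOF. As `exists_coeff_zero` in `Strip.lean`: `P = X ^ e * P'` with `P'.coeff 0 ≠ 0`, the support is shifted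
(induction with `divX`, or copy that proof). -/
theorem exists_coeff_zero_card {P : ℤ[X]} (hP : P.Monic) {t : ℝ} (ht : 1 < t) (h : Dom P t) :
    ∃ P' : ℤ[X], P'.Monic ∧ len P' = len P ∧ P'.support.card = P.support.card ∧ Dom P' t ∧
      P'.coeff 0 ≠ 0 := by
  have key : ∀ n : ℕ, ∀ P : ℤ[X], P.natDegree = n → P.Monic → Dom P t →
      ∃ P' : ℤ[X], P'.Monic ∧ len P' = len P ∧ P'.support.card = P.support.card ∧ Dom P' t ∧
        P'.coeff 0 ≠ 0 := by
    intro n
    induction n using Nat.strong_induction_on with
    | _ n ih =>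
      intro P hn hP h
      by_cases h0 : P.coeff 0 = 0
      · obtain ⟨P1, hm, hl, hk, hd, hlt⟩ := stripC_step hP ht h h0
        obtain ⟨P2, hm2, hl2, hk2, hd2, hc2⟩ := ih P1.natDegree (by omega) P1 rfl hm hd
        exact ⟨P2, hm2, hl2.trans hl, hk2.trans hk, hd2, hc2⟩
      · exact ⟨P, hP, rfl, rfl, h, h0⟩
  exact key P.natDegree P rfl hP h

end SalemLen
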