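import Pool.Agent.Lib.MP_9599cf_ntL.MahDer

/-! # The coefficients of polynomials with few monomials -/

set_option autoImplicit false

namespace SalemLen

open Polynomial

private theorem Height_lin (z : ℂ) :
    (X - C z : ℂ[X]).reverse.mahlerMeasure = (X - C z : ℂ[X]).mahlerMeasure := by
  have h1 : (X - C z : ℂ[X]).reverse = 1 - C z * X := by
    rw [reverse, natDegree_X_sub_C, reflect_sub, reflect_one_X, reflect_C, pow_one]
  rw [h1, mahlerMeasure_X_sub_C]
  by_cases hz : z = 0
  · rw [hz]
    simp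
  · have h2 : (1 - C z * X : ℂ[X]) = C (-z) * X + C 1 := by
      rw [C_neg, C_1]
      ring
    rw [h2, mahlerMeasure_C_mul_X_add_C (neg_ne_zero.2 hz), norm_neg, norm_one, max_comm]

private theorem Height_prod (s : Multiset ℂ) :
    ((s.map fun z => (X - C z : ℂ[X])).prod).reverse.mahlerMeasure =
      ((s.map fun z => (X - C z : ℂ[X])).prod).mahlerMeasure := by
  induction s using Multiset.induction_on with
  | empty =>
    rw [Multiset.map_zero, Multiset.prod_zero, ← C_1, reverse_C]
  | cons z s ih =>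
    rw [Multiset.map_cons, Multiset.prod_cons, reverse_mul_of_domain, mahlerMeasure_mul,
      mahlerMeasure_mul, ih, Height_lin]

/-- PROOF. `‖P x‖ = ‖P.reverse (1 / x)‖` for `‖x‖ = 1`; or by the roots: the nonzero roots are inverted and the leading
coefficient is the lowest nonzero coefficient. (Mahler measure as a circle average: substitute `θ ↦ -θ`; or
`Polynomial.mahlerMeasure_eq_leadingCoeff_mul_prod_roots`.) -/
theorem mahlerMeasure_reverse (P : ℂ[X]) : P.reverse.mahlerMeasure = P.mahlerMeasure := by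
  have h1 := (IsAlgClosed.splits P).eq_prod_roots
  rw [h1, reverse_mul_of_domain, mahlerMeasure_mul, mahlerMeasure_mul, Height_prod, reverse_C]

private theorem Height_card_reverse (P : ℂ[X]) : P.reverse.support.card ≤ P.support.card := by
  rw [reverse, reflect_support]
  exact Finset.card_image_le

private theorem Height_card_derivative {Q : ℂ[X]} {k : ℕ} (h0 : Q.coeff 0 ≠ 0)
    (hk : Q.support.card ≤ k + 1) : Q.derivative.support.card ≤ k := by
  have h1 : Q.derivative.support.card ≤ (Q.support.erase 0).card := by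
    refine Finset.card_le_card_of_injOn (fun n => n + 1) ?_ ?_
    · intro n hn
      have h2 : Q.derivative.coeff n ≠ 0 := mem_support_iff.1 hn
      rw [coeff_derivative] at h2
      refine Finset.mem_coe.2 (Finset.mem_erase.2 ⟨Nat.succ_ne_zero n, ?_⟩)
      exact mem_support_iff.2 (left_ne_zero_of_mul h2)
    · intro a _ b _ hab
      exact Nat.succ_injective hab
  rw [Finset.card_erase_of_mem (mem_support_iff.2 h0)] at h1
  omega

/-- The upper half of the coefficients. -/
private theorem Height_upper {k : ℕ}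
    (ih : ∀ P : ℂ[X], P.support.card ≤ k → ∀ i, ‖P.coeff i‖ ≤ 2 ^ k * P.mahlerMeasure)
    {Q : ℂ[X]} (h0 : Q.coeff 0 ≠ 0) (hk : Q.support.card ≤ k + 1) {i : ℕ}
    (hi : Q.natDegree ≤ 2 * i) : ‖Q.coeff i‖ ≤ 2 ^ (k + 1) * Q.mahlerMeasure := by
  have hM := Q.mahlerMeasure_nonneg
  rcases Nat.eq_zero_or_pos i with hi0 | hi0
  · have h1 : Q.natDegree = 0 := by omega
    have h2 := eq_C_of_natDegree_eq_zero h1
    have h3 : Q.mahlerMeasure = ‖Q.coeff 0‖ := by
      conv_lhs => rw [h2]
      exact mahlerMeasure_const _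
    rw [hi0, h3]
    have h4 : (1 : ℝ) ≤ 2 ^ (k + 1) := one_le_pow₀ (by norm_num)
    have h5 := norm_nonneg (Q.coeff 0)
    nlinarith
  · obtain ⟨j, rfl⟩ : ∃ j, i = j + 1 := ⟨i - 1, by omega⟩
    have h1 := ih Q.derivative (Height_card_derivative h0 hk) j
    rw [coeff_derivative, norm_mul] at h1
    have h2 := mahler_derivative Q
    have h3 : ‖((j : ℂ) + 1)‖ = (j : ℝ) + 1 := by
      have h4 : ((j : ℂ) + 1) = ((j + 1 : ℕ) : ℂ) := by push_cast; rfl
      rw [h4, Complex.norm_natCast]
      push_cast
      rfl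
    rw [h3] at h1
    have h5 : (Q.natDegree : ℝ) ≤ 2 * ((j : ℝ) + 1) := by exact_mod_cast hi
    have h6 : (0 : ℝ) < 2 ^ k := by positivity
    have h7 : ‖Q.coeff (j + 1)‖ * ((j : ℝ) + 1) ≤
        2 ^ (k + 1) * Q.mahlerMeasure * ((j : ℝ) + 1) := by
      calc ‖Q.coeff (j + 1)‖ * ((j : ℝ) + 1) ≤ 2 ^ k * Q.derivative.mahlerMeasure := h1
        _ ≤ 2 ^ k * (Q.natDegree * Q.mahlerMeasure) := mul_le_mul_of_nonneg_left h2 h6.le
        _ ≤ 2 ^ k * ((2 * ((j : ℝ) + 1)) * Q.mahlerMeasure) :=
          mul_le_mul_of_nonneg_left (mul_le_mul_of_nonneg_right h5 hM) h6.le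
        _ = 2 ^ (k + 1) * Q.mahlerMeasure * ((j : ℝ) + 1) := by ring
    exact le_of_mul_le_mul_right h7 (by positivity)

/-- All coefficients, if the lowest one is not zero. -/
private theorem Height_norm {k : ℕ}
    (ih : ∀ P : ℂ[X], P.support.card ≤ k → ∀ i, ‖P.coeff i‖ ≤ 2 ^ k * P.mahlerMeasure)
    {Q : ℂ[X]} (h0 : Q.coeff 0 ≠ 0) (hk : Q.support.card ≤ k + 1) (i : ℕ) :
    ‖Q.coeff i‖ ≤ 2 ^ (k + 1) * Q.mahlerMeasure := by
  rcases le_or_gt Q.natDegree (2 * i) with hi | hi
  · exact Height_upper ih h0 hk hi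
  · have hQ : Q ≠ 0 := by
      rintro rfl
      exact h0 (coeff_zero 0)
    have h1 : Q.reverse.coeff 0 ≠ 0 := by
      rw [coeff_zero_reverse]
      exact leadingCoeff_ne_zero.2 hQ
    have h2 : Q.reverse.natDegree = Q.natDegree := by
      rw [reverse_natDegree]
      have h3 : Q.natTrailingDegree = 0 := natTrailingDegree_eq_zero.2 (Or.inr h0)
      rw [h3, Nat.sub_zero]
    have h4 : Q.reverse.coeff (Q.natDegree - i) = Q.coeff i := by
      rw [coeff_reverse, revAt_le (Nat.sub_le _ _)]
      congr 1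
      omega
    have h5 := Height_upper ih h1 ((Height_card_reverse Q).trans hk)
      (i := Q.natDegree - i) (by rw [h2]; omega)
    rwa [h4, mahlerMeasure_reverse] at h5

private theorem Height_main (k : ℕ) :
    ∀ P : ℂ[X], P.support.card ≤ k → ∀ i, ‖P.coeff i‖ ≤ 2 ^ k * P.mahlerMeasure := by
  induction k with
  | zero =>
    intro P hP i
    have h1 : P = 0 := by
      rw [← support_eq_empty, ← Finset.card_eq_zero]
      omega
    rw [h1, coeff_zero, norm_zero, mahlerMeasure_zero, mul_zero]
  | succ k ih =>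
    intro P hP i
    by_cases h0 : P = 0
    · rw [h0, coeff_zero, norm_zero, mahlerMeasure_zero, mul_zero]
    rcases le_or_gt i P.natDegree with hi | hi
    · have h1 : P.reverse.coeff 0 ≠ 0 := by
        rw [coeff_zero_reverse]
        exact leadingCoeff_ne_zero.2 h0
      have h4 : P.reverse.coeff (P.natDegree - i) = P.coeff i := by
        rw [coeff_reverse, revAt_le (Nat.sub_le _ _)]
        congr 1
        omega
      have h5 := Height_norm ih h1 ((Height_card_reverse P).trans hP) (P.natDegree - i)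
      rwa [h4, mahlerMeasure_reverse] at h5
    · rw [coeff_eq_zero_of_natDegree_lt hi, norm_zero]
      exact mul_nonneg (by positivity) P.mahlerMeasure_nonneg

/-- PROOF. Induction on the number `k` of monomials, for all `P` and `i`; `P ≠ 0`, `D = P.natDegree`. Division by a
power of `X` changes neither the Mahler measure nor `k` (`i` shifts), so let `P.coeff 0 ≠ 0`. If `k = 1`, `P` is a
constant. Otherwise `D > 0`. If `2 i ≥ D`: `i > 0`, the derivative has `k - 1` monomials, the coefficient with index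
`i - 1` is `i * P.coeff i`, so `i ‖P.coeff i‖ ≤ 2 ^ (k - 1) * D * M(P)` by induction and `mahler_derivative`, and
`D / i ≤ 2`. If `2 i < D` apply this to `P.reverse` (same number of monomials, degree `D`, index `D - i`;
`mahlerMeasure_reverse`). For `i > D` the coefficient is zero. -/
theorem norm_coeff_le (P : ℂ[X]) (i : ℕ) :
    ‖P.coeff i‖ ≤ 2 ^ P.support.card * P.mahlerMeasure := by
  exact Height_main P.support.card P le_rfl i

end SalemLen
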