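import Pool.Agent.Lib.MP_9599cf_ntL.Defs

/-! # The length of the limit -/

set_option autoImplicit false

namespace SalemLen

open Polynomial

private theorem lim2_len_eq (P : ℤ[X]) (n : ℕ) (h : P.natDegree < n) :
    len P = ∑ i ∈ Finset.range n, (P.coeff i).natAbs := by
  unfold len
  refine Finset.sum_subset ?_ ?_
  · intro i hi
    exact Finset.mem_range.2 (lt_of_le_of_lt (le_natDegree_of_mem_supp i hi) h)
  · intro i _ hi
    rw [notMem_support_iff.1 hi, Int.natAbs_zero]

/-- PROOF. Let `J = G.natDegree`. For almost all `n` the coefficients with index `j ≤ J` of `Q n` and `G`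
agree and `N = (Q n).natDegree > 2 J + 1`. As `Q n` is equal to its reverse up to sign and
`(Q n).coeff 0 ≠ 0`, `|(Q n).coeff (N - j)| = |(Q n).coeff j|` (`Polynomial.coeff_reverse`,
`Polynomial.revAt_le`). The index sets `{j ≤ J}`, `{N - j : j ≤ J}` are disjoint, so
`2 * len G ≤ len (Q n) ≤ B` (for such an `n`, which exists: `Ultrafilter` is `NeBot`, `.exists`). -/
theorem two_len_le {B : ℕ} (U : Ultrafilter ℕ) (Q : ℕ → ℤ[X]) (h : ∀ n, len (Q n) ≤ B)
    (hrev : ∀ n, (Q n).reverse = Q n ∨ (Q n).reverse = -Q n)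
    (hdeg : ∀ D : ℕ, ∀ᶠ n in (U : Filter ℕ), D ≤ (Q n).natDegree) {G : ℤ[X]}
    (hG : ∀ j, ∀ᶠ n in (U : Filter ℕ), (Q n).coeff j = G.coeff j) : 2 * len G ≤ B := by
  obtain ⟨n, hn1, hn2⟩ := ((hdeg (2 * G.natDegree + 2)).and
    ((Filter.eventually_all_finset (Finset.range (G.natDegree + 1))).2 fun j _ => hG j)).exists
  have hsym : ∀ j ≤ (Q n).natDegree,
      ((Q n).coeff ((Q n).natDegree - j)).natAbs = ((Q n).coeff j).natAbs := by
    intro j hj
    have h1 : (Q n).reverse.coeff j = (Q n).coeff ((Q n).natDegree - j) := by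
      rw [coeff_reverse, revAt_le hj]
    rcases hrev n with h2 | h2
    · rw [← h1, h2]
    · rw [← h1, h2, coeff_neg, Int.natAbs_neg]
  refine le_trans ?_ (h n)
  rw [lim2_len_eq G (G.natDegree + 1) (Nat.lt_succ_self _),
    lim2_len_eq (Q n) ((Q n).natDegree + 1) (Nat.lt_succ_self _), two_mul]
  have e1 : ∑ i ∈ Finset.range (G.natDegree + 1), (G.coeff i).natAbs =
      ∑ i ∈ Finset.range (G.natDegree + 1), ((Q n).coeff i).natAbs :=
    Finset.sum_congr rfl fun i hi => by rw [hn2 i hi]
  have e2 : ∑ i ∈ Finset.range (G.natDegree + 1), (G.coeff i).natAbs =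
      ∑ i ∈ (Finset.range (G.natDegree + 1)).image (fun j => (Q n).natDegree - j),
        ((Q n).coeff i).natAbs := by
    rw [Finset.sum_image, e1]
    · refine Finset.sum_congr rfl fun i hi => (hsym i ?_).symm
      have := Finset.mem_range.1 hi
      omega
    · intro a ha b hb hab
      have h1 := Finset.mem_range.1 (Finset.mem_coe.1 ha)
      have h2 := Finset.mem_range.1 (Finset.mem_coe.1 hb)
      have h3 : (Q n).natDegree - a = (Q n).natDegree - b := hab
      omega
  have hdis : Disjoint (Finset.range (G.natDegree + 1))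
      ((Finset.range (G.natDegree + 1)).image (fun j => (Q n).natDegree - j)) := by
    rw [Finset.disjoint_left]
    intro a ha hb
    obtain ⟨j, hj, hja⟩ := Finset.mem_image.1 hb
    have h1 := Finset.mem_range.1 ha
    have h2 := Finset.mem_range.1 hj
    omega
  nth_rw 1 [e1]
  rw [e2, ← Finset.sum_union hdis]
  refine Finset.sum_le_sum_of_subset ?_
  intro a ha
  rcases Finset.mem_union.1 ha with ha | ha
  · have h1 := Finset.mem_range.1 ha
    exact Finset.mem_range.2 (by omega)
  · obtain ⟨j, hj, hja⟩ := Finset.mem_image.1 ha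
    have h2 := Finset.mem_range.1 hj
    exact Finset.mem_range.2 (by omega)

end SalemLen
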