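import Pool.Agent.Lib.MP_9599cf_ntL.Unif
import Pool.Agent.Lib.MP_9599cf_ntL.Mah2
import Pool.Agent.Lib.MP_9599cf_ntL.Mah3

/-! # The zeros of the limit -/

set_option autoImplicit false

namespace SalemLen

open Polynomial

theorem lim3_factor {P : ℂ[X]} (hP : P.eval 0 = 1) {w : ℂ} (hw : w ≠ 0)
    (h : P.eval w⁻¹ = 0) : ∃ P' : ℂ[X], P = (1 - C w * X) * P' ∧ P'.eval 0 = 1 := by
  obtain ⟨M, hM⟩ := dvd_iff_isRoot.2 (show P.IsRoot w⁻¹ from h)
  have e1 : P = (1 - C w * X) * (C (-w⁻¹) * M) := by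
    have e2 : C w * C w⁻¹ = (1 : ℂ[X]) := by rw [← C_mul, mul_inv_cancel₀ hw, C_1]
    rw [hM, C_neg]
    linear_combination (-X * M) * e2
  refine ⟨C (-w⁻¹) * M, e1, ?_⟩
  have e3 := congrArg (eval 0) e1
  rw [hP, eval_mul, eval_sub, eval_one, eval_mul, eval_X, mul_zero, sub_zero, one_mul] at e3
  exact e3.symm

/-- PROOF. `cx (Q n)` vanishes at `1 / t n → 1 / c`, so `(cx G).eval (1 / c) = 0` by `unif` (`r` between `1 / c`
and `1`; continuity of `G`), and `cx G = (1 - C c * X) * H`, `H.eval 0 = 1` because `G (0) = 1` (`hG 0`).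
Suppose `H.eval z = 0` with `‖z‖ < 1`; `z ≠ 0`. Choose `r < 1`, `r > 1 / c`, `r > ‖z‖`, such that `G` has no
zero of absolute value `r` (finitely many roots). Let `μ > 0` be the minimum of `‖G‖` on the circle
`‖x‖ = r` (compact). For `ε < μ` and almost all `n`: `‖G x‖ ≤ (1 + ε / (μ - ε)) ‖Q n x‖` for `‖x‖ = r`
(`unif`). By `mr_le`, `mr r (cx G) ≤ (1 + ε / (μ - ε)) mr r (cx (Q n)) = (1 + ε / (μ - ε)) * max 1 (r * t n)`
(`mr_mul`, `mr_one_sub`, `mr_eq_one` for `Q' n` as `r ≤ 1 ≤ ‖z‖` for its zeros). On the other hand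
`H = (1 - C z⁻¹ * X) * H'` with `H'.eval 0 = 1`, so `mr r (cx G) ≥ r c * (r / ‖z‖)` (`one_le_mr`). Let
`n → U`, then `ε → 0`: `r c * (r / ‖z‖) ≤ r c`, a contradiction to `r > ‖z‖`. (Here `r t n ≥ 1` eventually,
as `r c > 1`.) -/
theorem limit_zeros {B : ℕ} (U : Ultrafilter ℕ) (Q : ℕ → ℤ[X]) (h : ∀ n, len (Q n) ≤ B)
    {G : ℤ[X]} (hG : ∀ j, ∀ᶠ n in (U : Filter ℕ), (Q n).coeff j = G.coeff j) (t : ℕ → ℝ) {c : ℝ}
    (hc : 1 < c) (ht : Filter.Tendsto t (U : Filter ℕ) (nhds c)) (Q' : ℕ → ℂ[X])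
    (hQ : ∀ n, cx (Q n) = (1 - C (t n : ℂ) * X) * Q' n) (hQ0 : ∀ n, (Q' n).eval 0 = 1)
    (hQ1 : ∀ n, ∀ z : ℂ, (Q' n).eval z = 0 → 1 ≤ ‖z‖) :
    ∃ H : ℂ[X], cx G = (1 - C (c : ℂ) * X) * H ∧ H.eval 0 = 1 ∧
      ∀ z : ℂ, H.eval z = 0 → 1 ≤ ‖z‖ := by
  have hc0 : 0 < c := by linarith
  have hcC : (c : ℂ) ≠ 0 := by exact_mod_cast hc0.ne'
  have hci : c⁻¹ < 1 := inv_lt_one_of_one_lt₀ hc
  have hci0 : 0 < c⁻¹ := inv_pos.2 hc0
  -- value at 0
  have hQ00 : ∀ n, (cx (Q n)).eval 0 = 1 := by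
    intro n
    rw [hQ n, eval_mul, eval_sub, eval_one, eval_mul, eval_X, mul_zero, sub_zero, one_mul, hQ0 n]
  have hG0 : (cx G).eval 0 = 1 := by
    obtain ⟨n, hn⟩ := (hG 0).exists
    rw [← hQ00 n]
    unfold cx
    rw [← coeff_zero_eq_eval_zero, ← coeff_zero_eq_eval_zero, coeff_map, coeff_map, hn]
  -- zero at 1 / c
  have hG1 : (cx G).eval (c : ℂ)⁻¹ = 0 := by
    obtain ⟨r, hr1, hr2⟩ := exists_between hci
    have hr0 : 0 ≤ r := (hci0.trans hr1).le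
    have ht1 : Filter.Tendsto (fun n => (t n)⁻¹) (U : Filter ℕ) (nhds c⁻¹) := ht.inv₀ hc0.ne'
    have ht2 : Filter.Tendsto (fun n => (((t n)⁻¹ : ℝ) : ℂ)) (U : Filter ℕ)
        (nhds ((c⁻¹ : ℝ) : ℂ)) := (Complex.continuous_ofReal.tendsto _).comp ht1
    have ht3 : Filter.Tendsto (fun n => ‖(cx G).eval (((t n)⁻¹ : ℝ) : ℂ)‖) (U : Filter ℕ)
        (nhds ‖(cx G).eval ((c⁻¹ : ℝ) : ℂ)‖) :=
      (((cx G).continuous.norm).tendsto _).comp ht2
    have h0 : ‖(cx G).eval ((c⁻¹ : ℝ) : ℂ)‖ ≤ 0 := by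
      refine le_of_forall_pos_le_add fun ε hε => ?_
      rw [zero_add]
      refine le_of_tendsto ht3 ?_
      filter_upwards [unif U Q h hG hr0 hr2 hε, ht.eventually (lt_mem_nhds hc0),
        ht1.eventually (gt_mem_nhds hr1)] with n h1 h2 h3
      have h4 : (cx (Q n)).eval (((t n)⁻¹ : ℝ) : ℂ) = 0 := by
        have h5 : ((t n : ℝ) : ℂ) ≠ 0 := by exact_mod_cast h2.ne'
        rw [hQ n, eval_mul, eval_sub, eval_one, eval_mul, eval_X, eval_C, Complex.ofReal_inv,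
          mul_inv_cancel₀ h5, sub_self, zero_mul]
      have h6 : ‖(((t n)⁻¹ : ℝ) : ℂ)‖ ≤ r := by
        rw [Complex.norm_real, Real.norm_of_nonneg (inv_pos.2 h2).le]
        exact h3.le
      have h7 := h1 _ h6
      rwa [h4, zero_sub, norm_neg] at h7
    have h8 := norm_le_zero_iff.1 h0
    rwa [Complex.ofReal_inv] at h8
  obtain ⟨H, hH1, hH2⟩ := lim3_factor hG0 hcC hG1
  refine ⟨H, hH1, hH2, fun z hz => ?_⟩
  by_contra hz1
  rw [not_le] at hz1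
  have hz0 : z ≠ 0 := by
    rintro rfl
    rw [hH2] at hz
    exact one_ne_zero hz
  have hzn : 0 < ‖z‖ := norm_pos_iff.2 hz0
  obtain ⟨H', hH3, hH4⟩ := lim3_factor hH2 (inv_ne_zero hz0) (by rw [inv_inv]; exact hz)
  have hG2 : cx G ≠ 0 := by
    intro e
    rw [e, eval_zero] at hG0
    exact zero_ne_one hG0
  -- the radius
  have hmax : max c⁻¹ ‖z‖ < 1 := max_lt hci hz1
  obtain ⟨r, ⟨hr1, hr2⟩, hr3⟩ := ((Set.Ioo_infinite hmax).sdiff
    (Finset.finite_toSet ((cx G).roots.toFinset.image fun x => ‖x‖))).nonempty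
  have hrc : c⁻¹ < r := (le_max_left _ _).trans_lt hr1
  have hrz : ‖z‖ < r := (le_max_right _ _).trans_lt hr1
  have hr0 : 0 < r := hzn.trans hrz
  have hrc1 : 1 < r * c := by
    have := mul_lt_mul_of_pos_right hrc hc0
    rwa [inv_mul_cancel₀ hc0.ne'] at this
  have hnz : ∀ x ∈ Metric.sphere (0 : ℂ) r, (cx G).eval x ≠ 0 := by
    intro x hx e
    apply hr3
    rw [Finset.mem_coe, Finset.mem_image]
    refine ⟨x, ?_, mem_sphere_zero_iff_norm.1 hx⟩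
    rw [Multiset.mem_toFinset, mem_roots hG2]
    exact e
  obtain ⟨x0, hx0, hx1⟩ := (isCompact_sphere (0 : ℂ) r).exists_isMinOn
    (NormedSpace.sphere_nonempty.2 hr0.le) ((cx G).continuous.norm.continuousOn)
  set μ := ‖(cx G).eval x0‖ with hμ
  have hμ0 : 0 < μ := norm_pos_iff.2 (hnz x0 hx0)
  have hμ1 : ∀ x : ℂ, ‖x‖ = r → μ ≤ ‖(cx G).eval x‖ := fun x hx =>
    hx1 (mem_sphere_zero_iff_norm.2 hx)
  -- the constant
  have hρ : 1 < r / ‖z‖ := (one_lt_div hzn).2 hrz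
  obtain ⟨K, hK1, hK2⟩ := exists_between hρ
  have hK0 : 0 < K := by linarith
  have hε : 0 < μ * (K - 1) / K := div_pos (mul_pos hμ0 (by linarith)) hK0
  have hle : ∀ᶠ n in (U : Filter ℕ), mr r (cx G) ≤ K * max 1 (r * |t n|) := by
    filter_upwards [unif U Q h hG hr0.le hr2 hε] with n hn
    have h1 : mr r (cx G) ≤ K * mr r (cx (Q n)) := by
      refine mr_le hr0 hK0.le fun x hx => ?_
      have h2 := hn x hx.le
      have h3 := hμ1 x hx
      have h4 : ‖(cx G).eval x‖ - ‖(cx (Q n)).eval x‖ ≤ μ * (K - 1) / K := by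
        refine (norm_sub_norm_le _ _).trans ?_
        rwa [norm_sub_rev]
      have h5 : K * (‖(cx G).eval x‖ - ‖(cx (Q n)).eval x‖) ≤ μ * (K - 1) := by
        calc _ ≤ K * (μ * (K - 1) / K) := mul_le_mul_of_nonneg_left h4 hK0.le
          _ = μ * (K - 1) := by field_simp
      have h6 : μ * (K - 1) ≤ ‖(cx G).eval x‖ * (K - 1) :=
        mul_le_mul_of_nonneg_right h3 (by linarith)
      nlinarith
    have h7 : mr r (cx (Q n)) = max 1 (r * |t n|) := by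
      rw [hQ n, mr_mul, mr_one_sub hr0, mr_eq_one (hQ0 n) hr0
        (fun z hz => hr2.le.trans (hQ1 n z hz)), mul_one, Complex.norm_real, Real.norm_eq_abs]
    rwa [h7] at h1
  have hlim : Filter.Tendsto (fun n => K * max 1 (r * |t n|)) (U : Filter ℕ)
      (nhds (K * max 1 (r * |c|))) :=
    (tendsto_const_nhds.max (tendsto_const_nhds.mul ht.abs)).const_mul K
  have hfin := ge_of_tendsto hlim hle
  rw [abs_of_pos hc0, max_eq_right hrc1.le] at hfin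
  have hlow : r * c * (r / ‖z‖) ≤ mr r (cx G) := by
    rw [hH1, hH3, mr_mul, mr_mul, mr_one_sub hr0, mr_one_sub hr0, Complex.norm_real,
      Real.norm_of_nonneg hc0.le, max_eq_right hrc1.le, norm_inv, ← div_eq_mul_inv,
      max_eq_right hρ.le]
    refine mul_le_mul_of_nonneg_left ?_ (by positivity)
    exact le_mul_of_one_le_right (by positivity) (one_le_mr hH4 hr0)
  have hrc0 : 0 < r * c := by linarith
  nlinarith

end SalemLen
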