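import Pool.Agent.Lib.MP_9599cf_ntL.Mann1

/-! # The weak theorem of Mann -/

set_option autoImplicit false

namespace SalemLen

open Polynomial

/-- PROOF. Strong induction on `n`, `K = s.card`. If `n ∣ K !` both sides are `1`. Otherwise there is a prime
`p ∣ n` with `p ^ 2 ∣ n` or `p > K` (a squarefree `n` with all prime divisors `≤ K` divides `K !`). If
`p > K` some residue class `r0` is missed by the `e i`. By `class_sum` all class sums vanish; take `i0 ∈ s`,
`r = e i0 % p`: the class of `i0` is nonempty, so by minimality it is `s`: `e i = r + p f i` for all `i ∈ s`.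
`ζ ^ p` is a primitive `n / p`-th root of unity, `∑ a i (ζ ^ p) ^ (f i) = 0` is again minimal (the factor
`ζ ^ r` cancels), induction for `f`; multiply by `ζ ^ (r * K !)`. -/
theorem mann_pow {ι : Type} (s : Finset ι) (a : ι → ℤ) (n : ℕ) (hn : 0 < n) (e : ι → ℕ) {ζ : ℂ}
    (hζ : IsPrimitiveRoot ζ n) (hsum : ∑ i ∈ s, (a i : ℂ) * ζ ^ e i = 0)
    (hmin : ∀ t, t ⊂ s → t.Nonempty → ∑ i ∈ t, (a i : ℂ) * ζ ^ e i ≠ 0) :
    ∀ i ∈ s, ∀ j ∈ s, (ζ ^ e i) ^ (s.card).factorial = (ζ ^ e j) ^ (s.card).factorial := by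
  classical
  induction n using Nat.strong_induction_on generalizing e ζ with
  | _ n ih =>
  intro i hi j hj
  by_cases hK : n ∣ (s.card).factorial
  · have h1 : ∀ m : ℕ, (ζ ^ m) ^ (s.card).factorial = 1 := by
      intro m
      rw [← pow_mul, mul_comm, pow_mul, (hζ.pow_eq_one_iff_dvd _).mpr hK, one_pow]
    rw [h1, h1]
  obtain ⟨p, hp, hpn, hpK⟩ : ∃ p, p.Prime ∧ p ∣ n ∧ (p ^ 2 ∣ n ∨ s.card < p) := by
    by_contra hcon
    push Not at hcon
    apply hK
    rw [← Nat.factorization_prime_le_iff_dvd hn.ne' (Nat.factorial_ne_zero _)]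
    intro p hp
    by_cases hpn : p ∣ n
    · obtain ⟨h1, h2⟩ := hcon p hp hpn
      rw [hp.pow_dvd_iff_le_factorization hn.ne'] at h1
      have h3 : p ^ 1 ∣ (s.card).factorial := by
        rw [pow_one]
        exact (hp.dvd_factorial).mpr h2
      rw [hp.pow_dvd_iff_le_factorization (Nat.factorial_ne_zero _)] at h3
      omega
    · rw [Nat.factorization_eq_zero_of_not_dvd hpn]
      exact Nat.zero_le _
  have hclass : p ^ 2 ∣ n ∨ ∃ r0 < p, ∀ i ∈ s, e i % p ≠ r0 := by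
    rcases hpK with h | h
    · exact Or.inl h
    · right
      have h1 : (s.image fun i => e i % p).card < (Finset.range p).card := by
        rw [Finset.card_range]
        exact lt_of_le_of_lt Finset.card_image_le h
      obtain ⟨r0, h2, h3⟩ := Finset.exists_mem_notMem_of_card_lt_card h1
      refine ⟨r0, Finset.mem_range.mp h2, fun i hi h4 => h3 ?_⟩
      exact Finset.mem_image.mpr ⟨i, hi, h4⟩
  have hcs := class_sum s a e hp hpn hn hζ hsum hclass
  have hall : ∀ l ∈ s, e l % p = e i % p := by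
    have h1 : s.filter (fun l => e l % p = e i % p) = s := by
      by_contra hne
      have hss : s.filter (fun l => e l % p = e i % p) ⊂ s :=
        (Finset.filter_subset _ _).ssubset_of_ne hne
      exact hmin _ hss ⟨i, Finset.mem_filter.mpr ⟨hi, rfl⟩⟩ (hcs (e i % p))
    intro l hl
    rw [← h1] at hl
    exact (Finset.mem_filter.mp hl).2
  obtain ⟨m, rfl⟩ := hpn
  have hm : 0 < m := Nat.pos_of_mul_pos_left hn
  have hζ0 : ζ ≠ 0 := hζ.ne_zero hn.ne'
  set r := e i % p with hr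
  have hpow : ∀ l ∈ s, ζ ^ e l = ζ ^ r * (ζ ^ p) ^ (e l / p) := by
    intro l hl
    rw [← pow_mul, ← pow_add, ← hall l hl, Nat.mod_add_div]
  have hsub : ∀ t ⊆ s, ∑ l ∈ t, (a l : ℂ) * ζ ^ e l =
      ζ ^ r * ∑ l ∈ t, (a l : ℂ) * (ζ ^ p) ^ (e l / p) := by
    intro t ht
    rw [Finset.mul_sum]
    refine Finset.sum_congr rfl fun l hl => ?_
    rw [hpow l (ht hl)]
    ring
  have hr0 : ζ ^ r ≠ 0 := pow_ne_zero _ hζ0
  have hlt : m < p * m := by
    have := hp.two_le
    nlinarith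
  have h1 := ih m hlt hm (fun l => e l / p) (hζ.pow hn rfl)
    (by
      have h2 := hsub s (Finset.Subset.refl s)
      rw [hsum] at h2
      exact (mul_eq_zero.mp h2.symm).resolve_left hr0)
    (by
      intro t ht htn h0
      refine hmin t ht htn ?_
      rw [hsub t ht.1, h0, mul_zero]) i hi j hj
  rw [hpow i hi, hpow j hj, mul_pow, mul_pow, h1]

/-- PROOF. With `n` the product of exponents `j i > 0` with `z i ^ j i = 1` (`i ∈ s`) and a primitive
`n`-th root of unity `ζ` (`Complex.isPrimitiveRoot_exp`), `z i = ζ ^ (e i)` for `i ∈ s`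
(`IsPrimitiveRoot.eq_pow_of_pow_eq_one`); `mann_pow`. -/
theorem mann {ι : Type} (s : Finset ι) (a : ι → ℤ) (z : ι → ℂ)
    (hz : ∀ i ∈ s, ∃ j : ℕ, 0 < j ∧ z i ^ j = 1) (hsum : ∑ i ∈ s, (a i : ℂ) * z i = 0)
    (hmin : ∀ t, t ⊂ s → t.Nonempty → ∑ i ∈ t, (a i : ℂ) * z i ≠ 0) :
    ∀ i ∈ s, ∀ j ∈ s, z i ^ (s.card).factorial = z j ^ (s.card).factorial := by
  classical
  choose! k hk using hz
  have hn : 0 < ∏ i ∈ s, k i := Finset.prod_pos fun i hi => (hk i hi).1
  have hζ := Complex.isPrimitiveRoot_exp (∏ i ∈ s, k i) hn.ne'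
  set ζ : ℂ := Complex.exp (2 * Real.pi * Complex.I / (∏ i ∈ s, k i : ℕ)) with hζd
  have : NeZero (∏ i ∈ s, k i) := ⟨hn.ne'⟩
  have hex : ∀ i ∈ s, ∃ m : ℕ, ζ ^ m = z i := by
    intro i hi
    have h1 : z i ^ (∏ i ∈ s, k i) = 1 := by
      obtain ⟨c, hc⟩ := Finset.dvd_prod_of_mem k hi
      rw [hc, pow_mul, (hk i hi).2, one_pow]
    obtain ⟨m, -, hm⟩ := hζ.eq_pow_of_pow_eq_one h1
    exact ⟨m, hm⟩
  choose! e he using hex
  have hsub : ∀ t ⊆ s, ∑ i ∈ t, (a i : ℂ) * ζ ^ e i = ∑ i ∈ t, (a i : ℂ) * z i := by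
    intro t ht
    refine Finset.sum_congr rfl fun i hi => ?_
    rw [he i (ht hi)]
  intro i hi j hj
  have h1 := mann_pow s a _ hn e hζ (by rw [hsub s (Finset.Subset.refl s), hsum])
    (fun t ht htn h0 => hmin t ht htn (by rw [← hsub t ht.1, h0])) i hi j hj
  rwa [he i hi, he j hj] at h1

end SalemLen
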