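import Pool.Agent.Lib.MP_9599cf_ntL.Defs

/-! # Partition in minimal vanishing blocks -/

set_option autoImplicit false

namespace SalemLen

open Polynomial

/-- PROOF. Strong induction on `s.card`. `s = ∅`: the empty partition. Otherwise choose a nonempty `t ⊆ s` with
`∑ i ∈ t, w i = 0` of minimal cardinality (`s` is one); no nonempty proper subset of `t` has sum zero. `s \ t` has
sum zero; take its partition and add the block `t` (`Finpartition.extend`, or `Finpartition.ofErase`, or
directly). -/
theorem exists_finpartition {ι : Type} [DecidableEq ι] (s : Finset ι) (w : ι → ℂ)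
    (hsum : ∑ i ∈ s, w i = 0) : ∃ P : Finpartition s, ∀ b ∈ P.parts,
      ∑ i ∈ b, w i = 0 ∧ ∀ t, t ⊂ b → t.Nonempty → ∑ i ∈ t, w i ≠ 0 := by
  induction s using Finset.strongInduction with
  | H s ih =>
    rcases s.eq_empty_or_nonempty with rfl | hne
    · refine ⟨Finpartition.empty (Finset ι), ?_⟩
      intro b hb
      simp [Finpartition.empty] at hb
    · have hF : ((s.powerset.filter (fun t => t.Nonempty ∧ ∑ i ∈ t, w i = 0))).Nonempty :=
        ⟨s, by simp [hne, hsum]⟩
      obtain ⟨t, ht, hmin⟩ := Finset.exists_min_image _ Finset.card hF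
      rw [Finset.mem_filter, Finset.mem_powerset] at ht
      obtain ⟨hts, htn, ht0⟩ := ht
      have hlt : s \ t ⊂ s := by
        refine Finset.ssubset_iff_subset_ne.2 ⟨Finset.sdiff_subset, ?_⟩
        intro h
        obtain ⟨i, hi⟩ := htn
        have : i ∈ s \ t := by rw [h]; exact hts hi
        exact (Finset.mem_sdiff.1 this).2 hi
      have hs0 : ∑ i ∈ s \ t, w i = 0 := by
        have h1 := Finset.sum_sdiff (f := w) hts
        rw [ht0, hsum, add_zero] at h1
        exact h1
      obtain ⟨P, hP⟩ := ih (s \ t) hlt hs0
      refine ⟨P.extend (b := t) (c := s) (by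
        rw [Finset.bot_eq_empty]; exact htn.ne_empty) Finset.sdiff_disjoint
        (by rw [Finset.sup_eq_union]; exact Finset.sdiff_union_of_subset hts), ?_⟩
      intro b hb
      rw [Finpartition.extend_parts, Finset.mem_insert] at hb
      rcases hb with rfl | hb
      · refine ⟨ht0, ?_⟩
        intro u hu hun hu0
        have h1 := hmin u (by
          rw [Finset.mem_filter, Finset.mem_powerset]
          exact ⟨hu.1.trans hts, hun, hu0⟩)
        exact absurd (Finset.card_lt_card hu) (not_lt.2 h1)
      · exact hP b hb

end SalemLen
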