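import Pool.Agent.Lib.MP_9599cf_ntL.BlkDef
import Pool.Agent.Lib.MP_9599cf_ntL.Mann2
import Pool.Agent.Lib.MP_9599cf_ntL.PartF

/-! # Each zero that is a root of unity has blocks -/

set_option autoImplicit false

namespace SalemLen

open Polynomial

/-- PROOF. `N = (F.coeff.support.card)!`. Let `w m = F.coeff m * z ^ dot m n`; the sum over the support is
`ev n z F = 0` (`ev_apply`); take the partition of `exists_finpartition`. In a block `b`, `mann` (with
`z m = z ^ dot m n`, roots of unity) gives `(z ^ dot m n) ^ (b.card)! = (z ^ dot m' n) ^ (b.card)!`, and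
`(b.card)! ∣ N` (`Nat.factorial_dvd_factorial`, `b ⊆ support`). `z ^ (N * dot (m - m') n) = 1` by
`dot_sub`, `zpow_mul`, `zpow_sub`. -/
theorem exists_blk {k : ℕ} (F : R k) : ∀ (n : E k) (z : ℂˣ), (∃ j : ℕ, 0 < j ∧ z ^ j = 1) →
    ev n z F = 0 → ∃ P : Finpartition F.coeff.support,
      Blk F P (F.coeff.support.card).factorial n z := by
  intro n z hz h0
  obtain ⟨j, hj, hzj⟩ := hz
  rw [ev_apply] at h0
  obtain ⟨P, hP⟩ := exists_finpartition F.coeff.support
    (fun m => (F.coeff m : ℂ) * ((z ^ dot m n : ℂˣ) : ℂ)) h0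
  refine ⟨P, fun b hb => (hP b hb).1, fun b hb m hm m' hm' => ?_⟩
  have hroot : ∀ m : E k, ∃ j : ℕ, 0 < j ∧ ((z ^ dot m n : ℂˣ) : ℂ) ^ j = 1 := by
    intro m
    refine ⟨j, hj, ?_⟩
    rw [← Units.val_pow_eq_pow_val, ← zpow_natCast, ← zpow_mul, mul_comm, zpow_mul,
      zpow_natCast, hzj, one_zpow, Units.val_one]
  have hm1 := mann b (fun m => F.coeff m) (fun m => ((z ^ dot m n : ℂˣ) : ℂ))
    (fun i _ => hroot i) (hP b hb).1 (hP b hb).2 m hm m' hm'
  have hdvd : b.card.factorial ∣ (F.coeff.support.card).factorial :=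
    Nat.factorial_dvd_factorial (Finset.card_le_card (P.le hb))
  obtain ⟨c, hc⟩ := hdvd
  have hu : (z ^ dot m n) ^ b.card.factorial = (z ^ dot m' n) ^ b.card.factorial := by
    apply Units.ext
    rw [Units.val_pow_eq_pow_val, Units.val_pow_eq_pow_val]
    exact hm1
  have h2 : z ^ (((F.coeff.support.card).factorial : ℤ) * dot (m - m') n) =
      ((z ^ dot m n) ^ b.card.factorial / (z ^ dot m' n) ^ b.card.factorial) ^ c := by
    rw [dot_sub, hc, div_pow, ← pow_mul, ← pow_mul, ← zpow_natCast, ← zpow_natCast, ← zpow_mul,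
      ← zpow_mul, div_eq_mul_inv, ← zpow_neg, ← zpow_add]
    congr 1
    push_cast
    ring
  rw [h2, hu, div_self', one_pow]

end SalemLen
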