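import Pool.Agent.Lib.MP_9599cf_ntL.Cnt
import Pool.Agent.Lib.MP_9599cf_ntL.BlkEx

/-! # Counting the zeros that are roots of unity -/

set_option autoImplicit false

namespace SalemLen

open Polynomial

private theorem cnt2_card_le {L : ℕ} (hL : 0 < L) (S : Finset ℂˣ) (hS : ∀ z ∈ S, z ^ L = 1) :
    S.card ≤ L := by
  classical
  have h1 : S.card = (S.image (fun z : ℂˣ => (z : ℂ))).card :=
    (Finset.card_image_of_injective S Units.val_injective).symm
  have h2 : S.image (fun z : ℂˣ => (z : ℂ)) ⊆ (nthRoots L (1 : ℂ)).toFinset := by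
    intro x hx
    obtain ⟨z, hz, rfl⟩ := Finset.mem_image.1 hx
    rw [Multiset.mem_toFinset, mem_nthRoots hL]
    have := hS z hz
    have h3 := congrArg (fun u : ℂˣ => (u : ℂ)) this
    simpa using h3
  rw [h1]
  exact (Finset.card_le_card h2).trans ((Multiset.toFinset_card_le _).trans (card_nthRoots L 1))

/-- PROOF. `N = (F.coeff.support.card)!`, `M = N * card (Finpartition support)`. Each `z ∈ Z` has a partition
(`exists_blk`), so some partition `P` occurs for at least `Z.card / card (Finpartition …)` elements of `Z`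
(`Finset.exists_le_card_fiber_of_mul_le_card_of_maps_to` or `Finset.card_eq_sum_card_fiberwise`). All these `z`
satisfy `z ^ (N * pg P n) = 1`, `N * pg P n > 0` (`pg_pos`), so there are at most `N * pg P n` of them
(`card_rootsOfUnity`-type lemma or `Polynomial.card_roots'` for `X ^ l - 1`). -/
theorem exists_big {k : ℕ} (F : R k) : ∃ M N : ℕ, 0 < N ∧ ∀ (n : E k),
    (∃ z' : ℂˣ, ev n z' F ≠ 0) → ∀ Z : Finset ℂˣ, Z.Nonempty →
    (∀ z ∈ Z, (∃ j : ℕ, 0 < j ∧ z ^ j = 1) ∧ ev n z F = 0) →
    ∃ P : Finpartition F.coeff.support, ∃ z : ℂˣ, Blk F P N n z ∧ 0 < pg P n ∧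
      Z.card ≤ M * pg P n := by
  classical
  refine ⟨Fintype.card (Finpartition F.coeff.support) * (F.coeff.support.card).factorial,
    (F.coeff.support.card).factorial, Nat.factorial_pos _, ?_⟩
  intro n hne Z hZ hz
  set N := (F.coeff.support.card).factorial with hN
  have hNpos : 0 < N := Nat.factorial_pos _
  have hex : ∀ z : ℂˣ, ∃ P : Finpartition F.coeff.support, z ∈ Z → Blk F P N n z := by
    intro z
    by_cases hzZ : z ∈ Z
    · obtain ⟨P, hP⟩ := exists_blk F n z (hz z hzZ).1 (hz z hzZ).2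
      exact ⟨P, fun _ => hP⟩
    · obtain ⟨z0, hz0⟩ := hZ
      obtain ⟨P, -⟩ := exists_blk F n z0 (hz z0 hz0).1 (hz z0 hz0).2
      exact ⟨P, fun h => absurd h hzZ⟩
  choose f hf using hex
  obtain ⟨P, hPmem, hPmax⟩ := Finset.exists_max_image (Z.image f)
    (fun P => (Z.filter (fun z => f z = P)).card) (hZ.image f)
  obtain ⟨z, hzZ, hfz⟩ := Finset.mem_image.1 hPmem
  have hblk : Blk F P N n z := hfz ▸ hf z hzZ
  have hpos : 0 < pg P n := hblk.pg_pos hne
  refine ⟨P, z, hblk, hpos, ?_⟩
  have hfib : (Z.filter (fun z => f z = P)).card ≤ N * pg P n := by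
    refine cnt2_card_le (Nat.mul_pos hNpos hpos) _ fun w hw => ?_
    rw [Finset.mem_filter] at hw
    have : Blk F P N n w := hw.2 ▸ hf w hw.1
    exact this.pow_eq_one
  calc Z.card = ∑ Q ∈ Z.image f, (Z.filter (fun z => f z = Q)).card :=
        Finset.card_eq_sum_card_image f Z
    _ ≤ ∑ Q ∈ Z.image f, (N * pg P n) := Finset.sum_le_sum fun Q hQ => (hPmax Q hQ).trans hfib
    _ = (Z.image f).card * (N * pg P n) := by rw [Finset.sum_const, smul_eq_mul]
    _ ≤ Fintype.card (Finpartition F.coeff.support) * (N * pg P n) :=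
        Nat.mul_le_mul_right _ (Finset.card_le_univ _)
    _ = Fintype.card (Finpartition F.coeff.support) * N * pg P n := by rw [mul_assoc]

end SalemLen
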