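import Pool.Agent.Lib.MP_9599cf_ntL.Cnt

/-! # Constancy along the ultrafilter -/

set_option autoImplicit false

namespace SalemLen

open Polynomial

/-- `pg` divides the differences. -/
private theorem const_pg_dvd {k : ℕ} {s : Finset (E k)} (P : Finpartition s) (n : E k)
    {q : E k × E k} (hq : q ∈ pairs P) : (pg P n : ℤ) ∣ dot (q.1 - q.2) n := by
  have h1 : pg P n ∣ (dot (q.1 - q.2) n).natAbs := Finset.gcd_dvd hq
  exact Int.natCast_dvd.2 h1

private theorem const_dot_sum {k : ℕ} {ι : Type*} (s : Finset ι) (f : ι → E k) (n : E k) :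
    dot (∑ i ∈ s, f i) n = ∑ i ∈ s, dot (f i) n := by
  classical
  induction s using Finset.induction_on with
  | empty => rw [Finset.sum_empty, Finset.sum_empty, dot_zero]
  | insert i s hi ih => rw [Finset.sum_insert hi, Finset.sum_insert hi, dot_add, ih]

/-- The quotients of the differences by `pg` have an integer combination equal to one. -/
private theorem const_bezout {k : ℕ} {s : Finset (E k)} (P : Finpartition s) (n : E k)
    (hpos : 0 < pg P n) (c : pairs P → ℤ)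
    (hc : ∀ q : pairs P, dot (q.1.1 - q.1.2) n = c q * pg P n) :
    ∃ u : pairs P → ℤ, ∑ q, u q * c q = 1 := by
  obtain ⟨d, hd⟩ := IsPrincipalIdealRing.principal (Ideal.span (Set.range c))
  have h1 : ∀ q, d ∣ c q := by
    intro q
    have h2 : c q ∈ Ideal.span (Set.range c) := Ideal.subset_span ⟨q, rfl⟩
    rw [hd] at h2
    exact Ideal.mem_span_singleton.1 h2
  have h3 : d.natAbs * pg P n ∣ pg P n := by
    refine Finset.dvd_gcd fun q hq => ?_
    have h4 := hc ⟨q, hq⟩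
    dsimp only at h4
    rw [h4, Int.natAbs_mul, Int.natAbs_natCast]
    exact Nat.mul_dvd_mul (Int.natAbs_dvd_natAbs.2 (h1 ⟨q, hq⟩)) dvd_rfl
  have h5 : d.natAbs = 1 := by
    have h6 := Nat.le_of_dvd hpos h3
    have h7 : d.natAbs ≠ 0 := by
      intro h0
      rw [h0, zero_mul] at h3
      exact hpos.ne' (Nat.eq_zero_of_zero_dvd h3)
    have h8 : d.natAbs ≤ 1 := by
      by_contra h9
      push Not at h9
      nlinarith
    omega
  have h6 : (1 : ℤ) ∈ Ideal.span (Set.range c) := by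
    rw [hd]
    refine Ideal.mem_span_singleton.2 ?_
    exact (Int.isUnit_iff_natAbs_eq.2 h5).dvd
  rw [Ideal.mem_span_range_iff_exists_fun] at h6
  exact h6

/-- PROOF. The partition is constant for almost all `τ` (finitely many: `Ultrafilter`, `Finite` codomain).
For `q ∈ pairs P` the integer `dot (q.1 - q.2) (n τ)` is divisible by `pg P (n τ)`, the quotient is in `[-M, M]`,
so it is a constant `c q.1 q.2` for almost all `τ`. For one such `τ` the gcd of the `dot (q.1 - q.2) (n τ)` is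
`pg`, so the gcd of the `c q.1 q.2` is one: integers `u q` with `∑ u q * c q.1 q.2 = 1`; let
`a = ∑ u q • (q.1 - q.2)`, then `dot a (n τ) = pg P (n τ) > 0` for almost all `τ`. The number
`ω τ = z τ ^ pg P (n τ)` satisfies `ω ^ N = 1` (`Blk.pow_eq_one`), so it is a constant `ω` for almost all `τ`
(finitely many `N`-th roots of unity), of order `N1 = orderOf ω`. For `m`, `m'` in one block
`z ^ dot m n = z ^ dot m' n * ω ^ c m m'`, so the block sum is `z ^ dot m' n * ∑ F.coeff m * ω ^ c m m'`. -/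
theorem exists_const {k : ℕ} (F : R k) (U : Ultrafilter ℕ) (n : ℕ → E k) {N M : ℕ} (hN : 0 < N)
    (h : ∀ᶠ τ in (U : Filter ℕ), ∃ P : Finpartition F.coeff.support, ∃ z : ℂˣ,
      Blk F P N (n τ) z ∧ 0 < pg P (n τ) ∧ ∀ m ∈ F.coeff.support, ∀ m' ∈ F.coeff.support,
        |dot (m - m') (n τ)| ≤ M * pg P (n τ)) :
    ∃ (P : Finpartition F.coeff.support) (a : E k) (c : E k → E k → ℤ) (N1 : ℕ) (ω : ℂˣ),
      0 < N1 ∧ IsPrimitiveRoot (ω : ℂ) N1 ∧ (∀ᶠ τ in (U : Filter ℕ), 0 < dot a (n τ)) ∧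
      (∀ b ∈ P.parts, ∀ m ∈ b, ∀ m' ∈ b, ∀ᶠ τ in (U : Filter ℕ),
        dot (m - m') (n τ) = c m m' * dot a (n τ)) ∧
      (∀ b ∈ P.parts, ∀ m' ∈ b, ∑ m ∈ b, (F.coeff m : ℂ) * ((ω ^ c m m' : ℂˣ) : ℂ) = 0) := by
  classical
  have : NeZero N := ⟨hN.ne'⟩
  -- a constant partition
  rw [Ultrafilter.eventually_exists_iff] at h
  obtain ⟨P, h⟩ := h
  -- constant quotients and a constant root of unity
  have h2 : ∀ᶠ τ in (U : Filter ℕ), ∃ x : (pairs P → Set.Icc (-(M : ℤ)) M) × rootsOfUnity N ℂ,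
      ∃ z : ℂˣ, Blk F P N (n τ) z ∧ 0 < pg P (n τ) ∧
        (∀ q : pairs P, dot (q.1.1 - q.1.2) (n τ) = (x.1 q : ℤ) * pg P (n τ)) ∧
        z ^ pg P (n τ) = (x.2 : ℂˣ) := by
    filter_upwards [h] with τ hτ
    obtain ⟨z, hz, hpos, hM⟩ := hτ
    have hc : ∀ q : pairs P, ∃ c : Set.Icc (-(M : ℤ)) M,
        dot (q.1.1 - q.1.2) (n τ) = (c : ℤ) * pg P (n τ) := by
      intro q
      have h3 := const_pg_dvd P (n τ) q.2
      obtain ⟨c, hc⟩ := h3
      obtain ⟨b, hb, hb1, hb2⟩ := (mem_pairs P q.1).1 q.2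
      have h4 := hM q.1.1 (P.le hb hb1) q.1.2 (P.le hb hb2)
      rw [hc, abs_mul, Nat.abs_cast, mul_comm] at h4
      have h5 : |c| ≤ M := le_of_mul_le_mul_right h4 (by exact_mod_cast hpos)
      exact ⟨⟨c, abs_le.1 h5⟩, by rw [hc, mul_comm]⟩
    choose c hc using hc
    refine ⟨(c, ⟨z ^ pg P (n τ), ?_⟩), z, hz, hpos, hc, rfl⟩
    rw [mem_rootsOfUnity, ← pow_mul, mul_comm]
    exact hz.pow_eq_one
  rw [Ultrafilter.eventually_exists_iff] at h2
  obtain ⟨⟨c, ω⟩, h2⟩ := h2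
  dsimp only at h2
  obtain ⟨τ, z, hz, hpos, hc, hω⟩ := h2.exists
  -- Bezout
  obtain ⟨u, hu⟩ := const_bezout P (n τ) hpos (fun q => (c q : ℤ)) hc
  set a : E k := ∑ q : pairs P, u q • (q.1.1 - q.1.2) with ha
  have hdot : ∀ᶠ τ in (U : Filter ℕ), dot a (n τ) = pg P (n τ) ∧ 0 < pg P (n τ) ∧
      ∀ q : pairs P, dot (q.1.1 - q.1.2) (n τ) = (c q : ℤ) * pg P (n τ) := by
    filter_upwards [h2] with τ' hτ'
    obtain ⟨z', -, hpos', hc', -⟩ := hτ'
    refine ⟨?_, hpos', hc'⟩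
    rw [ha, const_dot_sum]
    calc ∑ q : pairs P, dot (u q • (q.1.1 - q.1.2)) (n τ')
        = ∑ q : pairs P, (u q * (c q : ℤ)) * pg P (n τ') := by
          refine Finset.sum_congr rfl fun q _ => ?_
          rw [dot_smul, hc' q, mul_assoc]
      _ = (∑ q : pairs P, u q * (c q : ℤ)) * pg P (n τ') := by rw [Finset.sum_mul]
      _ = pg P (n τ') := by rw [hu, one_mul]
  refine ⟨P, a, fun m m' => if hq : (m, m') ∈ pairs P then (c ⟨(m, m'), hq⟩ : ℤ) else 0,
    orderOf (ω : ℂˣ), ω, ?_, ?_, ?_, ?_, ?_⟩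
  · rw [orderOf_pos_iff, isOfFinOrder_iff_pow_eq_one]
    exact ⟨N, hN, (mem_rootsOfUnity N _).1 ω.2⟩
  · exact IsPrimitiveRoot.coe_units_iff.2 (IsPrimitiveRoot.orderOf _)
  · filter_upwards [hdot] with τ' hτ'
    rw [hτ'.1]
    exact_mod_cast hτ'.2.1
  · intro b hb m hm m' hm'
    have hq : (m, m') ∈ pairs P := (mem_pairs P _).2 ⟨b, hb, hm, hm'⟩
    filter_upwards [hdot] with τ' hτ'
    rw [dif_pos hq, hτ'.1]
    exact hτ'.2.2 ⟨(m, m'), hq⟩
  · intro b hb m' hm'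
    have h3 := hz.1 b hb
    have h4 : ∑ m ∈ b, (F.coeff m : ℂ) * ((z ^ dot m (n τ) : ℂˣ) : ℂ) =
        ((z ^ dot m' (n τ) : ℂˣ) : ℂ) * ∑ m ∈ b, (F.coeff m : ℂ) *
          ((((ω : ℂˣ) ^ (if hq : (m, m') ∈ pairs P then (c ⟨(m, m'), hq⟩ : ℤ) else 0) : ℂˣ)) : ℂ)
            := by
      rw [Finset.mul_sum]
      refine Finset.sum_congr rfl fun m hm => ?_
      have hq : (m, m') ∈ pairs P := (mem_pairs P _).2 ⟨b, hb, hm, hm'⟩
      have h5 : z ^ dot m (n τ) = z ^ dot m' (n τ) * (ω : ℂˣ) ^ (c ⟨(m, m'), hq⟩ : ℤ) := by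
        rw [← hω, ← zpow_natCast, ← zpow_mul, ← zpow_add]
        congr 1
        have h6 := hc ⟨(m, m'), hq⟩
        rw [dot_sub] at h6
        linarith
      rw [dif_pos hq, h5, Units.val_mul]
      ring
    rw [h4] at h3
    exact (mul_eq_zero.1 h3).resolve_left (Units.ne_zero _)

end SalemLen
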