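import Pool.Agent.Lib.MP_9599cf_ntL.Defs

/-! # The polynomial of F at n -/

set_option autoImplicit false

namespace SalemLen

open Polynomial

/-- PROOF. Let `e` be minus the minimum of `dot m n` over the support (nonempty, as `F ≠ 0`), and
`P = ∑ m ∈ support, monomial (dot m n + e).toNat (F.coeff m)`: different monomials by injectivity, so `P` has the
coefficients of `F`; `P.coeff 0` is the coefficient of the minimal element, not zero; the degree is the maximum of
`dot m n + e`, which is the maximal difference. The value at `z` is `z ^ e * ev n z F` (`ev_apply`). -/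
theorem exists_poly {k : ℕ} (F : R k) (hF : F ≠ 0) (n : E k)
    (hinj : Set.InjOn (fun m => dot m n) F.coeff.support) :
    ∃ (P : ℤ[X]) (e : ℤ), P.coeff 0 ≠ 0 ∧
      len P = ∑ m ∈ F.coeff.support, (F.coeff m).natAbs ∧
      P.support.card = F.coeff.support.card ∧
      (∀ m ∈ F.coeff.support, ∀ m' ∈ F.coeff.support, |dot (m - m') n| ≤ P.natDegree) ∧
      ∀ z : ℂˣ, (cx P).eval (z : ℂ) = ((z ^ e : ℂˣ) : ℂ) * ev n z F := by
  classical
  have hne : F.coeff.support.Nonempty := by
    rw [Finset.nonempty_iff_ne_empty]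
    intro h
    apply hF
    have h1 : F.coeff = 0 := Finsupp.support_eq_empty.1 h
    ext m
    rw [h1]
    rfl
  obtain ⟨m0, hm0, hmin⟩ := Finset.exists_min_image F.coeff.support (fun m => dot m n) hne
  set g : E k → ℕ := fun m => (dot m n - dot m0 n).toNat with hg
  have hgc : ∀ m ∈ F.coeff.support, ((g m : ℕ) : ℤ) = dot m n - dot m0 n := by
    intro m hm
    exact Int.toNat_of_nonneg (sub_nonneg.2 (hmin m hm))
  have hgi : Set.InjOn g F.coeff.support := by
    intro a ha b hb hab
    apply hinj ha hb
    have h1 := hgc a ha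
    have h2 := hgc b hb
    rw [hab, h2] at h1
    change dot a n = dot b n
    linarith
  set P : ℤ[X] := ∑ m ∈ F.coeff.support, monomial (g m) (F.coeff m) with hP
  have hcoeff : ∀ j, P.coeff j = ∑ m ∈ F.coeff.support, if g m = j then F.coeff m else 0 := by
    intro j
    rw [hP, finsetSum_coeff]
    exact Finset.sum_congr rfl fun m _ => coeff_monomial
  have hc1 : ∀ m ∈ F.coeff.support, P.coeff (g m) = F.coeff m := by
    intro m hm
    rw [hcoeff, Finset.sum_eq_single m]
    · rw [if_pos rfl]
    · intro b hb hbm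
      rw [if_neg]
      intro h
      exact hbm (hgi hb hm h)
    · intro h
      exact absurd hm h
  have hsupp : P.support = F.coeff.support.image g := by
    ext j
    rw [mem_support_iff, Finset.mem_image]
    constructor
    · intro h
      rw [hcoeff] at h
      obtain ⟨m, hm, hm2⟩ := Finset.exists_ne_zero_of_sum_ne_zero h
      refine ⟨m, hm, ?_⟩
      by_contra h3
      exact hm2 (if_neg h3)
    · rintro ⟨m, hm, rfl⟩
      rw [hc1 m hm]
      exact Finsupp.mem_support_iff.1 hm
  refine ⟨P, -dot m0 n, ?_, ?_, ?_, ?_, ?_⟩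
  · have h0 : g m0 = 0 := by
      rw [hg]
      simp
    rw [← h0, hc1 m0 hm0]
    exact Finsupp.mem_support_iff.1 hm0
  · rw [len, hsupp, Finset.sum_image hgi]
    exact Finset.sum_congr rfl fun m hm => by rw [hc1 m hm]
  · rw [hsupp, Finset.card_image_of_injOn hgi]
  · intro m hm m' hm'
    have hd : ∀ a ∈ F.coeff.support, ((g a : ℕ) : ℤ) ≤ P.natDegree := by
      intro a ha
      have h1 : P.coeff (g a) ≠ 0 := by
        rw [hc1 a ha]
        exact Finsupp.mem_support_iff.1 ha
      exact_mod_cast le_natDegree_of_ne_zero h1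
    have h1 := hd m hm
    have h2 := hd m' hm'
    have h3 := hmin m hm
    have h4 := hmin m' hm'
    rw [hgc m hm] at h1
    rw [hgc m' hm'] at h2
    rw [dot_sub, abs_le]
    constructor <;> linarith
  · intro z
    rw [ev_apply, Finset.mul_sum, cx, hP, Polynomial.map_sum, eval_finsetSum]
    refine Finset.sum_congr rfl fun m hm => ?_
    rw [map_monomial, eval_monomial, eq_intCast]
    have h1 : (z : ℂ) ^ (g m) = ((z ^ (-dot m0 n) : ℂˣ) : ℂ) * ((z ^ dot m n : ℂˣ) : ℂ) := by
      rw [← Units.val_mul, ← zpow_add, ← Units.val_pow_eq_pow_val, ← zpow_natCast, hgc m hm]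
      congr 2
      ring
    rw [h1]
    ring

end SalemLen
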