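import Pool.Agent.Lib.MP_9599cf_ntL.Defs

/-! # Multiplicities of the roots of polynomials with few monomials -/

set_option autoImplicit false

namespace SalemLen

open Polynomial

private theorem Mult_card_derivative {P : ℂ[X]} (h0 : P.coeff 0 ≠ 0) :
    (derivative P).support.card + 1 ≤ P.support.card := by
  have h1 : insert 0 ((derivative P).support.image (fun i => i + 1)) ⊆ P.support := by
    intro i hi
    rw [Finset.mem_insert, Finset.mem_image] at hi
    rcases hi with rfl | ⟨j, hj, rfl⟩
    · exact mem_support_iff.mpr h0
    · rw [mem_support_iff, coeff_derivative] at hj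
      rw [mem_support_iff]
      intro h
      apply hj
      rw [h, zero_mul]
  have h2 := Finset.card_le_card h1
  rw [Finset.card_insert_of_notMem, Finset.card_image_of_injective] at h2
  · exact h2
  · intro a b hab
    exact Nat.succ_injective hab
  · intro h
    rw [Finset.mem_image] at h
    obtain ⟨j, _, hj⟩ := h
    omega

private theorem Mult_card_mul_X (Q : ℂ[X]) :
    Q.support.card ≤ (Q * X).support.card := by
  have h1 : Q.support.image (fun i => i + 1) ⊆ (Q * X).support := by
    intro i hi
    rw [Finset.mem_image] at hi
    obtain ⟨j, hj, rfl⟩ := hi
    rw [mem_support_iff] at hj ⊢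
    rw [coeff_mul_X]
    exact hj
  have h2 := Finset.card_le_card h1
  rw [Finset.card_image_of_injective] at h2
  · exact h2
  · intro a b hab
    exact Nat.succ_injective hab

private theorem Mult_aux {z : ℂ} (hz : z ≠ 0) (n : ℕ) : ∀ P : ℂ[X], P ≠ 0 → P.natDegree < n →
    P.rootMultiplicity z < P.support.card := by
  induction n with
  | zero => intro P _ h; omega
  | succ n ih =>
    intro P hP hn
    by_cases h0 : P.coeff 0 = 0
    · obtain ⟨Q, hQ⟩ : ∃ Q : ℂ[X], P = Q * X := by
        obtain ⟨Q, hQ⟩ := X_dvd_iff.mpr h0
        exact ⟨Q, by rw [hQ, mul_comm]⟩
      have hQ0 : Q ≠ 0 := by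
        rintro rfl
        exact hP (by rw [hQ, zero_mul])
      have h1 : P.natDegree = Q.natDegree + 1 := by
        rw [hQ, natDegree_mul_X hQ0]
      have h2 := ih Q hQ0 (by omega)
      have h3 : P.rootMultiplicity z = Q.rootMultiplicity z := by
        rw [hQ, rootMultiplicity_mul (mul_ne_zero hQ0 X_ne_zero)]
        have h4 : rootMultiplicity z (X : ℂ[X]) = 0 := by
          rw [rootMultiplicity_eq_zero_iff]
          intro h
          rw [IsRoot.def, eval_X] at h
          exact absurd h hz
        rw [h4, add_zero]
      rw [h3]
      refine lt_of_lt_of_le h2 ?_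
      rw [hQ]
      exact Mult_card_mul_X Q
    · by_cases hd : P.natDegree = 0
      · have h1 := eq_C_of_natDegree_eq_zero hd
        have h2 : P.rootMultiplicity z = 0 := by
          rw [h1, rootMultiplicity_C]
        rw [h2, Finset.card_pos]
        exact ⟨0, mem_support_iff.mpr h0⟩
      · have h1 : derivative P ≠ 0 := by
          intro h
          exact hd (derivative_eq_zero.mp h)
        have h2 : (derivative P).natDegree < P.natDegree := natDegree_derivative_lt hd
        have h3 := ih (derivative P) h1 (by omega)
        have h4 := Mult_card_derivative h0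
        have h5 : P.rootMultiplicity z - 1 ≤ (derivative P).rootMultiplicity z :=
          rootMultiplicity_sub_one_le_derivative_rootMultiplicity_of_ne_zero P z h1
        omega

/-- PROOF. Induction on the number of monomials (for all polynomials). Dividing by a power of `X` (no change of the
multiplicity at `z ≠ 0` and of the number of monomials) the constant term is not zero. One monomial: `P` is a
nonzero constant, multiplicity `0`. Otherwise the derivative has one monomial less (characteristic zero; the
constant term disappears), is not zero, and multiplicity at least the multiplicity of `P` minus one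
(`Polynomial.rootMultiplicity_sub_one_le_derivative_rootMultiplicity` or
`Polynomial.derivative_rootMultiplicity_of_root`). -/
theorem rootMultiplicity_lt {P : ℂ[X]} (hP : P ≠ 0) {z : ℂ} (hz : z ≠ 0) :
    P.rootMultiplicity z < P.support.card :=
  Mult_aux hz (P.natDegree + 1) P hP (Nat.lt_succ_self _)

end SalemLen
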