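import Pool.Agent.Lib.MP_9599cf_ntL.Dob
import Pool.Agent.Lib.MP_9599cf_ntL.Conv
import Pool.Agent.Lib.MP_9599cf_ntL.Mult

/-! # Many zeros are roots of unity -/

set_option autoImplicit false

namespace SalemLen

open Polynomial

private theorem Dich_eval (P : ℤ[X]) (z : ℂ) : (cx P).eval z = aeval z P := by
  rw [cx, eval_map, aeval_def, algebraMap_int_eq]

private theorem Dich_roots {t : ℝ} (ht : IsSalem t) (z : ℂ)
    (hz : (cx (minpoly ℤ t)).eval z = 0) (hzt : z ≠ t) : ‖z‖ ≤ 1 := by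
  refine ht.2.2.1 z ?_ hzt
  rw [minpoly.isIntegrallyClosed_eq_field_fractions' ℚ ht.1, aeval_map_algebraMap, ← Dich_eval]
  exact hz

private theorem Dich_delta (N : ℕ) (hN : 0 < N) : ∃ δ : ℝ, 0 < δ ∧ (1 + δ) ^ N ≤ 2 := by
  have hN' : (N : ℝ) ≠ 0 := by exact_mod_cast hN.ne'
  refine ⟨(2 : ℝ) ^ ((N : ℝ)⁻¹) - 1, ?_, ?_⟩
  · have : (1 : ℝ) < (2 : ℝ) ^ ((N : ℝ)⁻¹) := by
      apply Real.one_lt_rpow (by norm_num)
      positivity
    linarith
  · rw [add_sub_cancel, Real.rpow_inv_natCast_pow (by norm_num) hN.ne']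

/-- PROOF. If `F = 0` there is nothing to prove (`Good.ne` is false); `K = F.coeff.support.card > 0`,
`L = ∑ |F.coeff m|`, a prime `p ≥ 2 L + 1`, `δ > 0` with `(1 + δ) ^ (2 K p) ≤ 2`, `M = 2 K`. Let `P`, `e` be as in
`exists_poly`, `D = P.natDegree`; the roots of `P` are not zero, they are the zeros of `ev n z F`, so they are roots
of `S = minpoly ℤ t` or roots of unity. Let `Z` be the finite set of the roots of unity among them. If
`D ≤ M * Z.card` and `Z` is not empty we are done (`exists_poly`, fourth statement). Otherwise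
`D ≥ 2 K Z.card` (also if `Z` is empty), while `D ≤ K (S.natDegree + Z.card)` (number of the roots counted with
multiplicity `≤ K`, `rootMultiplicity_lt`), so `D ≤ 2 K S.natDegree`. `t` is a root of `P` (`Good.root`), so `S ∣ P`
(`minpoly.isIntegrallyClosed_dvd`), and `P (t ^ p) ≠ 0`: `t ^ p > t` is not a conjugate of `t` (these have absolute
value `≤ t`) and not a root of unity. By `dobrowolski` with `d = S.natDegree ≥ 1`:
`p ^ d ≤ L ^ d t ^ (p D) ≤ (L t ^ (2 K p)) ^ d`, so `p ≤ L t ^ (2 K p) < L (1 + δ) ^ (2 K p) ≤ 2 L < p`. -/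
theorem dichotomy {k : ℕ} (F : R k) : ∃ δ : ℝ, 0 < δ ∧ ∃ M : ℕ, ∀ (n : E k) (t : ℝ),
    IsSalem t → Good F n t → Set.InjOn (fun m => dot m n) F.coeff.support → t < 1 + δ →
    ∃ Z : Finset ℂˣ, Z.Nonempty ∧ (∀ z ∈ Z, (∃ j : ℕ, 0 < j ∧ z ^ j = 1) ∧ ev n z F = 0) ∧
      ∀ m ∈ F.coeff.support, ∀ m' ∈ F.coeff.support, |dot (m - m') n| ≤ M * Z.card := by
  classical
  by_cases hF : F = 0
  · refine ⟨1, one_pos, 0, fun n t _ hG => ?_⟩
    obtain ⟨z, hz⟩ := hG.ne
    rw [hF, map_zero] at hz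
    exact absurd rfl hz
  set K : ℕ := F.coeff.support.card with hK
  set L : ℕ := ∑ m ∈ F.coeff.support, (F.coeff m).natAbs with hL
  obtain ⟨p, hpL, hp⟩ := Nat.exists_infinite_primes (2 * L + 1)
  have hK0 : 0 < K := by
    rw [hK, Finset.card_pos, Finsupp.support_nonempty_iff]
    intro h
    apply hF
    exact AddMonoidAlgebra.coeff_injective (by rw [h]; rfl)
  obtain ⟨δ, hδ, hδ2⟩ := Dich_delta (2 * K * p) (by
    have := hp.pos
    positivity)
  refine ⟨δ, hδ, 2 * K, fun n t ht hG hinj hlt => ?_⟩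
  obtain ⟨P, e, hP0, hlen, hcard, hdeg, hev⟩ := exists_poly F hF n hinj
  have hinjC : Function.Injective (Int.castRingHom ℂ) := Int.cast_injective
  have hPne : P ≠ 0 := by
    intro h
    rw [h, coeff_zero] at hP0
    exact hP0 rfl
  have hcne : cx P ≠ 0 := (Polynomial.map_ne_zero_iff hinjC).2 hPne
  have hcdeg : (cx P).natDegree = P.natDegree := natDegree_map_eq_of_injective hinjC P
  have hcsup : (cx P).support.card = K := by
    rw [cx, support_map_of_injective P hinjC, hcard]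
  -- the roots
  set Rt : Finset ℂ := (cx P).roots.toFinset with hRt
  have hroot : ∀ z ∈ Rt, (cx P).eval z = 0 := by
    intro z hz
    rw [hRt, Multiset.mem_toFinset, mem_roots hcne] at hz
    exact hz
  have hz0 : ∀ z ∈ Rt, z ≠ 0 := by
    intro z hz h0
    have h1 := hroot z hz
    rw [h0, ← coeff_zero_eq_eval_zero, cx, coeff_map] at h1
    exact hP0 (hinjC (by rw [h1, map_zero]))
  have hevz : ∀ z : ℂˣ, (cx P).eval (z : ℂ) = 0 → ev n z F = 0 := by
    intro z hz
    rw [hev z] at hz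
    exact (mul_eq_zero.1 hz).resolve_left (Units.ne_zero _)
  set U : Finset ℂ := Rt.filter (fun z => ∃ j : ℕ, 0 < j ∧ z ^ j = 1) with hU
  have hU0 : ∀ z : {x // x ∈ U}, z.1 ≠ 0 := fun z => hz0 z.1 (Finset.mem_filter.1 z.2).1
  set Z : Finset ℂˣ := U.attach.image
    (fun z : {x // x ∈ U} => Units.mk0 z.1 (hU0 z)) with hZ
  have hZcard : Z.card = U.card := by
    rw [hZ, Finset.card_image_of_injective, Finset.card_attach]
    intro z w hzw
    have := congrArg Units.val hzw
    exact Subtype.ext this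
  have hZprop : ∀ z ∈ Z, (∃ j : ℕ, 0 < j ∧ z ^ j = 1) ∧ ev n z F = 0 := by
    intro z hz
    rw [hZ, Finset.mem_image] at hz
    obtain ⟨w, _, rfl⟩ := hz
    obtain ⟨h1, j, hj, hj1⟩ := Finset.mem_filter.1 w.2
    refine ⟨⟨j, hj, ?_⟩, hevz _ (hroot _ h1)⟩
    apply Units.ext
    rw [Units.val_pow_eq_pow_val, Units.val_mk0, hj1, Units.val_one]
  by_cases hA : Z.Nonempty ∧ P.natDegree ≤ 2 * K * Z.card
  · refine ⟨Z, hA.1, hZprop, fun m hm m' hm' => (hdeg m hm m' hm').trans ?_⟩
    exact_mod_cast hA.2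
  exfalso
  set S : ℤ[X] := minpoly ℤ t with hS
  have hlow : 2 * K * Z.card ≤ P.natDegree := by
    by_cases hne : Z.Nonempty
    · have : ¬ P.natDegree ≤ 2 * K * Z.card := fun h => hA ⟨hne, h⟩
      omega
    · rw [Finset.not_nonempty_iff_eq_empty.1 hne, Finset.card_empty, Nat.mul_zero]
      exact Nat.zero_le _
  have hSm : S.Monic := minpoly.monic ht.1
  have hScne : cx S ≠ 0 := (Polynomial.map_ne_zero_iff hinjC).2 hSm.ne_zero
  have hsub : Rt ⊆ (cx S).roots.toFinset ∪ U := by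
    intro z hz
    rw [Finset.mem_union]
    rcases hG.zeros (Units.mk0 z (hz0 z hz)) (hevz _ (hroot z hz)) with h | ⟨j, hj, hj1⟩
    · left
      rw [Multiset.mem_toFinset, mem_roots hScne]
      exact h
    · right
      refine Finset.mem_filter.2 ⟨hz, j, hj, ?_⟩
      have := congrArg Units.val hj1
      rwa [Units.val_pow_eq_pow_val, Units.val_mk0, Units.val_one] at this
  have hRcard : Rt.card ≤ S.natDegree + Z.card := by
    have h1 := (Finset.card_le_card hsub).trans (Finset.card_union_le _ _)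
    have h2 : (cx S).roots.toFinset.card ≤ S.natDegree := by
      refine (Multiset.toFinset_card_le _).trans ((card_roots' _).trans ?_)
      rw [cx, natDegree_map_eq_of_injective hinjC]
    rw [hZcard]
    omega
  have hD : P.natDegree ≤ Rt.card * K := by
    have h1 : Multiset.card (cx P).roots = (cx P).natDegree :=
      (splits_iff_card_roots.1 (IsAlgClosed.splits _))
    rw [← hcdeg, ← h1, ← Multiset.toFinset_sum_count_eq, ← smul_eq_mul]
    refine Finset.sum_le_card_nsmul _ _ _ fun z hz => ?_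
    rw [count_roots]
    have h2 := rootMultiplicity_lt hcne (hz0 z hz)
    rw [hcsup] at h2
    exact h2.le
  have hD2 : P.natDegree ≤ 2 * K * S.natDegree := by
    have h1 : Rt.card * K ≤ (S.natDegree + Z.card) * K := Nat.mul_le_mul_right _ hRcard
    nlinarith
  have ht1 : 1 < t := ht.2.1
  have ht0 : (t : ℂ) ≠ 0 := by
    have : t ≠ 0 := by linarith
    exact_mod_cast this
  have hdvd : S ∣ P := by
    apply minpoly.isIntegrallyClosed_dvd ht.1
    have h1 : (cx P).eval (t : ℂ) = 0 := by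
      have h2 := hev (Units.mk0 (t : ℂ) ht0)
      rw [hG.root (Units.mk0 (t : ℂ) ht0) rfl, mul_zero] at h2
      exact h2
    rw [Dich_eval] at h1
    have h3 : aeval ((algebraMap ℝ ℂ) t) P = algebraMap ℝ ℂ (aeval t P) :=
      aeval_algebraMap_apply ℂ t P
    have h4 : algebraMap ℝ ℂ (aeval t P) = 0 := by
      rw [← h3]
      exact h1
    exact (algebraMap ℝ ℂ).injective (by rw [h4, map_zero])
  have htp : t < t ^ p := by
    have := pow_lt_pow_right₀ ht1 hp.one_lt
    rwa [pow_one] at this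
  have hnorm : ‖(t : ℂ) ^ p‖ = t ^ p := by
    rw [norm_pow, Complex.norm_real, Real.norm_of_nonneg (by linarith)]
  have hne : (cx P).eval ((t : ℂ) ^ p) ≠ 0 := by
    intro h
    have hp0 : (t : ℂ) ^ p ≠ 0 := pow_ne_zero _ ht0
    rcases hG.zeros (Units.mk0 ((t : ℂ) ^ p) hp0) (hevz _ h) with h1 | ⟨j, hj, hj1⟩
    · by_cases h2 : (t : ℂ) ^ p = t
      · rw [h2, Complex.norm_real, Real.norm_of_nonneg (by linarith)] at hnorm
        linarith
      · have h3 := Dich_roots ht _ h1 h2
        rw [Units.val_mk0, hnorm] at h3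
        linarith
    · have h1 := congrArg Units.val hj1
      rw [Units.val_pow_eq_pow_val, Units.val_mk0, Units.val_one] at h1
      have h2 := congrArg norm h1
      rw [norm_pow, hnorm, norm_one] at h2
      have h3 : 1 < (t ^ p) ^ j := one_lt_pow₀ (by linarith) hj.ne'
      linarith
  have hdob := dobrowolski ht.1 ht1 (fun z hz hzt => Dich_roots ht z hz hzt) hdvd hp hne
  have hd0 : S.natDegree ≠ 0 := (minpoly.natDegree_pos ht.1).ne'
  have h1 : t ^ (p * P.natDegree) ≤ (t ^ (2 * K * p)) ^ S.natDegree := by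
    rw [← pow_mul]
    apply pow_le_pow_right₀ ht1.le
    calc p * P.natDegree ≤ p * (2 * K * S.natDegree) := Nat.mul_le_mul_left _ hD2
      _ = 2 * K * p * S.natDegree := by ring
  have h2 : (p : ℝ) ^ S.natDegree ≤ ((L : ℝ) * t ^ (2 * K * p)) ^ S.natDegree := by
    rw [mul_pow]
    refine hdob.trans ?_
    rw [hlen]
    exact mul_le_mul_of_nonneg_left h1 (by positivity)
  have h3 : (p : ℝ) ≤ (L : ℝ) * t ^ (2 * K * p) := by
    refine (pow_le_pow_iff_left₀ (by positivity) ?_ hd0).1 h2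
    have : 0 < t := by linarith
    positivity
  have h4 : t ^ (2 * K * p) ≤ 2 :=
    (pow_le_pow_left₀ (by linarith) hlt.le _).trans hδ2
  have h5 : (p : ℝ) ≤ (L : ℝ) * 2 :=
    h3.trans (mul_le_mul_of_nonneg_left h4 (Nat.cast_nonneg _))
  have h6 : p ≤ L * 2 := by exact_mod_cast h5
  omega

end SalemLen
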