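import Pool.Agent.Lib.MP_9599cf_ntL.Defs

/-! # Kronecker -/

set_option autoImplicit false

namespace SalemLen

open Polynomial

/-- PROOF. Kronecker: `P` is a monic integer polynomial with all roots on the unit circle, `z` a root. Let `S` be the
minimal polynomial of `z`, `K = ℚ⟮z⟯` a number field; all conjugates of `z` are roots of `P`, so
`NumberField.Embeddings.pow_eq_one_of_norm_eq_one` applies (`z` is integral over `ℤ`). Or directly: the polynomials
`∏ (X - z_i ^ l)` have integer coefficients bounded by binomial coefficients, finitely many, pigeonhole. -/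
theorem kronecker {P : ℤ[X]} (hP : P.Monic) (h : ∀ z : ℂ, (cx P).eval z = 0 → ‖z‖ = 1) :
    ∀ z : ℂ, (cx P).eval z = 0 → ∃ j : ℕ, 0 < j ∧ z ^ j = 1 := by
  intro z hz
  have hz' : Polynomial.eval₂ (Int.castRingHom ℂ) z P = 0 := by
    rw [← Polynomial.eval_map]
    exact hz
  have hint : IsIntegral ℤ z := ⟨P, hP, hz'⟩
  have hintQ : IsIntegral ℚ z := hint.tower_top
  have hfd : FiniteDimensional ℚ (IntermediateField.adjoin ℚ {z}) :=
    IntermediateField.adjoin.finiteDimensional hintQ
  have hnf : NumberField (IntermediateField.adjoin ℚ {z}) := { }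
  set K := IntermediateField.adjoin ℚ {z} with hK
  set x : K := IntermediateField.AdjoinSimple.gen ℚ z with hx
  have hxz : algebraMap K ℂ x = z := IntermediateField.AdjoinSimple.algebraMap_gen ℚ z
  have hroot : Polynomial.eval₂ (Int.castRingHom K) x P = 0 := by
    apply (algebraMap K ℂ).injective
    rw [map_zero, Polynomial.hom_eval₂, hxz]
    have : (algebraMap K ℂ).comp (Int.castRingHom K) = Int.castRingHom ℂ := RingHom.ext_int _ _
    rw [this, hz']
  have hxint : IsIntegral ℤ x := ⟨P, hP, hroot⟩
  have hnorm : ∀ φ : K →+* ℂ, ‖φ x‖ = 1 := by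
    intro φ
    apply h
    unfold cx
    rw [Polynomial.eval_map]
    have : φ.comp (Int.castRingHom K) = Int.castRingHom ℂ := RingHom.ext_int _ _
    rw [← this, ← Polynomial.hom_eval₂, hroot, map_zero]
  obtain ⟨n, hn, hpow⟩ := NumberField.Embeddings.pow_eq_one_of_norm_eq_one K ℂ hxint hnorm
  refine ⟨n, hn, ?_⟩
  rw [← hxz, ← map_pow, hpow, map_one]

end SalemLen
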