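import Pool.Agent.Lib.MP_9599cf_ntL.Factor
import Pool.Agent.Lib.MP_9599cf_ntL.Kron

/-! # The start is good -/

set_option autoImplicit false

namespace SalemLen

open Polynomial

/-- A nonzero complex polynomial does not vanish at some unit. -/
private theorem Good0_exists_unit {p : ℂ[X]} (hp : p ≠ 0) : ∃ z : ℂˣ, p.eval (z : ℂ) ≠ 0 := by
  have h1 : (p * X) ≠ 0 := mul_ne_zero hp X_ne_zero
  obtain ⟨z, hz⟩ : ∃ z : ℂ, (p * X).eval z ≠ 0 := by
    by_contra hcon
    push Not at hcon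
    apply h1
    apply Polynomial.funext
    intro r
    rw [hcon r, eval_zero]
  rw [eval_mul, eval_X] at hz
  refine ⟨Units.mk0 z (right_ne_zero_of_mul hz), ?_⟩
  rw [Units.val_mk0]
  exact left_ne_zero_of_mul hz

/-- PROOF. `P = minpoly ℤ t * D` with the roots of `D` on the unit circle (`exists_factor`), so roots of unity
(`kronecker`). `ne`: `P ≠ 0` has finitely many roots. `root`: `t` is a root of `P`. -/
theorem good_start {t : ℝ} (ht : IsSalem t) {P : ℤ[X]} (hP : P.Monic) (h0 : P.coeff 0 ≠ 0)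
    (hd : Dom P t) {k : ℕ} {F : R k} {n : E k}
    (h : ∀ z : ℂˣ, ev n z F = (cx P).eval (z : ℂ)) : Good F n t := by
  obtain ⟨D, hD, hDm, hD0, hDr⟩ := exists_factor ht.1 hP h0 hd
  refine ⟨?_, ?_, ?_⟩
  · have hne : cx P ≠ 0 := by
      have h1 : (cx P).Monic := hP.map _
      exact h1.ne_zero
    obtain ⟨z, hz⟩ := Good0_exists_unit hne
    exact ⟨z, by rw [h z]; exact hz⟩
  · intro z hz
    obtain ⟨Q, hQ, -⟩ := hd
    rw [h z, hz, hQ, eval_mul, eval_sub, eval_X, eval_C, sub_self, zero_mul]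
  · intro z hz
    rw [h z, hD] at hz
    have h2 : cx (minpoly ℤ t * D) = cx (minpoly ℤ t) * cx D := Polynomial.map_mul _
    rw [h2, eval_mul] at hz
    rcases mul_eq_zero.1 hz with h3 | h3
    · exact Or.inl h3
    · right
      obtain ⟨j, hj, hj1⟩ := kronecker hDm hDr (z : ℂ) h3
      refine ⟨j, hj, ?_⟩
      ext
      rw [Units.val_pow_eq_pow_val, hj1, Units.val_one]

end SalemLen
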