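import Pool.Agent.Lib.MP_9599cf_ntL.Defs

/-! # The ideal grows strictly -/

set_option autoImplicit false

namespace SalemLen

open Polynomial

private theorem Good2_poly {k : ℕ} (n : E k) (G : R k) :
    ∃ (l : ℕ) (P : ℂ[X]), ∀ z : ℂˣ, ((z : ℂ)) ^ l * ev n z G = P.eval (z : ℂ) := by
  refine ⟨∑ m ∈ G.coeff.support, (dot m n).natAbs,
    ∑ m ∈ G.coeff.support, C (G.coeff m : ℂ) *
      X ^ (((∑ m ∈ G.coeff.support, (dot m n).natAbs : ℕ) : ℤ) + dot m n).toNat, fun z => ?_⟩
  rw [ev_apply, Finset.mul_sum, Polynomial.eval_finsetSum]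
  refine Finset.sum_congr rfl fun m hm => ?_
  rw [eval_mul, eval_C, eval_pow, eval_X]
  have h1 : (dot m n).natAbs ≤ ∑ m ∈ G.coeff.support, (dot m n).natAbs :=
    Finset.single_le_sum (f := fun m => (dot m n).natAbs) (fun _ _ => Nat.zero_le _) hm
  generalize ∑ m ∈ G.coeff.support, (dot m n).natAbs = l at h1 ⊢
  have h2 : (((l : ℤ) + dot m n).toNat : ℤ) = (l : ℤ) + dot m n := by omega
  have h3 : (z ^ (((l : ℤ) + dot m n).toNat : ℤ) : ℂˣ) = z ^ (l : ℤ) * z ^ dot m n := by
    rw [h2, zpow_add]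
  have h4 : (z : ℂ) ^ ((l : ℤ) + dot m n).toNat = (z : ℂ) ^ l * ((z ^ dot m n : ℂˣ) : ℂ) := by
    have h5 := congrArg (fun u : ℂˣ => (u : ℂ)) h3
    simp only [Units.val_mul, zpow_natCast, Units.val_pow_eq_pow_val] at h5
    exact h5
  rw [h4]
  ring

private theorem Good2_prod {k : ℕ} (n : E k) {G H : R k} (h : ∀ z : ℂˣ, ev n z (G * H) = 0)
    (hH : ∃ z : ℂˣ, ev n z H ≠ 0) (z : ℂˣ) : ev n z G = 0 := by
  obtain ⟨l, P, hP⟩ := Good2_poly n G
  obtain ⟨l', P', hP'⟩ := Good2_poly n H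
  have h1 : P * P' = 0 := by
    refine Polynomial.eq_zero_of_infinite_isRoot _
      ((Set.finite_singleton (0 : ℂ)).infinite_compl.mono fun x hx => ?_)
    have hx0 : x ≠ 0 := hx
    have h2 := h (Units.mk0 x hx0)
    rw [map_mul] at h2
    have h3 := hP (Units.mk0 x hx0)
    have h4 := hP' (Units.mk0 x hx0)
    rw [Units.val_mk0] at h3 h4
    show (P * P').eval x = 0
    rw [eval_mul, ← h3, ← h4]
    linear_combination x ^ l * x ^ l' * h2
  rcases mul_eq_zero.1 h1 with h2 | h2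
  · have h3 := hP z
    rw [h2, eval_zero] at h3
    exact (mul_eq_zero.1 h3).resolve_left (pow_ne_zero _ z.ne_zero)
  · exfalso
    obtain ⟨z', hz'⟩ := hH
    have h3 := hP' z'
    rw [h2, eval_zero] at h3
    exact hz' ((mul_eq_zero.1 h3).resolve_left (pow_ne_zero _ z'.ne_zero))

/-- PROOF. `≤`: `F = cyc N a * F1 + i` with `i ∈ nul U n`. If equality holds, `F1 = V * F + i'`, so
`(1 - V * cyc N a) * F1 ∈ nul U n`. Take a `τ` in the almost all sets (`U` is `NeBot`), `n = n τ`,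
`g = dot a n > 0`, `w = ev (1 - V * cyc N a)`, a continuous function of `z ∈ ℂˣ` (finite sum of powers, `ev_apply`) with
`w z * ev n z F1 = 0` for all `z`. `ev n z F1` is not identically zero; it has only finitely many zeros (multiplied by
a power of `z` it is a nonzero polynomial), so `w` vanishes off a finite set, hence everywhere (continuity, or:
`z ^ l * w z` is a polynomial with infinitely many zeros). But for `z` with `z ^ g` a primitive `N`-th root of unity
(exists: `IsAlgClosed`, `g > 0`) `w z = 1 - ev V * Φ_N (z ^ g) = 1`. Contradiction. -/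
theorem lt_of_factor {k : ℕ} (U : Ultrafilter ℕ) (n : ℕ → E k) {F F1 : R k} {N : ℕ} {a : E k}
    (hN : 0 < N) (ha : ∀ᶠ τ in (U : Filter ℕ), 0 < dot a (n τ))
    (h : F - cyc N a * F1 ∈ nul U n)
    (hF1 : ∀ᶠ τ in (U : Filter ℕ), ∃ z : ℂˣ, ev (n τ) z F1 ≠ 0) :
    Ideal.span {F} ⊔ nul U n < Ideal.span {F1} ⊔ nul U n := by
  refine lt_of_le_of_ne (sup_le ?_ le_sup_right) fun heq => ?_
  · rw [Ideal.span_le, Set.singleton_subset_iff]
    have e : F = cyc N a * F1 + (F - cyc N a * F1) := by ring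
    rw [e]
    exact Ideal.add_mem _ (Ideal.mem_sup_left
      (Ideal.mul_mem_left _ _ (Ideal.subset_span (Set.mem_singleton _)))) (Ideal.mem_sup_right h)
  · have h1 : F1 ∈ Ideal.span {F} ⊔ nul U n := by
      rw [heq]
      exact Ideal.mem_sup_left (Ideal.subset_span (Set.mem_singleton _))
    obtain ⟨y, hy, i, hi, hyi⟩ := Submodule.mem_sup.1 h1
    obtain ⟨V, rfl⟩ := Ideal.mem_span_singleton'.1 hy
    have h2 : (1 - V * cyc N a) * F1 ∈ nul U n := by
      have e : (1 - V * cyc N a) * F1 = i + V * (F - cyc N a * F1) := by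
        rw [← hyi]
        have e2 : V * cyc N a * F1 = V * (cyc N a * F1) := mul_assoc _ _ _
        have e3 : (V * F + i) = F1 := hyi
        rw [e3, sub_mul, one_mul, e2, mul_sub, ← e3]
        ring
      rw [e]
      exact Ideal.add_mem _ hi (Ideal.mul_mem_left _ _ h)
    have h3 : ∀ᶠ τ in (U : Filter ℕ), ∀ z : ℂˣ, ev (n τ) z ((1 - V * cyc N a) * F1) = 0 := h2
    obtain ⟨τ, h4, h5, h6⟩ := (h3.and (ha.and hF1)).exists
    have h7 := Good2_prod (n τ) h4 h6
    have hg : 0 < (dot a (n τ)).toNat := by omega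
    obtain ⟨z, hz⟩ := IsAlgClosed.exists_pow_nat_eq
      (Complex.exp (2 * Real.pi * Complex.I / N)) hg
    have hz0 : z ≠ 0 := by
      intro h0
      rw [h0, zero_pow hg.ne'] at hz
      exact Complex.exp_ne_zero _ hz.symm
    have hprim := Complex.isPrimitiveRoot_exp N hN.ne'
    have h8 := h7 (Units.mk0 z hz0)
    have h9 : ((Units.mk0 z hz0 ^ dot a (n τ) : ℂˣ) : ℂ) =
        Complex.exp (2 * Real.pi * Complex.I / N) := by
      have e : dot a (n τ) = ((dot a (n τ)).toNat : ℤ) := by omega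
      rw [e, zpow_natCast, Units.val_pow_eq_pow_val, Units.val_mk0, hz]
    have h10 : (cyclotomic N ℂ).eval (Complex.exp (2 * Real.pi * Complex.I / N)) = 0 :=
      hprim.isRoot_cyclotomic hN
    rw [map_sub, map_mul, map_one, ev_cyc, h9, h10, mul_zero, sub_zero] at h8
    exact one_ne_zero h8

end SalemLen
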