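import Pool.Agent.Lib.MP_9599cf_ntL.Defs

/-! # Normal form of the exponents -/

set_option autoImplicit false

namespace SalemLen

open Polynomial

theorem Normal_ev {k : ℕ} (F : R k) (ρ : E k → E k) (n : E k) (z : ℂˣ) :
    ev n z (AddMonoidAlgebra.mapDomain ρ F) =
      ∑ m ∈ F.coeff.support, (F.coeff m : ℂ) * ((z ^ dot (ρ m) n : ℂˣ) : ℂ) := by
  change AddMonoidAlgebra.lift ℤ ℂ (E k) (chi n z) (AddMonoidAlgebra.mapDomain ρ F) = _
  rw [AddMonoidAlgebra.lift_apply]
  change (Finsupp.mapDomain ρ F.coeff).sum _ = _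
  rw [Finsupp.sum_mapDomain_index]
  · rw [Finsupp.sum]
    refine Finset.sum_congr rfl fun m _ => ?_
    rw [zsmul_eq_mul]
    rfl
  · intro m
    rw [zero_smul]
  · intro m a b
    rw [add_smul]

/-- Equality of the exponents for almost all indices. -/
def NormalSetoid {k : ℕ} (U : Ultrafilter ℕ) (n : ℕ → E k) : Setoid (E k) where
  r m m' := ∀ᶠ τ in (U : Filter ℕ), dot m (n τ) = dot m' (n τ)
  iseqv := by
    refine ⟨fun m => Filter.Eventually.of_forall fun _ => rfl, fun {m m'} h => ?_,
      fun {m m' m''} h h' => ?_⟩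
    · filter_upwards [h] with τ h1
      exact h1.symm
    · filter_upwards [h, h'] with τ h1 h2
      exact h1.trans h2

/-- PROOF. The relation `m ~ m'` iff `dot m (n τ) = dot m' (n τ)` for almost all `τ` is an equivalence relation on
`E k`; let `ρ m` be the chosen representative of the class of `m` (`Quotient.out`), and `F'` the element with
`F'.coeff = Finsupp.mapDomain ρ F.coeff` (or `∑ m ∈ support, single (ρ m) (F.coeff m)`). The support of `F'` is
contained in the image of `ρ`, whose different elements are not equivalent, and for an ultrafilter the negation of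
`∀ᶠ τ, p τ` is `∀ᶠ τ, ¬ p τ`; finitely many conditions. `ev F = ev F'` for almost all `τ`. -/
theorem exists_normal {k : ℕ} (U : Ultrafilter ℕ) (n : ℕ → E k) (F : R k) :
    ∃ F' : R k, F - F' ∈ nul U n ∧
      ∀ᶠ τ in (U : Filter ℕ), Set.InjOn (fun m => dot m (n τ)) F'.coeff.support := by
  classical
  set s := NormalSetoid U n with hs
  set ρ : E k → E k := fun m => (Quotient.mk s m).out with hρ
  have h1 : ∀ m, ∀ᶠ τ in (U : Filter ℕ), dot (ρ m) (n τ) = dot m (n τ) := by
    intro m
    exact Quotient.mk_out (s := s) m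
  have h2 : ∀ m m', (∀ᶠ τ in (U : Filter ℕ), dot m (n τ) = dot m' (n τ)) → ρ m = ρ m' := by
    intro m m' h
    have : Quotient.mk s m = Quotient.mk s m' := Quotient.sound h
    rw [hρ]
    simp only [this]
  refine ⟨AddMonoidAlgebra.mapDomain ρ F, ?_, ?_⟩
  · change ∀ᶠ τ in (U : Filter ℕ), ∀ z : ℂˣ,
      ev (n τ) z (F - AddMonoidAlgebra.mapDomain ρ F) = 0
    have h3 : ∀ᶠ τ in (U : Filter ℕ), ∀ m ∈ F.coeff.support, dot (ρ m) (n τ) = dot m (n τ) := by
      rw [Filter.eventually_all_finset]
      intro m _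
      exact h1 m
    filter_upwards [h3] with τ h4 z
    rw [map_sub, Normal_ev, ev_apply, sub_eq_zero]
    refine Finset.sum_congr rfl fun m hm => ?_
    rw [h4 m hm]
  · have h3 : ∀ᶠ τ in (U : Filter ℕ), ∀ m ∈ F.coeff.support, ∀ m' ∈ F.coeff.support,
        dot (ρ m) (n τ) = dot (ρ m') (n τ) → ρ m = ρ m' := by
      rw [Filter.eventually_all_finset]
      intro m _
      rw [Filter.eventually_all_finset]
      intro m' _
      by_cases h4 : ∀ᶠ τ in (U : Filter ℕ), dot (ρ m) (n τ) = dot (ρ m') (n τ)
      · refine Filter.Eventually.of_forall fun τ _ => h2 m m' ?_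
        filter_upwards [h1 m, h1 m', h4] with τ h5 h6 h7
        rw [← h5, ← h6, h7]
      · rw [← Ultrafilter.eventually_not] at h4
        filter_upwards [h4] with τ h5 h6
        exact absurd h6 h5
    filter_upwards [h3] with τ h4
    intro a ha b hb hab
    have hsub : ((AddMonoidAlgebra.mapDomain ρ F : R k).coeff.support : Finset (E k)) ⊆
        F.coeff.support.image ρ := by
      change (Finsupp.mapDomain ρ F.coeff).support ⊆ _
      exact Finsupp.mapDomain_support
    obtain ⟨m, hm, rfl⟩ := Finset.mem_image.1 (hsub (Finset.mem_coe.1 ha))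
    obtain ⟨m', hm', rfl⟩ := Finset.mem_image.1 (hsub (Finset.mem_coe.1 hb))
    exact h4 m hm m' hm' hab

end SalemLen
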