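import Pool.Agent.Lib.MP_9599cf_ntL.Good1
import Pool.Agent.Lib.MP_9599cf_ntL.Good2
import Pool.Agent.Lib.MP_9599cf_ntL.Normal

/-! # A maximal choice -/

set_option autoImplicit false

namespace SalemLen

open Polynomial

private theorem NoethGood {k : ℕ} {F F' : R k} {n : E k} {t : ℝ}
    (h : ∀ z : ℂˣ, ev n z (F - F') = 0) (hF : Good F n t) : Good F' n t := by
  have e : ∀ z : ℂˣ, ev n z F = ev n z F' := by
    intro z
    have := h z
    rw [map_sub, sub_eq_zero] at this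
    exact this
  refine ⟨?_, ?_, ?_⟩
  · obtain ⟨z, hz⟩ := hF.ne
    exact ⟨z, by rw [← e z]; exact hz⟩
  · intro z hz
    rw [← e z]
    exact hF.root z hz
  · intro z hz
    rw [← e z] at hz
    exact hF.zeros z hz

private theorem NoethLe {k : ℕ} (I : Ideal (R k)) {F F' : R k} (h : F - F' ∈ I) :
    Ideal.span {F} ⊔ I ≤ Ideal.span {F'} ⊔ I := by
  refine sup_le ?_ le_sup_right
  rw [Ideal.span_singleton_le_iff_mem]
  have e : F = F' + (F - F') := by ring
  rw [e]
  exact Ideal.add_mem _ (Ideal.mem_sup_left (Ideal.mem_span_singleton_self F'))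
    (Ideal.mem_sup_right h)

private theorem NoethEq {k : ℕ} (I : Ideal (R k)) {F F' : R k} (h : F - F' ∈ I) :
    Ideal.span {F} ⊔ I = Ideal.span {F'} ⊔ I := by
  refine le_antisymm (NoethLe I h) (NoethLe I ?_)
  have e : F' - F = -(F - F') := by ring
  rw [e]
  exact I.neg_mem h

/-- PROOF. `R k` is Noetherian (`AddMonoidAlgebra.finiteType_of_fg`, `E k` is finitely generated as a module over
`ℤ`; `Algebra.FiniteType.isNoetherianRing ℤ`). Among the ideals `span {F} ⊔ nul U n` with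
`∀ᶠ τ, Good F (n τ) (t τ)` choose a maximal one (`set_has_maximal_iff_noetherian` / well-founded `>`), and replace
`F` by its normal form `F'` (`exists_normal`; `Good` and the ideal do not change, as `ev F = ev F'` for almost
all `τ`). If `F - cyc N a * F1 ∈ nul U n`, then `F1` is good by `good_of_factor` and the ideal is strictly
larger by `lt_of_factor`, a contradiction. -/
theorem exists_max {k : ℕ} (U : Ultrafilter ℕ) (n : ℕ → E k) (t : ℕ → ℝ) (ht : ∀ τ, 1 < t τ)
    (F0 : R k) (h0 : ∀ᶠ τ in (U : Filter ℕ), Good F0 (n τ) (t τ)) :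
    ∃ F : R k, (∀ᶠ τ in (U : Filter ℕ), Good F (n τ) (t τ)) ∧
      (∀ᶠ τ in (U : Filter ℕ), Set.InjOn (fun m => dot m (n τ)) F.coeff.support) ∧
      ∀ (N : ℕ) (a : E k) (F1 : R k), 0 < N → (∀ᶠ τ in (U : Filter ℕ), 0 < dot a (n τ)) →
        F - cyc N a * F1 ∉ nul U n := by
  have : IsNoetherianRing (R k) := Algebra.FiniteType.isNoetherianRing ℤ _
  have hmax := (set_has_maximal_iff_noetherian (R := R k) (M := R k)).2 inferInstance
    {I : Ideal (R k) | ∃ F : R k, (∀ᶠ τ in (U : Filter ℕ), Good F (n τ) (t τ)) ∧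
      I = Ideal.span {F} ⊔ nul U n} ⟨_, F0, h0, rfl⟩
  obtain ⟨M, ⟨F, hF, hM⟩, hmx⟩ := hmax
  obtain ⟨F', h1, h2⟩ := exists_normal U n F
  have hF' : ∀ᶠ τ in (U : Filter ℕ), Good F' (n τ) (t τ) := by
    have h1' : ∀ᶠ τ in (U : Filter ℕ), ∀ z : ℂˣ, ev (n τ) z (F - F') = 0 := h1
    filter_upwards [hF, h1'] with τ ha hb
    exact NoethGood hb ha
  refine ⟨F', hF', h2, ?_⟩
  intro N a F1 hN ha h
  have hF1 := good_of_factor U n t ht hN ha h hF'
  have hlt := lt_of_factor U n hN ha h (hF1.mono fun τ hτ => hτ.ne)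
  refine hmx (Ideal.span {F1} ⊔ nul U n) ⟨F1, hF1, rfl⟩ ?_
  rw [hM, NoethEq (nul U n) h1]
  exact hlt

end SalemLen
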