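import Pool.Agent.Lib.MP_9599cf_ntL.Defs

/-! # The generalized cyclotomic factor -/

set_option autoImplicit false

namespace SalemLen

open Polynomial

private theorem quot_ev_aeval {k : ℕ} (a n : E k) (z : ℂˣ) (q : ℤ[X]) :
    ev n z (Polynomial.aeval (AddMonoidAlgebra.single a (1 : ℤ) : R k) q) =
      (q.map (Int.castRingHom ℂ)).eval ((z ^ dot a n : ℂˣ) : ℂ) := by
  have h1 : ev n z (Polynomial.aeval (AddMonoidAlgebra.single a (1 : ℤ) : R k) q) =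
      Polynomial.eval₂ (Int.castRingHom ℂ)
        (ev n z (AddMonoidAlgebra.single a (1 : ℤ))) q := by
    rw [Polynomial.aeval_def, Polynomial.hom_eval₂]
    congr 1
    exact RingHom.ext_int _ _
  rw [h1, ev_single, ← Polynomial.eval_map]
  simp

private theorem quot_sum {k : ℕ} (F : R k) (P : Finpartition F.coeff.support) (g : E k → ℂ) :
    ∑ m ∈ F.coeff.support, g m = ∑ b ∈ P.parts, ∑ m ∈ b, g m := by
  conv_lhs => rw [← P.biUnion_parts]
  exact Finset.sum_biUnion P.disjoint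

private theorem quot_eval {k : ℕ} (F : R k) (b : Finset (E k)) (e : E k → ℕ) (y : ℂ) :
    ((∑ m ∈ b, C (F.coeff m) * X ^ e m : ℤ[X]).map (Int.castRingHom ℂ)).eval y =
      ∑ m ∈ b, (F.coeff m : ℂ) * y ^ e m := by
  rw [Polynomial.map_sum, Polynomial.eval_finsetSum]
  refine Finset.sum_congr rfl fun m _ => ?_
  simp

/-- PROOF. For each block `b` choose `m_b ∈ b` (blocks are nonempty) and let `L` be a natural number
`≥ |c m m_b|` for all these. `f_b = ∑ m ∈ b, C (F.coeff m) * X ^ (c m m_b + L).toNat ∈ ℤ[X]` vanishes at `ω`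
(`ω ^ L` times the hypothesis), so `f_b = cyclotomic N1 ℤ * h_b` (`Polynomial.cyclotomic_eq_minpoly`,
`minpoly.isIntegrallyClosed_dvd`). `F1 = ∑ b ∈ P.parts, single (m_b - L • a) 1 * aeval (single a 1) h_b`. For almost
all `τ` (finitely many conditions) and all `z`, with `y = z ^ dot a (n τ)`:
`ev (cyc N1 a * F1) = ∑ b, z ^ dot (m_b - L a) n * (Φ h_b)(y) = ∑ b, z ^ dot (m_b - L a) n * f_b (y) =
∑ b, ∑ m ∈ b, F.coeff m * z ^ (dot m_b n + c m m_b * dot a n) = ∑ F.coeff m * z ^ dot m n = ev F`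
(`ev_apply`, `ev_single`, `ev_cyc`; sum over the support is the sum over the blocks,
`Finpartition.sum_parts`-type lemma / `Finset.sum_biUnion` with `P.biUnion_parts`). -/
theorem exists_quot {k : ℕ} (F : R k) (U : Ultrafilter ℕ) (n : ℕ → E k)
    (P : Finpartition F.coeff.support) (a : E k) (c : E k → E k → ℤ) (N1 : ℕ) (ω : ℂˣ)
    (hN1 : 0 < N1) (hω : IsPrimitiveRoot (ω : ℂ) N1)
    (hc : ∀ b ∈ P.parts, ∀ m ∈ b, ∀ m' ∈ b, ∀ᶠ τ in (U : Filter ℕ),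
      dot (m - m') (n τ) = c m m' * dot a (n τ))
    (hb : ∀ b ∈ P.parts, ∀ m' ∈ b, ∑ m ∈ b, (F.coeff m : ℂ) * ((ω ^ c m m' : ℂˣ) : ℂ) = 0) :
    ∃ F1 : R k, F - cyc N1 a * F1 ∈ nul U n := by
  classical
  -- representatives
  obtain ⟨rp, hrp⟩ : ∃ rp : Finset (E k) → E k, ∀ b ∈ P.parts, rp b ∈ b := by
    refine ⟨fun b => if h : b.Nonempty then h.choose else 0, fun b hbP => ?_⟩
    have h : b.Nonempty := P.nonempty_of_mem_parts hbP
    simp only [dif_pos h]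
    exact h.choose_spec
  -- the bound
  obtain ⟨L, hL⟩ : ∃ L : ℕ, ∀ b ∈ P.parts, ∀ m ∈ b, 0 ≤ c m (rp b) + L := by
    refine ⟨∑ b ∈ P.parts, ∑ m ∈ b, (c m (rp b)).natAbs, fun b hbP m hm => ?_⟩
    have h1 : (c m (rp b)).natAbs ≤ ∑ m ∈ b, (c m (rp b)).natAbs :=
      Finset.single_le_sum (f := fun m => (c m (rp b)).natAbs) (fun _ _ => Nat.zero_le _) hm
    have h2 : ∑ m ∈ b, (c m (rp b)).natAbs ≤ ∑ b ∈ P.parts, ∑ m ∈ b, (c m (rp b)).natAbs :=
      Finset.single_le_sum (f := fun b => ∑ m ∈ b, (c m (rp b)).natAbs)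
        (fun _ _ => Nat.zero_le _) hbP
    omega
  -- the polynomials
  have hf : ∀ b ∈ P.parts, ∃ h : ℤ[X],
      ∑ m ∈ b, C (F.coeff m) * X ^ (c m (rp b) + L).toNat = cyclotomic N1 ℤ * h := by
    intro b hbP
    rw [Polynomial.cyclotomic_eq_minpoly hω hN1]
    refine minpoly.isIntegrallyClosed_dvd (hω.isIntegral hN1) ?_
    have h1 : Polynomial.aeval (ω : ℂ)
        (∑ m ∈ b, C (F.coeff m) * X ^ (c m (rp b) + L).toNat : ℤ[X]) =
        ((∑ m ∈ b, C (F.coeff m) * X ^ (c m (rp b) + L).toNat : ℤ[X]).map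
          (Int.castRingHom ℂ)).eval (ω : ℂ) := by
      rw [Polynomial.eval_map, Polynomial.aeval_def]
      rfl
    rw [h1, quot_eval]
    have h2 : ∑ m ∈ b, (F.coeff m : ℂ) * (ω : ℂ) ^ (c m (rp b) + L).toNat =
        ((ω ^ L : ℂˣ) : ℂ) * ∑ m ∈ b, (F.coeff m : ℂ) * ((ω ^ c m (rp b) : ℂˣ) : ℂ) := by
      rw [Finset.mul_sum]
      refine Finset.sum_congr rfl fun m hm => ?_
      have h3 : (ω : ℂ) ^ (c m (rp b) + L).toNat = ((ω ^ L : ℂˣ) : ℂ) * ((ω ^ c m (rp b) : ℂˣ) : ℂ) := by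
        rw [← Units.val_mul, ← Units.val_pow_eq_pow_val, ← zpow_natCast, ← zpow_natCast, ← zpow_add,
          Int.toNat_of_nonneg (hL b hbP m hm), add_comm]
      rw [h3]
      ring
    rw [h2, hb b hbP (rp b) (hrp b hbP), mul_zero]
  choose! h hh using hf
  refine ⟨∑ b ∈ P.parts, AddMonoidAlgebra.single (rp b - (L : ℤ) • a) (1 : ℤ) *
    Polynomial.aeval (AddMonoidAlgebra.single a (1 : ℤ) : R k) (h b), ?_⟩
  have hev : ∀ᶠ τ in (U : Filter ℕ), ∀ b ∈ P.parts, ∀ m ∈ b,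
      dot (m - rp b) (n τ) = c m (rp b) * dot a (n τ) := by
    rw [Filter.eventually_all_finset]
    intro b hbP
    rw [Filter.eventually_all_finset]
    intro m hm
    exact hc b hbP m hm (rp b) (hrp b hbP)
  change ∀ᶠ τ in (U : Filter ℕ), ∀ z : ℂˣ, ev (n τ) z _ = 0
  filter_upwards [hev] with τ hτ z
  rw [map_sub, map_mul, map_sum, ev_cyc, ev_apply, quot_sum F P, Finset.mul_sum, sub_eq_zero]
  refine Finset.sum_congr rfl fun b hbP => ?_
  rw [map_mul, ev_single, quot_ev_aeval]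
  have h4 : (cyclotomic N1 ℂ).eval ((z ^ dot a (n τ) : ℂˣ) : ℂ) *
      ((h b).map (Int.castRingHom ℂ)).eval ((z ^ dot a (n τ) : ℂˣ) : ℂ) =
      ∑ m ∈ b, (F.coeff m : ℂ) * ((z ^ dot a (n τ) : ℂˣ) : ℂ) ^ (c m (rp b) + L).toNat := by
    rw [← quot_eval F b (fun m => (c m (rp b) + L).toNat), hh b hbP, Polynomial.map_mul,
      Polynomial.map_cyclotomic, Polynomial.eval_mul]
  have h5 : (cyclotomic N1 ℂ).eval ((z ^ dot a (n τ) : ℂˣ) : ℂ) *
      (((1 : ℤ) : ℂ) * ((z ^ dot (rp b - (L : ℤ) • a) (n τ) : ℂˣ) : ℂ) *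
        ((h b).map (Int.castRingHom ℂ)).eval ((z ^ dot a (n τ) : ℂˣ) : ℂ)) =
      ((z ^ dot (rp b - (L : ℤ) • a) (n τ) : ℂˣ) : ℂ) *
      ((cyclotomic N1 ℂ).eval ((z ^ dot a (n τ) : ℂˣ) : ℂ) *
        ((h b).map (Int.castRingHom ℂ)).eval ((z ^ dot a (n τ) : ℂˣ) : ℂ)) := by
    push_cast
    ring
  rw [h5, h4, Finset.mul_sum]
  refine Finset.sum_congr rfl fun m hm => ?_
  have h6 : ((z ^ dot m (n τ) : ℂˣ) : ℂ) = ((z ^ dot (rp b - (L : ℤ) • a) (n τ) : ℂˣ) : ℂ) *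
      ((z ^ dot a (n τ) : ℂˣ) : ℂ) ^ (c m (rp b) + L).toNat := by
    rw [← Units.val_pow_eq_pow_val, ← Units.val_mul, ← zpow_natCast,
      Int.toNat_of_nonneg (hL b hbP m hm), ← zpow_mul, ← zpow_add]
    congr 2
    have h7 := hτ b hbP m hm
    rw [dot_sub] at h7
    rw [dot_sub, dot_smul]
    linear_combination h7
  rw [h6]
  ring

end SalemLen
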