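import Pool.Agent.Lib.MP_9599cf_ntL.Defs

/-! # A common Laurent polynomial -/

set_option autoImplicit false

namespace SalemLen

open Polynomial

private theorem Start_len_eq (P : ℤ[X]) (S : Finset ℕ) (hS : P.support ⊆ S) :
    len P = ∑ i ∈ S, (P.coeff i).natAbs := by
  unfold len
  refine Finset.sum_subset hS fun i _ hi => ?_
  rw [Polynomial.notMem_support_iff.1 hi, Int.natAbs_zero]

private theorem Start_len_sub {P : ℤ[X]} (hP : P ≠ 0) :
    len (P - C ((SignType.sign P.leadingCoeff : SignType) : ℤ) * X ^ P.natDegree) + 1 = len P := by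
  set σ : ℤ := ((SignType.sign P.leadingCoeff : SignType) : ℤ) with hσ
  have hd : P.natDegree ∈ P.support := Polynomial.natDegree_mem_support_of_nonzero hP
  have hcoef : ∀ i, (P - C σ * X ^ P.natDegree).coeff i =
      P.coeff i - if i = P.natDegree then σ else 0 := by
    intro i
    rw [coeff_sub, coeff_C_mul, coeff_X_pow]
    by_cases h : i = P.natDegree
    · rw [if_pos h, if_pos h, mul_one]
    · rw [if_neg h, if_neg h, mul_zero]
  have hsup : (P - C σ * X ^ P.natDegree).support ⊆ P.support := by
    intro i hi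
    rw [mem_support_iff, hcoef] at hi
    rw [mem_support_iff]
    intro h0
    by_cases h : i = P.natDegree
    · rw [h] at h0
      exact (mem_support_iff.1 hd) h0
    · rw [if_neg h, h0, sub_zero] at hi
      exact hi rfl
  rw [Start_len_eq _ _ hsup, len, ← Finset.add_sum_erase _ _ hd, ← Finset.add_sum_erase _ _ hd]
  have h1 : ∑ i ∈ P.support.erase P.natDegree,
      ((P - C σ * X ^ P.natDegree).coeff i).natAbs =
      ∑ i ∈ P.support.erase P.natDegree, (P.coeff i).natAbs := by
    refine Finset.sum_congr rfl fun i hi => ?_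
    rw [hcoef, if_neg (Finset.ne_of_mem_erase hi), sub_zero]
  have h2 : ((P - C σ * X ^ P.natDegree).coeff P.natDegree).natAbs + 1 =
      (P.coeff P.natDegree).natAbs := by
    rw [hcoef, if_pos rfl]
    have h3 : P.coeff P.natDegree ≠ 0 := mem_support_iff.1 hd
    have h4 : σ = Int.sign (P.coeff P.natDegree) := by
      rw [hσ, Int.sign_eq_sign]
      rfl
    rcases lt_or_gt_of_ne h3 with h5 | h5
    · rw [h4, Int.sign_eq_neg_one_of_neg h5]
      omega
    · rw [h4, Int.sign_eq_one_of_pos h5]
      omega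
  omega

private theorem Start_terms (n : ℕ) : ∀ P : ℤ[X], len P ≤ n →
    ∃ (s : Fin n → SignType) (e : Fin n → ℕ), P = ∑ i, C ((s i : SignType) : ℤ) * X ^ (e i) := by
  induction n with
  | zero =>
    intro P hP
    have hP0 : P = 0 := by
      by_contra h
      have h1 := Start_len_sub h
      omega
    refine ⟨fun i => 0, fun i => 0, ?_⟩
    rw [hP0, Finset.univ_eq_empty, Finset.sum_empty]
  | succ n ih =>
    intro P hP
    by_cases h : P = 0
    · refine ⟨fun i => 0, fun i => 0, ?_⟩
      rw [h]
      symm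
      refine Finset.sum_eq_zero fun i _ => ?_
      simp
    · have h1 := Start_len_sub h
      obtain ⟨s, e, hse⟩ := ih (P - C ((SignType.sign P.leadingCoeff : SignType) : ℤ) *
        X ^ P.natDegree) (by omega)
      refine ⟨Fin.cons (SignType.sign P.leadingCoeff) s, Fin.cons P.natDegree e, ?_⟩
      rw [Fin.sum_univ_succ]
      simp only [Fin.cons_zero, Fin.cons_succ]
      rw [← hse]
      ring

/-- PROOF. `k = B`. Each `P τ` is a sum of `B` terms `s i * X ^ (e i)`, `s i ∈ {-1, 0, 1}`, `e i ∈ ℕ` (write each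
coefficient `a` as `|a|` times its sign, and fill up with zeros; induction on `B`: subtract the sign of the leading
coefficient times `X ^ deg`, which lowers `len` by one). The sign vector `s : Fin B → ℤ` is constant for almost all
`τ` (finitely many), `F = ∑ i, single (Pi.single i 1) (s i)`, `n τ i = e i` and `ev` is computed by `ev_single`,
`dot (Pi.single i 1) n = n i`. -/
theorem exists_start {B : ℕ} (U : Ultrafilter ℕ) (P : ℕ → ℤ[X]) (h : ∀ τ, len (P τ) ≤ B) :
    ∃ (k : ℕ) (F : R k) (n : ℕ → E k), ∀ᶠ τ in (U : Filter ℕ), ∀ z : ℂˣ,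
      ev (n τ) z F = (cx (P τ)).eval (z : ℂ) := by
  choose s e hse using fun τ => Start_terms B (P τ) (h τ)
  obtain ⟨s0, hs0⟩ : ∃ s0 : Fin B → SignType, ∀ᶠ τ in (U : Filter ℕ), s τ = s0 := by
    obtain ⟨a, ha⟩ := Ultrafilter.eq_pure_of_finite (U.map s)
    refine ⟨a, ?_⟩
    have h1 : {a} ∈ U.map s := by
      rw [ha]
      exact Ultrafilter.mem_pure.2 rfl
    exact h1
  refine ⟨B, ∑ i, AddMonoidAlgebra.single (Pi.single i 1) ((s0 i : SignType) : ℤ),
    fun τ i => (e τ i : ℤ), ?_⟩
  filter_upwards [hs0] with τ hτ z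
  have hdot : ∀ i : Fin B, dot (Pi.single i 1) (fun i => (e τ i : ℤ)) = (e τ i : ℤ) := by
    intro i
    rw [dot, Finset.sum_eq_single i]
    · rw [Pi.single_eq_same, one_mul]
    · intro j _ hj
      rw [Pi.single_eq_of_ne hj, zero_mul]
    · intro hi
      exact absurd (Finset.mem_univ i) hi
  rw [map_sum]
  conv_rhs => rw [hse τ]
  rw [cx, Polynomial.map_sum, Polynomial.eval_finsetSum]
  refine Finset.sum_congr rfl fun i _ => ?_
  rw [ev_single, hdot, zpow_natCast, Units.val_pow_eq_pow_val, hτ, Polynomial.map_mul,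
    Polynomial.map_pow, Polynomial.map_X, Polynomial.map_C, Polynomial.eval_mul,
    Polynomial.eval_pow, Polynomial.eval_X, Polynomial.eval_C]
  rfl

end SalemLen
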