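import Pool.Agent.Lib.MP_9599cf_ntL.Strip
import Pool.Agent.Lib.MP_9599cf_ntL.Good0
import Pool.Agent.Lib.MP_9599cf_ntL.Noeth
import Pool.Agent.Lib.MP_9599cf_ntL.Dich
import Pool.Agent.Lib.MP_9599cf_ntL.Cnt2
import Pool.Agent.Lib.MP_9599cf_ntL.Const
import Pool.Agent.Lib.MP_9599cf_ntL.Quot
import Pool.Agent.Lib.MP_9599cf_ntL.Start

/-! # Isolation from one -/

set_option autoImplicit false

namespace SalemLen

open Polynomial

/-- The Salem numbers of bounded length are bounded away from one. -/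
theorem isolated (B : ℕ) : ∃ δ : ℝ, 0 < δ ∧ ∀ t ∈ T B, 1 + δ ≤ t := by
  by_contra hcon
  push Not at hcon
  have h1 : ∀ τ : ℕ, ∃ t : ℝ, IsSalem t ∧ t < 1 + 1 / ((τ : ℝ) + 1) ∧
      ∃ P : ℤ[X], P.Monic ∧ len P ≤ B ∧ Dom P t ∧ P.coeff 0 ≠ 0 := by
    intro τ
    obtain ⟨t, ⟨hs, P, hP, hl, hd⟩, hlt⟩ := hcon (1 / ((τ : ℝ) + 1)) (by positivity)
    obtain ⟨P', h1, h2, h3, h4⟩ := exists_coeff_zero hP hs.2.1 hd
    exact ⟨t, hs, hlt, P', h1, by rw [h2]; exact hl, h3, h4⟩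
  choose t hs hlt P hP hl hd h0 using h1
  obtain ⟨U, hU⟩ : ∃ U : Ultrafilter ℕ, (U : Filter ℕ) ≤ Filter.atTop :=
    ⟨Filter.hyperfilter ℕ, by rw [← Nat.cofinite_eq_atTop]; exact Filter.hyperfilter_le_cofinite⟩
  obtain ⟨k, F0, n, hn⟩ := exists_start U P hl
  have hG0 : ∀ᶠ τ in (U : Filter ℕ), Good F0 (n τ) (t τ) := by
    filter_upwards [hn] with τ h
    exact good_start (hs τ) (hP τ) (h0 τ) (hd τ) h
  obtain ⟨F, hG, hinj, hmax⟩ := exists_max U n t (fun τ => (hs τ).2.1) F0 hG0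
  obtain ⟨δ, hδ, M1, hM1⟩ := dichotomy F
  obtain ⟨M2, N, hN, hM2⟩ := exists_big F
  have hlim : ∀ᶠ τ in (U : Filter ℕ), t τ < 1 + δ := by
    have h2 : Filter.Tendsto (fun τ : ℕ => 1 / ((τ : ℝ) + 1)) Filter.atTop (nhds 0) :=
      tendsto_one_div_add_atTop_nhds_zero_nat
    have h3 := (h2.mono_left hU).eventually (gt_mem_nhds hδ)
    filter_upwards [h3] with τ h4
    linarith [hlt τ]
  have hkey : ∀ᶠ τ in (U : Filter ℕ), ∃ P : Finpartition F.coeff.support, ∃ z : ℂˣ,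
      Blk F P N (n τ) z ∧ 0 < pg P (n τ) ∧ ∀ m ∈ F.coeff.support, ∀ m' ∈ F.coeff.support,
        |dot (m - m') (n τ)| ≤ ((M1 * M2 : ℕ) : ℤ) * pg P (n τ) := by
    filter_upwards [hG, hinj, hlim] with τ g1 g2 g3
    obtain ⟨Z, hZ, hZ1, hZ2⟩ := hM1 (n τ) (t τ) (hs τ) g1 g2 g3
    obtain ⟨P, z, hb, hpg, hc⟩ := hM2 (n τ) g1.ne Z hZ hZ1
    refine ⟨P, z, hb, hpg, fun m hm m' hm' => (hZ2 m hm m' hm').trans ?_⟩
    have h4 : (Z.card : ℤ) ≤ (M2 : ℤ) * pg P (n τ) := by exact_mod_cast hc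
    have h5 : (M1 : ℤ) * Z.card ≤ M1 * ((M2 : ℤ) * pg P (n τ)) :=
      mul_le_mul_of_nonneg_left h4 (by positivity)
    refine h5.trans (le_of_eq ?_)
    push_cast
    ring
  obtain ⟨P', a, c, N1, ω, hN1, hω, ha, hc, hb⟩ := exists_const F U n hN hkey
  obtain ⟨F1, hF1⟩ := exists_quot F U n P' a c N1 ω hN1 hω hc hb
  exact hmax N1 a F1 hN1 ha hF1

end SalemLen
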