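import Pool.Agent.Lib.MP_9599cf_ntL.Defs

/-! # Reciprocal polynomials -/

set_option autoImplicit false

namespace SalemLen

open Polynomial

private theorem circRev_reverse_X_sub_C (z : ℂ) (hz : z ≠ 0) :
    (X - C z : ℂ[X]).reverse = C (-z) * (X - C z⁻¹) := by
  have h1 : (X - C z : ℂ[X]) = C 1 * X + C (-z) := by
    rw [C_neg, C_1, one_mul, sub_eq_add_neg]
  have h2 : (X - C z : ℂ[X]).natDegree = 1 := natDegree_X_sub_C z
  ext n
  rw [coeff_reverse, h2, coeff_C_mul]
  rcases n with _ | _ | n
  · rw [revAt_le zero_le, tsub_zero, coeff_sub, coeff_sub, coeff_X_one, coeff_C_of_ne_zero one_ne_zero,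
      coeff_X_zero, coeff_C_zero]
    field_simp
    ring
  · rw [revAt_le le_rfl, zero_add, tsub_self, coeff_sub, coeff_sub, coeff_X_one,
      coeff_C_of_ne_zero one_ne_zero, coeff_X_zero, coeff_C_zero]
    ring
  · rw [revAt_eq_self_of_lt (by omega), coeff_sub, coeff_sub, coeff_X_of_ne_one (by omega),
      coeff_C_of_ne_zero (by omega), coeff_C_of_ne_zero (by omega)]
    ring

private theorem circRev_reverse_prod (s : Multiset ℂ) (hs : ∀ z ∈ s, z ≠ 0) :
    (s.map fun z => (X - C z : ℂ[X])).prod.reverse =
      C (s.map fun z => -z).prod * (s.map fun z => (X - C z⁻¹ : ℂ[X])).prod := by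
  induction s using Multiset.induction_on with
  | empty =>
    simp only [Multiset.map_zero, Multiset.prod_zero, C_1, one_mul]
    rw [← C_1, reverse_C]
  | cons a s ih =>
    have h1 := ih fun z hz => hs z (Multiset.mem_cons_of_mem hz)
    have h2 := circRev_reverse_X_sub_C a (hs a (Multiset.mem_cons_self a s))
    simp only [Multiset.map_cons, Multiset.prod_cons]
    rw [reverse_mul_of_domain, h1, h2, C_mul]
    ring

private theorem circRev_prod_norm (s : Multiset ℂ) (hs : ∀ z ∈ s, ‖z‖ = 1) :
    ‖(s.map fun z => -z).prod‖ = 1 := by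
  induction s using Multiset.induction_on with
  | empty => simp
  | cons a s ih =>
    have h1 := ih fun z hz => hs z (Multiset.mem_cons_of_mem hz)
    rw [Multiset.map_cons, Multiset.prod_cons, norm_mul, h1, norm_neg,
      hs a (Multiset.mem_cons_self a s), one_mul]

/-- PROOF. All complex roots have absolute value one; `z⁻¹ = conj z` and the multiplicity of `conj z` is
that of `z` (real coefficients: apply the ring automorphism `starRingEnd ℂ` to `cx P`), so the multiset of
the roots is invariant under `z ↦ z⁻¹`. `cx P = ∏ (X - z_i)`, and the reverse is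
`∏ (1 - z_i X) = ∏ (- z_i) * ∏ (X - z_i⁻¹) = (cx P).coeff 0 * cx P` (`Polynomial.reverse_prod` or
`Polynomial.reverse_mul_of_domain`, induction on the multiset; `reverse` commutes with the injective map
`cx`). So `P.reverse = C (P.coeff 0) * P`; `|P.coeff 0| = 1` as the product of the roots has absolute
value one, so `P.coeff 0 = ± 1`. -/
theorem reverse_eq_of_circle {P : ℤ[X]} (hP : P.Monic)
    (h : ∀ z : ℂ, (cx P).eval z = 0 → ‖z‖ = 1) : P.reverse = P ∨ P.reverse = -P := by
  have hm : (cx P).Monic := hP.map _
  have hsp : (cx P).Splits := IsAlgClosed.splits _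
  have hprod := hsp.eq_prod_roots_of_monic hm
  have hroot : ∀ z ∈ (cx P).roots, ‖z‖ = 1 := fun z hz =>
    h z ((mem_roots hm.ne_zero).1 hz)
  have hne : ∀ z ∈ (cx P).roots, z ≠ 0 := by
    intro z hz h0
    have := hroot z hz
    rw [h0, norm_zero] at this
    exact zero_ne_one this
  -- the roots are invariant under conjugation
  have hconj : (cx P).roots.map (starRingEnd ℂ) = (cx P).roots := by
    rw [← hsp.roots_map (starRingEnd ℂ)]
    congr 1
    unfold cx
    rw [Polynomial.map_map]
    congr 1
    exact RingHom.ext_int _ _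
  have hinv : (cx P).roots.map (fun z => z⁻¹) = (cx P).roots := by
    conv_rhs => rw [← hconj]
    refine Multiset.map_congr rfl fun z hz => ?_
    have h1 := hroot z hz
    rw [Complex.inv_def, Complex.normSq_eq_norm_sq, h1]
    simp
  have hrev : (cx P).reverse = C ((cx P).roots.map fun z => -z).prod * cx P := by
    conv_lhs => rw [hprod]
    rw [circRev_reverse_prod _ hne]
    congr 1
    have h1 : ((cx P).roots.map fun z => (X - C z⁻¹ : ℂ[X])) =
        ((cx P).roots.map (fun z => z⁻¹)).map fun z => (X - C z : ℂ[X]) := by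
      rw [Multiset.map_map]
      rfl
    rw [h1, hinv]
    exact hprod.symm
  have hc0 : ((cx P).roots.map fun z => -z).prod = ((P.coeff 0 : ℤ) : ℂ) := by
    have h1 : ((cx P).roots.map fun z => -z).prod = (cx P).eval 0 := by
      rw [hsp.eval_eq_prod_roots_of_monic hm]
      simp
    rw [h1, ← coeff_zero_eq_eval_zero, cx, coeff_map]
    rfl
  have hn : ‖((P.coeff 0 : ℤ) : ℂ)‖ = 1 := by
    rw [← hc0]
    exact circRev_prod_norm _ hroot
  have hcoef : P.coeff 0 = 1 ∨ P.coeff 0 = -1 := by
    rw [Complex.norm_intCast] at hn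
    have h1 : |P.coeff 0| = 1 := by exact_mod_cast hn
    exact (abs_eq zero_le_one).1 h1
  have hmap : (P.reverse).map (Int.castRingHom ℂ) = (cx P).reverse := by
    unfold cx
    rw [reverse, reverse, reflect_map, natDegree_map_eq_of_injective Int.cast_injective]
  have hinj := Polynomial.map_injective (Int.castRingHom ℂ) Int.cast_injective
  have key : P.reverse = C (P.coeff 0) * P := by
    apply hinj
    rw [hmap, hrev, hc0, Polynomial.map_mul, map_C]
    rfl
  rcases hcoef with h1 | h1
  · left
    rw [key, h1, C_1, one_mul]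
  · right
    rw [key, h1, C_neg, C_1, neg_one_mul]

end SalemLen
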