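import Pool.Agent.Lib.MP_9599cf_ntL.Factor
import Pool.Agent.Lib.MP_9599cf_ntL.CircRev

/-! # Polynomials of Salem numbers are reciprocal -/

set_option autoImplicit false

namespace SalemLen

open Polynomial

private theorem recip_eval (P : ℤ[X]) (t : ℝ) :
    (cx P).eval (t : ℂ) = ((aeval t P : ℝ) : ℂ) := by
  rw [cx, eval_map, aeval_def]
  have h : ((eval₂ (algebraMap ℤ ℝ) t P : ℝ) : ℂ) =
      Complex.ofRealHom (eval₂ (algebraMap ℤ ℝ) t P) := rfl
  rw [h, hom_eval₂]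
  congr 1

/-- PROOF. The roots of `minpoly ℤ t` are simple (separable: irreducible over `ℚ`) and closed under
`z ↦ z⁻¹` (`inv_root`), so the reverse of the minimal polynomial, `c * ∏ (X - z_i⁻¹)` with
`c = (minpoly ℤ t).coeff 0`, is `c * minpoly ℤ t`; comparing the constant coefficients, `1 = c ^ 2`. -/
theorem IsSalem.reverse_minpoly {t : ℝ} (h : IsSalem t) :
    (minpoly ℤ t).reverse = minpoly ℤ t ∨ (minpoly ℤ t).reverse = -minpoly ℤ t := by
  have ht : (0 : ℝ) < t := lt_trans one_pos h.2.1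
  have hm : (minpoly ℤ t).Monic := minpoly.monic h.1
  have h1 : (cx (minpoly ℤ t)).eval (t : ℂ) = 0 := by
    rw [recip_eval, minpoly.aeval, Complex.ofReal_zero]
  have h2 := h.inv_root h1
  rw [← Complex.ofReal_inv, recip_eval, Complex.ofReal_eq_zero, aeval_def] at h2
  letI : Invertible (t⁻¹ : ℝ) := invertibleOfNonzero (inv_ne_zero ht.ne')
  have h3 : eval₂ (algebraMap ℤ ℝ) (⅟(t⁻¹ : ℝ)) (minpoly ℤ t).reverse = 0 :=
    (eval₂_reverse_eq_zero_iff (algebraMap ℤ ℝ) (t⁻¹ : ℝ) (minpoly ℤ t)).2 h2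
  rw [invOf_eq_inv, inv_inv] at h3
  obtain ⟨D, hD⟩ := minpoly.isIntegrallyClosed_dvd h.1 (show aeval t (minpoly ℤ t).reverse = 0 from h3)
  have hm0 : minpoly ℤ t ≠ 0 := hm.ne_zero
  have hr0 : (minpoly ℤ t).reverse ≠ 0 := by
    rw [Ne, reverse_eq_zero]
    exact hm0
  have hD0 : D ≠ 0 := by
    rintro rfl
    rw [mul_zero] at hD
    exact hr0 hD
  have hdeg : (minpoly ℤ t).reverse.natDegree ≤ (minpoly ℤ t).natDegree := reverse_natDegree_le _
  rw [hD, natDegree_mul hm0 hD0] at hdeg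
  have hD1 : D.natDegree = 0 := by omega
  obtain ⟨c, rfl⟩ : ∃ c, D = C c := ⟨_, eq_C_of_natDegree_eq_zero hD1⟩
  have hc : (minpoly ℤ t).reverse.coeff 0 = 1 := by
    rw [coeff_zero_reverse]
    exact hm
  rw [hD, coeff_mul_C] at hc
  have hu : IsUnit c := IsUnit.of_mul_eq_one_right _ hc
  rcases Int.isUnit_iff.1 hu with rfl | rfl
  · left
    rw [hD, C_1, mul_one]
  · right
    rw [hD, C_neg, C_1, mul_neg, mul_one]

/-- PROOF. `exists_factor`, `reverse_minpoly`, `reverse_eq_of_circle` and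
`Polynomial.reverse_mul_of_domain`. -/
theorem IsSalem.reverse_eq {t : ℝ} (hs : IsSalem t) {P : ℤ[X]} (hP : P.Monic)
    (h0 : P.coeff 0 ≠ 0) (h : Dom P t) : P.reverse = P ∨ P.reverse = -P := by
  obtain ⟨D, hD, hDm, -, hD1⟩ := exists_factor hs.1 hP h0 h
  have hr : P.reverse = (minpoly ℤ t).reverse * D.reverse := by
    rw [hD, reverse_mul_of_domain]
  rcases hs.reverse_minpoly with h1 | h1 <;> rcases reverse_eq_of_circle hDm hD1 with h2 | h2
  · left
    rw [hr, h1, h2, ← hD]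
  · right
    rw [hr, h1, h2, mul_neg, ← hD]
  · right
    rw [hr, h1, h2, neg_mul, ← hD]
  · left
    rw [hr, h1, h2, neg_mul_neg, ← hD]

end SalemLen
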