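import Pool.Agent.Lib.MP_9599cf_ntL.Lim2

/-! # The number of monomials of the limit -/

set_option autoImplicit false

namespace SalemLen

open Polynomial

/-- PROOF. As `two_len_le` (same file): for almost all `n` the coefficients with index `j ≤ J = G.natDegree` of `Q n`
and `G` agree, `N = (Q n).natDegree > 2 J + 1`; the indices `j` and `N - j` with `j ∈ G.support` are `2 card` different
elements of the support of `Q n`. -/
theorem two_card_le {k : ℕ} (U : Ultrafilter ℕ) (Q : ℕ → ℤ[X])
    (h : ∀ n, (Q n).support.card ≤ k)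
    (hrev : ∀ n, (Q n).reverse = Q n ∨ (Q n).reverse = -Q n)
    (hdeg : ∀ D : ℕ, ∀ᶠ n in (U : Filter ℕ), D ≤ (Q n).natDegree) {G : ℤ[X]}
    (hG : ∀ j, ∀ᶠ n in (U : Filter ℕ), (Q n).coeff j = G.coeff j) :
    2 * G.support.card ≤ k := by
  have h1 : ∀ᶠ n in (U : Filter ℕ), ∀ j ∈ Finset.range (G.natDegree + 1),
      (Q n).coeff j = G.coeff j :=
    (Filter.eventually_all_finset _).2 fun j _ => hG j
  obtain ⟨n, h2, h3⟩ := (h1.and (hdeg (2 * G.natDegree + 2))).exists
  have hle : ∀ j ∈ G.support, j ≤ G.natDegree := fun j hj =>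
    le_natDegree_of_mem_supp j hj
  have hcj : ∀ j ∈ G.support, (Q n).coeff j ≠ 0 := by
    intro j hj
    rw [h2 j (Finset.mem_range.2 (Nat.lt_succ_of_le (hle j hj)))]
    exact mem_support_iff.1 hj
  have hcr : ∀ j ∈ G.support, (Q n).coeff ((Q n).natDegree - j) ≠ 0 := by
    intro j hj
    have h4 : j ≤ (Q n).natDegree := by
      have := hle j hj
      omega
    have h5 : (Q n).reverse.coeff j = (Q n).coeff ((Q n).natDegree - j) := by
      rw [coeff_reverse, revAt_le h4]
    rw [← h5]
    rcases hrev n with h6 | h6
    · rw [h6]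
      exact hcj j hj
    · rw [h6, coeff_neg]
      exact neg_ne_zero.2 (hcj j hj)
  have hdisj : Disjoint G.support (G.support.image fun j => (Q n).natDegree - j) := by
    rw [Finset.disjoint_left]
    intro j hj hj'
    obtain ⟨i, hi, hij⟩ := Finset.mem_image.1 hj'
    have := hle j hj
    have := hle i hi
    omega
  have hinj : (G.support.image fun j => (Q n).natDegree - j).card = G.support.card := by
    refine Finset.card_image_of_injOn ?_
    intro i hi j hj hij
    have h7 := hle i hi
    have h8 := hle j hj
    simp only at hij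
    omega
  have hsub : G.support ∪ (G.support.image fun j => (Q n).natDegree - j) ⊆ (Q n).support := by
    intro j hj
    rw [mem_support_iff]
    rcases Finset.mem_union.1 hj with hj | hj
    · exact hcj j hj
    · obtain ⟨i, hi, rfl⟩ := Finset.mem_image.1 hj
      exact hcr i hi
  have h9 := (Finset.card_le_card hsub).trans (h n)
  rw [Finset.card_union_of_disjoint hdisj, hinj] at h9
  omega

end SalemLen
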