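import Pool.Agent.Lib.MP_9599cf_ntL.Recip
import Pool.Agent.Lib.MP_9599cf_ntL.MinPoly

/-! # Few monomials -/

set_option autoImplicit false

namespace SalemLen

open Polynomial

private theorem Card4_eval (P : ℤ[X]) (x : ℂ) :
    (cx P).eval x = ∑ i ∈ P.support, (P.coeff i : ℂ) * x ^ i := by
  rw [cx, eval_map, eval₂_eq_sum, Polynomial.sum_def]
  rfl

private theorem Card4_norm {t : ℝ} (ht : 1 < t) {i : ℕ} (hi : 0 < i) :
    1 < ‖(t : ℂ) ^ i‖ := by
  rw [norm_pow, Complex.norm_real, Real.norm_eq_abs, abs_of_pos (by linarith)]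
  exact one_lt_pow₀ ht hi.ne'

private theorem Card4_ne {t : ℝ} (ht : 1 < t) {i : ℕ} (hi : 0 < i) {u : ℤ}
    (hu : u = 1 ∨ u = -1) : (t : ℂ) ^ i + (u : ℂ) ≠ 0 := by
  intro h
  have h1 := Card4_norm ht hi
  have h2 : (t : ℂ) ^ i = -(u : ℂ) := eq_neg_of_add_eq_zero_left h
  rw [h2] at h1
  rcases hu with rfl | rfl <;> simp at h1

/-- PROOF. `P.reverse = ± P` (`IsSalem.reverse_eq`), `D = P.natDegree`, so `P.coeff (D - j) = ± P.coeff j`
(`Polynomial.coeff_reverse`), `P.coeff D = 1`, `P.coeff 0 = ± 1`; the support is symmetric under `j ↦ D - j` and contains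
`0` and `D > 0`. (a) If there are at most three monomials, `P = X ^ (2 i) + a X ^ i ± 1` with `D = 2 i` (or
`P = X ^ D ± 1`, whose roots have absolute value one, but `t` is a root). A root `z` of `minpoly ℤ t` on the unit circle
(`IsSalem`) and `t`, `1 / t` (`inv_root`) are roots of `P`; `y = t ^ i > 1` is a root of `Y ^ 2 + a Y ± 1`, the other
root is `± 1 / y`, so each root `z` of `P` has `|z ^ i| ≠ 1`: contradiction. (b) If there are four monomials,
`P = X ^ D + a X ^ (D - i) + b X ^ i + e` with `0 < i < D - i`, `e = ± 1`, `b = e a`, `len P = 2 + 2 |a|`. If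
`|a| = 1`, `P = (X ^ (D - i) + b') (X ^ i + a')` with signs (`b' = b`, `a' = a`, `a b = e`), all of whose roots have
absolute value one, but `t` is a root. So `|a| ≥ 2` and `len P ≥ 6`. -/
theorem card_cases {t : ℝ} (hs : IsSalem t) {P : ℤ[X]} (hP : P.Monic) (h0 : P.coeff 0 ≠ 0)
    (hd : Dom P t) : 4 ≤ P.support.card ∧ (P.support.card = 4 → 6 ≤ len P) := by
  classical
  have ht1 : 1 < t := hs.2.1
  have hPt : (cx P).eval (t : ℂ) = 0 := by
    obtain ⟨Q, hQ, -⟩ := hd
    rw [hQ, eval_mul, eval_sub, eval_X, eval_C, sub_self, zero_mul]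
  obtain ⟨M, hM, -, -, -⟩ := exists_factor hs.1 hP h0 hd
  obtain ⟨z, hz, hz1⟩ := hs.2.2.2
  have hPz : (cx P).eval z = 0 := by
    rw [minpoly.isIntegrallyClosed_eq_field_fractions' ℚ hs.1, aeval_map_algebraMap] at hz
    have h1 : (cx (minpoly ℤ t)).eval z = 0 := by
      rw [cx, eval_map]
      exact hz
    have h2 : cx P = cx (minpoly ℤ t) * cx M := by
      rw [cx, hM]
      exact Polynomial.map_mul _
    rw [h2, eval_mul, h1, zero_mul]
  obtain ⟨D, hDdef⟩ : ∃ D, D = P.natDegree := ⟨_, rfl⟩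
  obtain ⟨ε, hε, hsym⟩ : ∃ ε : ℤ, (ε = 1 ∨ ε = -1) ∧
      ∀ j ≤ D, P.coeff (D - j) = ε * P.coeff j := by
    rcases hs.reverse_eq hP h0 hd with h | h
    · refine ⟨1, Or.inl rfl, fun j hj => ?_⟩
      have h1 := congrArg (fun q : ℤ[X] => q.coeff j) h
      simp only [coeff_reverse] at h1
      rw [← hDdef, revAt_le hj] at h1
      rw [one_mul]
      exact h1
    · refine ⟨-1, Or.inr rfl, fun j hj => ?_⟩
      have h1 := congrArg (fun q : ℤ[X] => q.coeff j) h
      simp only [coeff_reverse, coeff_neg] at h1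
      rw [← hDdef, revAt_le hj] at h1
      rw [h1]
      ring
  have hcD : P.coeff D = 1 := by
    rw [hDdef]
    exact hP
  have hc0 : P.coeff 0 = ε := by
    have h1 := hsym D le_rfl
    rw [Nat.sub_self, hcD, mul_one] at h1
    exact h1
  have hD : 0 < D := by
    rcases Nat.eq_zero_or_pos D with h | h
    · exfalso
      have h1 : P = 1 := eq_one_of_monic_natDegree_zero hP (by omega)
      rw [h1, cx, Polynomial.map_one, eval_one] at hPt
      exact one_ne_zero hPt
    · exact h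
  have h0s : 0 ∈ P.support := mem_support_iff.2 h0
  have hDs : D ∈ P.support.erase 0 := by
    rw [Finset.mem_erase, mem_support_iff, hcD]
    exact ⟨hD.ne', one_ne_zero⟩
  obtain ⟨S, hSdef⟩ : ∃ S, S = (P.support.erase 0).erase D := ⟨_, rfl⟩
  have hcard : P.support.card = S.card + 2 := by
    rw [hSdef, Finset.card_erase_of_mem hDs, Finset.card_erase_of_mem h0s]
    have h1 : 1 ≤ (P.support.erase 0).card := Finset.card_pos.2 ⟨D, hDs⟩
    rw [Finset.card_erase_of_mem h0s] at h1
    omega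
  have hS : ∀ j ∈ S, 0 < j ∧ j < D ∧ D - j ∈ S ∧ P.coeff (D - j) = ε * P.coeff j ∧
      P.coeff j ≠ 0 := by
    intro j hj
    rw [hSdef, Finset.mem_erase, Finset.mem_erase, mem_support_iff] at hj
    obtain ⟨h1, h2, h3⟩ := hj
    have h4 : j ≤ D := by
      rw [hDdef]
      exact le_natDegree_of_ne_zero h3
    have h5 := hsym j h4
    refine ⟨by omega, by omega, ?_, h5, h3⟩
    rw [hSdef, Finset.mem_erase, Finset.mem_erase, mem_support_iff]
    refine ⟨by omega, by omega, ?_⟩
    rw [h5]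
    refine mul_ne_zero ?_ h3
    rcases hε with h | h <;> rw [h] <;> norm_num
  have hev : ∀ x : ℂ, (cx P).eval x = (ε : ℂ) + (x ^ D + ∑ i ∈ S, (P.coeff i : ℂ) * x ^ i) := by
    intro x
    rw [Card4_eval, ← Finset.add_sum_erase _ _ h0s, ← Finset.add_sum_erase _ _ hDs, ← hSdef, hcD,
      hc0, pow_zero, mul_one, Int.cast_one, one_mul]
  have hlen : len P = 2 + ∑ i ∈ S, (P.coeff i).natAbs := by
    rw [len, ← Finset.add_sum_erase _ _ h0s, ← Finset.add_sum_erase _ _ hDs, ← hSdef, hcD, hc0]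
    rcases hε with h | h <;> rw [h] <;> simp <;> ring
  rw [hev] at hPt hPz
  have hS0 : S.card ≠ 0 := by
    intro h
    rw [Finset.card_eq_zero] at h
    rw [h, Finset.sum_empty, add_zero, add_comm] at hPt
    exact Card4_ne ht1 hD hε hPt
  have hS1 : S.card ≠ 1 := by
    intro h
    obtain ⟨i, hi⟩ := Finset.card_eq_one.1 h
    obtain ⟨h1, h2, h3, -, -⟩ := hS i (by rw [hi]; exact Finset.mem_singleton_self i)
    rw [hi, Finset.mem_singleton] at h3
    have hDi : D = i + i := by omega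
    rw [hi, Finset.sum_singleton, hDi, pow_add] at hPt hPz
    have hy := Card4_norm ht1 h1
    have hw : ‖z ^ i‖ = 1 := by rw [norm_pow, hz1, one_pow]
    generalize (t : ℂ) ^ i = y at hPt hy
    generalize z ^ i = w at hPz hw
    generalize (P.coeff i : ℂ) = a at hPt hPz
    have h4 : (y - w) * (y + w + a) = 0 := by linear_combination hPt - hPz
    rcases mul_eq_zero.1 h4 with h5 | h5
    · rw [sub_eq_zero.1 h5, hw] at hy
      exact lt_irrefl _ hy
    · have h6 : w * y = (ε : ℂ) := by linear_combination y * h5 - hPt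
      have h7 : ‖w * y‖ = 1 := by
        rw [h6]
        rcases hε with h | h <;> rw [h] <;> simp
      rw [norm_mul, hw, one_mul] at h7
      rw [h7] at hy
      exact lt_irrefl _ hy
  refine ⟨by omega, fun h4 => ?_⟩
  have hS2 : S.card = 2 := by omega
  obtain ⟨i, j, hij, hSij⟩ := Finset.card_eq_two.1 hS2
  have hiS : i ∈ S := by rw [hSij]; exact Finset.mem_insert_self i _
  have hjS : j ∈ S := by rw [hSij]; exact Finset.mem_insert_of_mem (Finset.mem_singleton_self j)
  obtain ⟨i1, i2, i3, i4, i5⟩ := hS i hiS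
  obtain ⟨j1, j2, j3, -, -⟩ := hS j hjS
  rw [hSij, Finset.mem_insert, Finset.mem_singleton] at i3 j3
  have hDij : D = i + j := by omega
  have hDi : D - i = j := by omega
  rw [hDi] at i4
  rw [hlen, hSij, Finset.sum_pair hij]
  rw [hSij, Finset.sum_pair hij, i4, hDij, pow_add] at hPt
  have hab : (P.coeff j).natAbs = (P.coeff i).natAbs := by
    rw [i4, Int.natAbs_mul]
    rcases hε with h | h <;> rw [h] <;> simp
  rw [hab]
  have ha0 : 1 ≤ (P.coeff i).natAbs := Int.natAbs_pos.2 i5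
  have ha1 : (P.coeff i).natAbs ≠ 1 := by
    intro h
    have ha : P.coeff i = 1 ∨ P.coeff i = -1 := by omega
    have hεa : ε * P.coeff i = 1 ∨ ε * P.coeff i = -1 := by
      rcases hε with h | h <;> rcases ha with h' | h' <;> rw [h, h'] <;> norm_num
    have hsq : (P.coeff i : ℂ) * (P.coeff i : ℂ) = 1 := by
      rcases ha with h' | h' <;> rw [h'] <;> norm_num
    have h5 : ((t : ℂ) ^ j + (P.coeff i : ℂ)) * ((t : ℂ) ^ i + ((ε * P.coeff i : ℤ) : ℂ)) = 0 := by
      push_cast
      push_cast at hPt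
      linear_combination hPt + (ε : ℂ) * hsq
    rcases mul_eq_zero.1 h5 with h6 | h6
    · exact Card4_ne ht1 j1 ha h6
    · exact Card4_ne ht1 i1 hεa h6
  omega

end SalemLen
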