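import Pool.Agent.Lib.MP_9599cf_ntL.Height
import Pool.Agent.Lib.MP_9599cf_ntL.LenL

/-! # Few monomials, small root: bounded length -/

set_option autoImplicit false

namespace SalemLen

open Polynomial

/-- The Mahler measure of a polynomial with a dominant root. -/
private theorem lenCard_mahler {P : ℤ[X]} (hP : P.Monic) {t : ℝ} (ht : 1 < t) (hd : Dom P t) :
    (cx P).mahlerMeasure = t := by
  obtain ⟨Q, hQ, hz⟩ := hd
  have hm : (cx P).Monic := hP.map _
  have hQm : Q.Monic := by
    rw [hQ] at hm
    exact (monic_X_sub_C (t : ℂ)).of_mul_monic_left hm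
  have hQ0 : Q ≠ 0 := hQm.ne_zero
  have h1 : Q.mahlerMeasure = 1 := by
    rw [mahlerMeasure_eq_leadingCoeff_mul_prod_roots, hQm.leadingCoeff, norm_one, one_mul]
    refine Multiset.prod_eq_one ?_
    intro x hx
    obtain ⟨a, ha, rfl⟩ := Multiset.mem_map.1 hx
    exact max_eq_left (hz a ((mem_roots hQ0).1 ha))
  rw [hQ, mahlerMeasure_mul, mahlerMeasure_X_sub_C, h1, mul_one, Complex.norm_real,
    Real.norm_of_nonneg (by linarith)]
  exact max_eq_right ht.le

/-- PROOF. The roots of `cx P` are `t` (once) and numbers in the closed disc, so the Mahler measure is `t ≤ 2`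
(`Polynomial.mahlerMeasure_eq_leadingCoeff_mul_prod_roots`). By `norm_coeff_le` each coefficient is at most
`2 ^ k * 2` in absolute value, and there are at most `k` nonzero ones. -/
theorem len_le_of_card {P : ℤ[X]} (hP : P.Monic) {t : ℝ} (ht : 1 < t) (ht2 : t ≤ 2) (hd : Dom P t)
    {k : ℕ} (hk : P.support.card ≤ k) : len P ≤ k * 2 ^ (k + 1) := by
  have hM := lenCard_mahler hP ht hd
  have hs : (cx P).support = P.support := by
    unfold cx
    exact support_map_of_injective P (RingHom.injective_int (Int.castRingHom ℂ))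
  have hc : ∀ i, (P.coeff i).natAbs ≤ 2 ^ (k + 1) := by
    intro i
    have h1 := norm_coeff_le (cx P) i
    rw [hs, hM] at h1
    have h2 : ‖(cx P).coeff i‖ = ((P.coeff i).natAbs : ℝ) := by
      unfold cx
      rw [coeff_map, eq_intCast, Complex.norm_intCast, Nat.cast_natAbs, Int.cast_abs]
    rw [h2] at h1
    have h3 : (2 : ℝ) ^ P.support.card ≤ 2 ^ k := pow_le_pow_right₀ (by norm_num) hk
    have h4 : ((P.coeff i).natAbs : ℝ) ≤ ((2 ^ (k + 1) : ℕ) : ℝ) := by
      push_cast
      rw [pow_succ]
      refine h1.trans ?_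
      exact mul_le_mul h3 ht2 (by linarith) (by positivity)
    exact_mod_cast h4
  calc len P = ∑ i ∈ P.support, (P.coeff i).natAbs := rfl
    _ ≤ P.support.card • 2 ^ (k + 1) := Finset.sum_le_card_nsmul _ _ _ fun i _ => hc i
    _ = P.support.card * 2 ^ (k + 1) := by rw [smul_eq_mul]
    _ ≤ k * 2 ^ (k + 1) := Nat.mul_le_mul_right _ hk

/-- PROOF. Each nonzero coefficient has absolute value at least one. -/
theorem card_le_len (P : ℤ[X]) : P.support.card ≤ len P := by
  unfold len
  rw [Finset.card_eq_sum_ones]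
  refine Finset.sum_le_sum fun i hi => ?_
  exact Nat.one_le_iff_ne_zero.2 (Int.natAbs_ne_zero.2 (mem_support_iff.1 hi))

end SalemLen
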