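import Pool.Agent.Lib.MP_9599cf_ntL.Defs

/-! # Roots in the closed disc -/

set_option autoImplicit false

namespace SalemLen

open Polynomial

/-- A product of numbers in `[0, 1]` is in `[0, 1]`. -/
private theorem circ_prod (s : Multiset ℝ) (h : ∀ x ∈ s, 0 ≤ x ∧ x ≤ 1) :
    0 ≤ s.prod ∧ s.prod ≤ 1 := by
  induction s using Multiset.induction_on with
  | empty => simp
  | cons a s ih =>
    obtain ⟨h1, h2⟩ := ih fun x hx => h x (Multiset.mem_cons_of_mem hx)
    obtain ⟨h3, h4⟩ := h a (Multiset.mem_cons_self a s)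
    rw [Multiset.prod_cons]
    exact ⟨mul_nonneg h3 h1, mul_le_one₀ h4 h1 h2⟩

/-- PROOF. `|P(0)|` is an integer `≥ 1` and the product of the absolute values of all complex roots
(`Polynomial.prod_roots_eq_coeff_zero_of_monic_of_splits` for `cx P`), each `≤ 1`; so each is `1`
(a product of numbers in `[0, 1]` which is `≥ 1`: all are `1`). -/
theorem norm_roots_eq_one {P : ℤ[X]} (hP : P.Monic) (h0 : P.coeff 0 ≠ 0)
    (h : ∀ z : ℂ, (cx P).eval z = 0 → ‖z‖ ≤ 1) : ∀ z : ℂ, (cx P).eval z = 0 → ‖z‖ = 1 := by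
  intro z hz
  have hm : (cx P).Monic := hP.map _
  have hne : cx P ≠ 0 := hm.ne_zero
  have hzr : z ∈ (cx P).roots := (mem_roots hne).2 hz
  have hs : (cx P).Splits := IsAlgClosed.splits (cx P)
  have h1 := hs.coeff_zero_eq_prod_roots_of_monic hm
  have h2 : (1 : ℝ) ≤ ‖(cx P).coeff 0‖ := by
    rw [cx, coeff_map]
    simp only [eq_intCast, Complex.norm_intCast]
    exact_mod_cast Int.one_le_abs h0
  have h3 : ‖(cx P).coeff 0‖ = ((cx P).roots.map norm).prod := by
    rw [h1, norm_mul, norm_pow, norm_neg, norm_one, one_pow, one_mul]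
    exact map_multiset_prod (normHom (α := ℂ)) _
  have hle : ‖z‖ ≤ 1 := h z hz
  refine le_antisymm hle ?_
  by_contra hlt
  push Not at hlt
  obtain ⟨s, hs'⟩ := Multiset.exists_cons_of_mem hzr
  rw [hs', Multiset.map_cons, Multiset.prod_cons] at h3
  obtain ⟨h4, h5⟩ := circ_prod (s.map norm) (by
    intro x hx
    obtain ⟨w, hw, rfl⟩ := Multiset.mem_map.1 hx
    refine ⟨norm_nonneg w, h w ?_⟩
    have : w ∈ (cx P).roots := by
      rw [hs']
      exact Multiset.mem_cons_of_mem hw
    exact (mem_roots hne).1 this)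
  have h6 : ‖z‖ * (s.map norm).prod ≤ ‖z‖ := mul_le_of_le_one_right (norm_nonneg z) h5
  linarith

end SalemLen
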