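import Pool.Agent.Lib.MP_9599cf_ntL.MinPoly
import Pool.Agent.Lib.MP_9599cf_ntL.Circ

/-! # The cofactor of the minimal polynomial -/

set_option autoImplicit false

namespace SalemLen

open Polynomial

private theorem factor_eval (P : ℤ[X]) (t : ℝ) :
    (cx P).eval (t : ℂ) = ((aeval t P : ℝ) : ℂ) := by
  rw [cx, eval_map, aeval_def]
  have h : ((eval₂ (algebraMap ℤ ℝ) t P : ℝ) : ℂ) =
      Complex.ofRealHom (eval₂ (algebraMap ℤ ℝ) t P) := rfl
  rw [h, hom_eval₂]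
  congr 1

/-- PROOF. `t` is a root of `P`, so `P = minpoly ℤ t * D` (`minpoly.isIntegrallyClosed_dvd`), `D` monic,
`D.coeff 0 ≠ 0`. `cx (minpoly ℤ t) = (X - C t) * M` (`t` is a root), so `M * cx D` is the `Q` of `Dom P t`
(cancel `X - C t`): the roots of `D` are in the closed disc, so on the circle by `norm_roots_eq_one`. -/
theorem exists_factor {t : ℝ} (ht : IsIntegral ℤ t) {P : ℤ[X]} (hP : P.Monic)
    (h0 : P.coeff 0 ≠ 0) (h : Dom P t) :
    ∃ D : ℤ[X], P = minpoly ℤ t * D ∧ D.Monic ∧ D.coeff 0 ≠ 0 ∧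
      ∀ z : ℂ, (cx D).eval z = 0 → ‖z‖ = 1 := by
  obtain ⟨Q, hQ, hQ1⟩ := h
  have h1 : aeval t P = 0 := by
    have h2 : (cx P).eval (t : ℂ) = 0 := by
      rw [hQ, eval_mul, eval_sub, eval_X, eval_C, sub_self, zero_mul]
    rw [factor_eval] at h2
    exact Complex.ofReal_eq_zero.1 h2
  obtain ⟨D, hD⟩ := minpoly.isIntegrallyClosed_dvd ht h1
  have hm : (minpoly ℤ t).Monic := minpoly.monic ht
  have hDm : D.Monic := by
    refine Monic.of_mul_monic_left hm ?_
    rw [← hD]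
    exact hP
  have hD0 : D.coeff 0 ≠ 0 := by
    intro h2
    apply h0
    rw [hD, mul_coeff_zero, h2, mul_zero]
  have h3 : (X - C (t : ℂ)) ∣ cx (minpoly ℤ t) := by
    rw [dvd_iff_isRoot, IsRoot.def, factor_eval, minpoly.aeval, Complex.ofReal_zero]
  obtain ⟨M, hM⟩ := h3
  have h4 : Q = M * cx D := by
    have h5 : (X - C (t : ℂ)) * Q = (X - C (t : ℂ)) * (M * cx D) := by
      rw [← hQ, ← mul_assoc, ← hM, hD]
      exact Polynomial.map_mul _
    exact mul_left_cancel₀ (X_sub_C_ne_zero (t : ℂ)) h5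
  refine ⟨D, hD, hDm, hD0, norm_roots_eq_one hDm hD0 fun z hz => hQ1 z ?_⟩
  rw [h4, eval_mul, hz, mul_zero]

end SalemLen
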