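import Pool.Agent.Lib.MP_9599cf_ntL.Defs

/-! # Length and number of monomials: definition -/

set_option autoImplicit false

namespace SalemLen

open Polynomial

/-- The Salem numbers `t` which are a root of a monic integer polynomial of length at most `B` (which may be
infinite), with at most `k` monomials, all of whose other complex roots are in the closed unit disc. -/
def TT (B : ℕ∞) (k : ℕ) : Set ℝ :=
  {t | IsSalem t ∧ ∃ P : ℤ[X], P.Monic ∧ (len P : ℕ∞) ≤ B ∧ P.support.card ≤ k ∧ Dom P t}

end SalemLen
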