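import Mathlib

/-!
# MP_9599cf_nt: Salem numbers of bounded length: definitions (helper40)

`T B` is the set of the Salem numbers which are a simple root of a monic integer polynomial of length
at most `B` all of whose other complex roots are in the closed unit disc.
-/

set_option autoImplicit false

namespace SalemLen

open Polynomial

/-- Salem numbers (as in the frozen statement): real algebraic integers `t > 1` whose other
conjugates are in the closed unit disk, at least one of them on the unit circle. -/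
def IsSalem (t : ℝ) : Prop :=
  IsIntegral ℤ t ∧ 1 < t ∧
    (∀ z : ℂ, Polynomial.aeval z (minpoly ℚ t) = 0 → z ≠ (t : ℂ) → ‖z‖ ≤ 1) ∧
    (∃ z : ℂ, Polynomial.aeval z (minpoly ℚ t) = 0 ∧ ‖z‖ = 1)

/-- The length of an integer polynomial: the sum of the absolute values of the coefficients. -/
def len (P : ℤ[X]) : ℕ := ∑ i ∈ P.support, (P.coeff i).natAbs

/-- The polynomial with complex coefficients. -/
noncomputable def cx (P : ℤ[X]) : ℂ[X] := P.map (Int.castRingHom ℂ)

/-- `t` is a root of `P`, and all other roots of `P` (counted with multiplicity) are in the closed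
unit disc. -/
def Dom (P : ℤ[X]) (t : ℝ) : Prop :=
  ∃ Q : ℂ[X], cx P = (X - C (t : ℂ)) * Q ∧ ∀ z : ℂ, Q.eval z = 0 → ‖z‖ ≤ 1

/-- The Salem numbers of length at most `B`. -/
def T (B : ℕ) : Set ℝ := {t | IsSalem t ∧ ∃ P : ℤ[X], P.Monic ∧ len P ≤ B ∧ Dom P t}

/-! ### Mahler measures on circles of radius `r` -/

/-- The Mahler measure of `P (r X)`. -/
noncomputable def mr (r : ℝ) (P : ℂ[X]) : ℝ := (P.comp (C (r : ℂ) * X)).mahlerMeasure

/-! ### Pisot polynomials -/

/-- `h` is a monic integer polynomial with the simple root `c > 1`, all other roots in the open unit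
disc, not vanishing at `0` and at `1 / c`. -/
structure Pis (h : ℤ[X]) (c : ℝ) : Prop where
  monic : h.Monic
  gt : 1 < c
  dom : ∃ k : ℂ[X], cx h = (X - C (c : ℂ)) * k ∧ ∀ z : ℂ, k.eval z = 0 → ‖z‖ < 1
  inv : (cx h).eval ((c : ℂ)⁻¹) ≠ 0
  zero : h.coeff 0 ≠ 0

/-- Salem's polynomials. -/
noncomputable def sal (h : ℤ[X]) (m : ℕ) (ε : ℤ) : ℤ[X] := X ^ m * h + C ε * h.reverse

/-! ### Laurent polynomials in several variables -/

/-- The exponents. -/
abbrev E (k : ℕ) : Type := Fin k → ℤ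

/-- Laurent polynomials in `k` variables. -/
abbrev R (k : ℕ) : Type := AddMonoidAlgebra ℤ (E k)

/-- The scalar product. -/
def dot {k : ℕ} (m n : E k) : ℤ := ∑ i, m i * n i

theorem dot_add {k : ℕ} (m m' n : E k) : dot (m + m') n = dot m n + dot m' n := by
  simp only [dot, Pi.add_apply, add_mul, Finset.sum_add_distrib]

theorem dot_zero {k : ℕ} (n : E k) : dot (0 : E k) n = 0 := by
  simp only [dot, Pi.zero_apply, zero_mul, Finset.sum_const_zero]

theorem dot_smul {k : ℕ} (c : ℤ) (m n : E k) : dot (c • m) n = c * dot m n := by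
  simp only [dot, Pi.smul_apply, smul_eq_mul, Finset.mul_sum, mul_assoc]

theorem dot_neg {k : ℕ} (m n : E k) : dot (-m) n = - dot m n := by
  simp only [dot, Pi.neg_apply, neg_mul, Finset.sum_neg_distrib]

theorem dot_sub {k : ℕ} (m m' n : E k) : dot (m - m') n = dot m n - dot m' n := by
  rw [sub_eq_add_neg, dot_add, dot_neg, sub_eq_add_neg]

/-- The character of `E k`. -/
noncomputable def chi {k : ℕ} (n : E k) (z : ℂˣ) : Multiplicative (E k) →* ℂ where
  toFun m := ((z ^ dot m.toAdd n : ℂˣ) : ℂ)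
  map_one' := by
    change ((z ^ dot (0 : E k) n : ℂˣ) : ℂ) = 1
    rw [dot_zero, zpow_zero, Units.val_one]
  map_mul' a b := by
    change ((z ^ dot (a.toAdd + b.toAdd) n : ℂˣ) : ℂ) = _
    rw [dot_add, zpow_add, Units.val_mul]

/-- The value of `F` at `(z ^ n_1, …, z ^ n_k)`. -/
noncomputable def ev {k : ℕ} (n : E k) (z : ℂˣ) : R k →+* ℂ :=
  (AddMonoidAlgebra.lift ℤ ℂ (E k) (chi n z)).toRingHom

theorem ev_apply {k : ℕ} (n : E k) (z : ℂˣ) (F : R k) :
    ev n z F = ∑ m ∈ F.coeff.support, (F.coeff m : ℂ) * ((z ^ dot m n : ℂˣ) : ℂ) := by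
  change AddMonoidAlgebra.lift ℤ ℂ (E k) (chi n z) F = _
  rw [AddMonoidAlgebra.lift_apply, Finsupp.sum]
  refine Finset.sum_congr rfl fun m _ => ?_
  rw [zsmul_eq_mul]
  rfl

theorem ev_single {k : ℕ} (n : E k) (z : ℂˣ) (m : E k) (a : ℤ) :
    ev n z (AddMonoidAlgebra.single m a) = (a : ℂ) * ((z ^ dot m n : ℂˣ) : ℂ) := by
  change AddMonoidAlgebra.lift ℤ ℂ (E k) (chi n z) (AddMonoidAlgebra.single m a) = _
  rw [AddMonoidAlgebra.lift_single, zsmul_eq_mul]
  rfl

/-- The Laurent polynomials that vanish identically for almost all exponent vectors `n τ`. -/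
def nul {k : ℕ} (U : Ultrafilter ℕ) (n : ℕ → E k) : Ideal (R k) where
  carrier := {F | ∀ᶠ τ in (U : Filter ℕ), ∀ z : ℂˣ, ev (n τ) z F = 0}
  add_mem' := by
    intro F G hF hG
    filter_upwards [hF, hG] with τ h1 h2 z
    rw [map_add, h1 z, h2 z, add_zero]
  zero_mem' := by
    refine Filter.Eventually.of_forall fun τ z => ?_
    rw [map_zero]
  smul_mem' := by
    intro c F hF
    filter_upwards [hF] with τ h1 z
    rw [smul_eq_mul, map_mul, h1 z, mul_zero]

/-- `F (x ^ n)` is not identically zero, vanishes at `t`, and its other zeros are conjugates of `t`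
or roots of unity. -/
structure Good {k : ℕ} (F : R k) (n : E k) (t : ℝ) : Prop where
  ne : ∃ z : ℂˣ, ev n z F ≠ 0
  root : ∀ z : ℂˣ, (z : ℂ) = t → ev n z F = 0
  zeros : ∀ z : ℂˣ, ev n z F = 0 → (cx (minpoly ℤ t)).eval (z : ℂ) = 0 ∨
    ∃ j : ℕ, 0 < j ∧ z ^ j = 1

/-- `Φ_N (X ^ a)`. -/
noncomputable def cyc {k : ℕ} (N : ℕ) (a : E k) : R k :=
  Polynomial.aeval (AddMonoidAlgebra.single a (1 : ℤ) : R k) (Polynomial.cyclotomic N ℤ)

theorem ev_cyc {k : ℕ} (N : ℕ) (a n : E k) (z : ℂˣ) :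
    ev n z (cyc N a) = (Polynomial.cyclotomic N ℂ).eval ((z ^ dot a n : ℂˣ) : ℂ) := by
  have h1 : ev n z (cyc N a) = Polynomial.eval₂ (Int.castRingHom ℂ)
      (ev n z (AddMonoidAlgebra.single a (1 : ℤ))) (Polynomial.cyclotomic N ℤ) := by
    rw [cyc, Polynomial.aeval_def, Polynomial.hom_eval₂]
    congr 1
    exact RingHom.ext_int _ _
  rw [h1, ev_single, ← Polynomial.eval_map, Polynomial.map_cyclotomic]
  simp

end SalemLen
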