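import Pool.Agent.Lib.MP_9599cf_ntL.Defs

/-! # Blocks: definitions -/

set_option autoImplicit false

namespace SalemLen

open Polynomial

/-- The block sums vanish at `z`, and `z` to the power `N (m - m') n` is one for `m`, `m'` in one block. -/
def Blk {k : ℕ} (F : R k) (P : Finpartition F.coeff.support) (N : ℕ) (n : E k) (z : ℂˣ) : Prop :=
  (∀ b ∈ P.parts, ∑ m ∈ b, (F.coeff m : ℂ) * ((z ^ dot m n : ℂˣ) : ℂ) = 0) ∧
  (∀ b ∈ P.parts, ∀ m ∈ b, ∀ m' ∈ b, z ^ ((N : ℤ) * dot (m - m') n) = 1)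

/-- The pairs in one block. -/
def pairs {k : ℕ} {s : Finset (E k)} (P : Finpartition s) : Finset (E k × E k) :=
  P.parts.biUnion fun b => b ×ˢ b

theorem mem_pairs {k : ℕ} {s : Finset (E k)} (P : Finpartition s) (q : E k × E k) :
    q ∈ pairs P ↔ ∃ b ∈ P.parts, q.1 ∈ b ∧ q.2 ∈ b := by
  simp only [pairs, Finset.mem_biUnion, Finset.mem_product]

/-- The greatest common divisor of the differences in the blocks. -/
def pg {k : ℕ} {s : Finset (E k)} (P : Finpartition s) (n : E k) : ℕ :=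
  (pairs P).gcd fun q => (dot (q.1 - q.2) n).natAbs

end SalemLen
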