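import Pool.Agent.Lib.MP_9599cf_ntL.BlkDef

/-! # Counting -/

set_option autoImplicit false

namespace SalemLen

open Polynomial

/-- PROOF. Bezout: the gcd `pg P n` is an integer combination of the numbers `dot (q.1 - q.2) n`,
`q ∈ pairs P` (`Finset.gcd_eq_gcd_image`, `Finset.exists_sum_eq_gcd` or by induction on the finset: the set of
the integers `x` with `z ^ (N * x) = 1` is a subgroup of `ℤ`, generated by one `d`, which divides all
`dot (q.1 - q.2) n`, so `d ∣ pg P n` by `Finset.dvd_gcd`). -/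
theorem Blk.pow_eq_one {k : ℕ} {F : R k} {P : Finpartition F.coeff.support} {N : ℕ} {n : E k}
    {z : ℂˣ} (h : Blk F P N n z) : z ^ (N * pg P n) = 1 := by
  rw [pow_mul, ← orderOf_dvd_iff_pow_eq_one]
  unfold pg
  refine Finset.dvd_gcd fun q hq => ?_
  obtain ⟨b, hb, h1, h2⟩ := (mem_pairs P q).1 hq
  have h3 := h.2 b hb q.1 h1 q.2 h2
  rw [zpow_mul, zpow_natCast, ← orderOf_dvd_iff_zpow_eq_one] at h3
  exact Int.natCast_dvd.1 h3

/-- PROOF. If `pg P n = 0` all differences `dot (m - m') n` in the blocks vanish (`Finset.gcd_eq_zero_iff`), so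
`z' ^ dot m n` is constant on each block for every `z'`, the block sum at `z'` is `z' ^ dot m' n * ∑ F.coeff m`,
where `∑ F.coeff m = 0` by the block sum at `z`; so `ev n z' F = 0` for all `z'` (`ev_apply`,
`P.sum_parts`-type lemma: sum over the support is the sum over the blocks). -/
theorem Blk.pg_pos {k : ℕ} {F : R k} {P : Finpartition F.coeff.support} {N : ℕ} {n : E k}
    {z : ℂˣ} (h : Blk F P N n z) (hne : ∃ z' : ℂˣ, ev n z' F ≠ 0) : 0 < pg P n := by
  obtain ⟨z', hz'⟩ := hne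
  by_contra h0
  have h0' : pg P n = 0 := by omega
  apply hz'
  rw [ev_apply]
  have hsum : ∑ m ∈ F.coeff.support, (F.coeff m : ℂ) * ((z' ^ dot m n : ℂˣ) : ℂ)
      = ∑ b ∈ P.parts, ∑ m ∈ b, (F.coeff m : ℂ) * ((z' ^ dot m n : ℂˣ) : ℂ) := by
    have h1 := Finset.sum_biUnion (s := P.parts) (t := id)
      (f := fun m => (F.coeff m : ℂ) * ((z' ^ dot m n : ℂˣ) : ℂ)) P.disjoint
    rw [P.biUnion_parts] at h1
    exact h1
  rw [hsum]
  refine Finset.sum_eq_zero fun b hb => ?_
  obtain ⟨m', hm'⟩ := P.nonempty_of_mem_parts hb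
  have hd : ∀ m ∈ b, dot m n = dot m' n := by
    intro m hm
    have h2 : (m, m') ∈ pairs P := (mem_pairs P (m, m')).2 ⟨b, hb, hm, hm'⟩
    have h3 := (Finset.gcd_eq_zero_iff.1 h0') (m, m') h2
    have h4 : dot (m - m') n = 0 := Int.natAbs_eq_zero.1 h3
    rw [dot_sub] at h4
    linarith
  have hc : ∑ m ∈ b, (F.coeff m : ℂ) = 0 := by
    have h2 := h.1 b hb
    rw [Finset.sum_congr rfl (g := fun m => (F.coeff m : ℂ) * ((z ^ dot m' n : ℂˣ) : ℂ))
      fun m hm => by rw [hd m hm], ← Finset.sum_mul] at h2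
    exact (mul_eq_zero.1 h2).resolve_right (Units.ne_zero _)
  rw [Finset.sum_congr rfl (g := fun m => (F.coeff m : ℂ) * ((z' ^ dot m' n : ℂˣ) : ℂ))
      fun m hm => by rw [hd m hm], ← Finset.sum_mul, hc, zero_mul]

end SalemLen
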