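import Pool.Agent.Lib.MP_9599cf_ntL.NormZ

/-! # The inequality of Dobrowolski -/

set_option autoImplicit false

namespace SalemLen

open Polynomial

private theorem dob_norm_le (P : ℤ[X]) (w : ℂ) (M : ℝ)
    (hM : ∀ i : ℕ, i ≤ P.natDegree → ‖w‖ ^ i ≤ M) : ‖(cx P).eval w‖ ≤ (len P : ℝ) * M := by
  have h1 : (cx P).eval w = ∑ i ∈ P.support, (P.coeff i : ℂ) * w ^ i := by
    rw [cx, Polynomial.eval_map, Polynomial.eval₂_eq_sum, Polynomial.sum]
    rfl
  rw [h1, len, Nat.cast_sum, Finset.sum_mul]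
  refine (norm_sum_le _ _).trans (Finset.sum_le_sum fun i hi => ?_)
  rw [norm_mul, norm_pow]
  have h2 : ‖(P.coeff i : ℂ)‖ = (((P.coeff i).natAbs : ℕ) : ℝ) := by
    rw [Complex.norm_intCast, Nat.cast_natAbs, Int.cast_abs]
  rw [h2]
  exact mul_le_mul_of_nonneg_left (hM i (Polynomial.le_natDegree_of_mem_supp i hi)) (Nat.cast_nonneg _)

private theorem dob_frob (P : ℤ[X]) {p : ℕ} (hp : p.Prime) :
    ∃ H : ℤ[X], Polynomial.expand ℤ p P = P ^ p + Polynomial.C (p : ℤ) * H := by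
  have : Fact p.Prime := ⟨hp⟩
  have h1 : (Polynomial.expand ℤ p P - P ^ p).map (Int.castRingHom (ZMod p)) = 0 := by
    rw [Polynomial.map_sub, Polynomial.map_pow, Polynomial.map_expand, ZMod.expand_card, sub_self]
  have h2 : Polynomial.C (p : ℤ) ∣ (Polynomial.expand ℤ p P - P ^ p) := by
    rw [Polynomial.C_dvd_iff_dvd_coeff]
    intro i
    have h3 := congrArg (fun q => Polynomial.coeff q i) h1
    simp only [Polynomial.coeff_map, Polynomial.coeff_zero] at h3
    exact (ZMod.intCast_zmod_eq_zero_iff_dvd _ p).mp (by simpa using h3)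
  obtain ⟨H, hH⟩ := h2
  exact ⟨H, by rw [← hH]; ring⟩

private theorem dob_eval_expand (P : ℤ[X]) (p : ℕ) (z : ℂ) :
    (cx (Polynomial.expand ℤ p P)).eval z = (cx P).eval (z ^ p) := by
  rw [cx, Polynomial.map_expand, Polynomial.expand_eval]
  rfl

private theorem dob_nodup {t : ℝ} (ht : IsIntegral ℤ t) : (cx (minpoly ℤ t)).roots.Nodup := by
  have h1 : minpoly ℚ t = (minpoly ℤ t).map (algebraMap ℤ ℚ) :=
    minpoly.isIntegrallyClosed_eq_field_fractions' ℚ ht
  have h2 : (minpoly ℚ t).Separable := (minpoly.irreducible (ht.tower_top)).separable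
  have h3 : cx (minpoly ℤ t) = (minpoly ℚ t).map (algebraMap ℚ ℂ) := by
    rw [h1, Polynomial.map_map, cx]
    congr 1
  rw [h3]
  exact Polynomial.nodup_roots h2.map

/-- PROOF. `S = minpoly ℤ t`. `P (X ^ p) = P ^ p + p H` with `H ∈ ℤ[X]` (`Polynomial.expand` and the Frobenius
modulo `p`: `ZMod.expand_card`, or `Polynomial.expand`, coefficients mod `p`); for a root `z` of `S`, `P (z) = 0`,
so `P (z ^ p) = p H (z)`. `S ∤ H` since `H (t) ≠ 0`. By `one_le_prod`, `∏ ‖P (z ^ p)‖ ≥ p ^ d`, `d = S.natDegree`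
(the number of roots). On the other side `‖P (z ^ p)‖ ≤ len P` for `‖z‖ ≤ 1` and
`‖P (t ^ p)‖ ≤ len P * t ^ (p * P.natDegree)`; `t` is a simple root of `S` (separable). -/
theorem dobrowolski {t : ℝ} (ht : IsIntegral ℤ t) (ht1 : 1 < t)
    (hroots : ∀ z : ℂ, (cx (minpoly ℤ t)).eval z = 0 → z ≠ t → ‖z‖ ≤ 1) {P : ℤ[X]}
    (hdvd : minpoly ℤ t ∣ P) {p : ℕ} (hp : p.Prime) (hne : (cx P).eval ((t : ℂ) ^ p) ≠ 0) :
    (p : ℝ) ^ (minpoly ℤ t).natDegree ≤
      (len P : ℝ) ^ (minpoly ℤ t).natDegree * t ^ (p * P.natDegree) := by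
  set S : ℤ[X] := minpoly ℤ t with hSdef
  have hSm : S.Monic := minpoly.monic ht
  have hSi : Irreducible S := minpoly.irreducible ht
  have hcm : (cx S).Monic := hSm.map _
  have hcard : Multiset.card (cx S).roots = S.natDegree := by
    have h := IsAlgClosed.splits (cx S)
    have h2 := h.natDegree_eq_card_roots
    rw [← h2, cx]
    exact hSm.natDegree_map _
  obtain ⟨H, hH⟩ := dob_frob P hp
  have hroot0 : ∀ z : ℂ, (cx S).eval z = 0 → (cx P).eval z = 0 := by
    intro z hz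
    obtain ⟨W, hW⟩ := hdvd
    rw [hW, cx, Polynomial.map_mul, Polynomial.eval_mul]
    have hz' : ((S.map (Int.castRingHom ℂ))).eval z = 0 := hz
    rw [hz', zero_mul]
  have hkey : ∀ z : ℂ, (cx S).eval z = 0 → (cx P).eval (z ^ p) = (p : ℂ) * (cx H).eval z := by
    intro z hz
    rw [← dob_eval_expand, hH, cx, Polynomial.map_add, Polynomial.map_mul, Polynomial.map_pow,
      Polynomial.eval_add, Polynomial.eval_mul, Polynomial.eval_pow]
    have h0 : (P.map (Int.castRingHom ℂ)).eval z = 0 := hroot0 z hz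
    rw [h0, zero_pow hp.ne_zero, zero_add, Polynomial.map_C, Polynomial.eval_C]
    simp [cx]
  have ht0 : (cx S).eval (t : ℂ) = 0 := by
    have h1 : Polynomial.aeval t S = 0 := minpoly.aeval ℤ t
    have h2 : (cx S).eval (t : ℂ) = ((Polynomial.aeval t S : ℝ) : ℂ) := by
      rw [cx, Polynomial.eval_map, Polynomial.aeval_def]
      have h3 := Polynomial.hom_eval₂ S (algebraMap ℤ ℝ) (algebraMap ℝ ℂ) t
      have h4 : (algebraMap ℝ ℂ).comp (algebraMap ℤ ℝ) = Int.castRingHom ℂ := RingHom.ext_int _ _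
      rw [h4] at h3
      exact h3.symm
    rw [h2, h1, Complex.ofReal_zero]
  have hndvd : ¬ S ∣ H := by
    intro hd
    apply hne
    rw [hkey _ ht0]
    obtain ⟨W, hW⟩ := hd
    have h1 : (cx H).eval (t : ℂ) = 0 := by
      rw [hW, cx, Polynomial.map_mul, Polynomial.eval_mul]
      have hz' : ((S.map (Int.castRingHom ℂ))).eval (t : ℂ) = 0 := ht0
      rw [hz', zero_mul]
    rw [h1, mul_zero]
  have hone := one_le_prod hSm hSi H hndvd
  have hlow : (p : ℝ) ^ S.natDegree ≤ ((cx S).roots.map fun z => ‖(cx P).eval (z ^ p)‖).prod := by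
    have h1 : ((cx S).roots.map fun z => ‖(cx P).eval (z ^ p)‖)
        = ((cx S).roots.map fun z => (p : ℝ) * ‖(cx H).eval z‖) := by
      refine Multiset.map_congr rfl fun z hz => ?_
      rw [hkey z ((Polynomial.mem_roots hcm.ne_zero).mp hz), norm_mul, Complex.norm_natCast]
    rw [h1, Multiset.prod_map_mul, Multiset.map_const', Multiset.prod_replicate, hcard]
    have hp0 : (0 : ℝ) ≤ (p : ℝ) ^ S.natDegree := pow_nonneg (Nat.cast_nonneg _) _
    nlinarith [mul_le_mul_of_nonneg_left hone hp0]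
  refine hlow.trans ?_
  have htmem : (t : ℂ) ∈ (cx S).roots := (Polynomial.mem_roots hcm.ne_zero).mpr ht0
  obtain ⟨rest, hrest⟩ := Multiset.exists_cons_of_mem htmem
  have hnd : (cx S).roots.Nodup := dob_nodup ht
  rw [hrest] at hnd hcard
  rw [hrest, Multiset.map_cons, Multiset.prod_cons]
  rw [Multiset.card_cons] at hcard
  have hrestmem : ∀ z ∈ rest, (cx S).eval z = 0 ∧ z ≠ (t : ℂ) := by
    intro z hz
    refine ⟨(Polynomial.mem_roots hcm.ne_zero).mp (by rw [hrest]; exact Multiset.mem_cons_of_mem hz), ?_⟩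
    intro h
    exact (Multiset.nodup_cons.mp hnd).1 (h ▸ hz)
  have hb1 : ‖(cx P).eval ((t : ℂ) ^ p)‖ ≤ (len P : ℝ) * t ^ (p * P.natDegree) := by
    refine dob_norm_le P _ _ fun i hi => ?_
    rw [norm_pow, Complex.norm_real, Real.norm_of_nonneg (by linarith), ← pow_mul]
    exact pow_le_pow_right₀ ht1.le (Nat.mul_le_mul_left p hi)
  have hb2 : (rest.map fun z => ‖(cx P).eval (z ^ p)‖).prod ≤ (len P : ℝ) ^ Multiset.card rest := by
    have h1 : (rest.map fun z => ‖(cx P).eval (z ^ p)‖).prod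
        ≤ (rest.map fun _ => (len P : ℝ)).prod := by
      refine Multiset.prod_map_le_prod_map₀ _ _ (fun z _ => norm_nonneg _) fun z hz => ?_
      have h2 := dob_norm_le P (z ^ p) 1 (fun i _ => ?_)
      · rwa [mul_one] at h2
      · rw [norm_pow, ← pow_mul]
        exact pow_le_one₀ (norm_nonneg _) (hroots z (hrestmem z hz).1 (hrestmem z hz).2)
    rwa [Multiset.map_const', Multiset.prod_replicate] at h1
  have hn0 : 0 ≤ (rest.map fun z => ‖(cx P).eval (z ^ p)‖).prod :=
    Multiset.prod_nonneg (by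
      intro a ha
      obtain ⟨z, _, rfl⟩ := Multiset.mem_map.mp ha
      exact norm_nonneg _)
  have hfin := mul_le_mul hb1 hb2 hn0 (by positivity)
  refine hfin.trans (le_of_eq ?_)
  rw [← hcard, pow_succ]
  ring

end SalemLen
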