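import Pool.Agent.Lib.MP_9599cf_ntL.Defs

/-! # A small Salem number -/

set_option autoImplicit false

namespace SalemLen

open Polynomial

private theorem ex_circle {c : ℝ} (hc : |c| < 2) {z : ℂ} (hz : z ^ 2 - c * z + 1 = 0) :
    ‖z‖ = 1 := by
  have h1 := congrArg Complex.re hz
  have h2 := congrArg Complex.im hz
  simp only [pow_two, Complex.add_re, Complex.sub_re, Complex.mul_re, Complex.ofReal_re,
    Complex.ofReal_im, Complex.one_re, Complex.zero_re, Complex.add_im, Complex.sub_im,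
    Complex.mul_im, Complex.one_im, Complex.zero_im] at h1 h2
  obtain ⟨hc1, hc2⟩ := abs_lt.1 hc
  have h3 : z.im * (2 * z.re - c) = 0 := by linarith
  rcases mul_eq_zero.1 h3 with h | h
  · exfalso
    rw [h] at h1
    nlinarith [sq_nonneg (2 * z.re - c)]
  · have h4 : c = 2 * z.re := by linarith
    rw [h4] at h1
    have h5 : z.re * z.re + z.im * z.im = 1 := by linarith
    have h6 : ‖z‖ ^ 2 = 1 := by
      rw [← Complex.normSq_eq_norm_sq, Complex.normSq_apply, h5]
    have h7 : 0 ≤ ‖z‖ := norm_nonneg z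
    nlinarith

private noncomputable def exP : ℤ[X] := X ^ 4 - X ^ 3 - X ^ 2 - X + 1

private theorem ex_monic : exP.Monic := by
  unfold exP
  monicity!

private theorem ex_len : len exP ≤ 5 := by
  have hdeg : exP.natDegree ≤ 4 := by
    unfold exP
    compute_degree
  have hsub : exP.support ⊆ Finset.range 5 := by
    intro i hi
    have := le_natDegree_of_mem_supp i hi
    exact Finset.mem_range.2 (by omega)
  unfold len
  refine (Finset.sum_le_sum_of_subset hsub).trans ?_
  simp [Finset.sum_range_succ, exP, coeff_X, coeff_one]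

/-- The real root `1.72…` of `X ^ 4 - X ^ 3 - X ^ 2 - X + 1` is a Salem number. -/
theorem exists_small_dom : ∃ t : ℝ, IsSalem t ∧ t < 2 ∧
    Dom (X ^ 4 - X ^ 3 - X ^ 2 - X + 1 : ℤ[X]) t := by
  obtain ⟨s, hs⟩ : ∃ s : ℝ, s = √13 := ⟨_, rfl⟩
  have hs2 : s ^ 2 = 13 := by rw [hs]; exact Real.sq_sqrt (by norm_num)
  have hs0 : 0 ≤ s := by rw [hs]; exact Real.sqrt_nonneg _
  have hs3 : 3.6 < s := by nlinarith
  have hs4 : s < 3.61 := by nlinarith
  obtain ⟨b, hb⟩ : ∃ b : ℝ, b = (1 + s) / 2 := ⟨_, rfl⟩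
  obtain ⟨b', hb'⟩ : ∃ b' : ℝ, b' = (1 - s) / 2 := ⟨_, rfl⟩
  have hbb : b + b' = 1 := by rw [hb, hb']; ring
  have hbb2 : b * b' = -3 := by rw [hb, hb']; nlinarith
  obtain ⟨w, hw⟩ : ∃ w : ℝ, w = √(b ^ 2 - 4) := ⟨_, rfl⟩
  have hb4 : 0 ≤ b ^ 2 - 4 := by rw [hb]; nlinarith
  have hw2 : w ^ 2 = b ^ 2 - 4 := by rw [hw]; exact Real.sq_sqrt hb4
  have hw0 : 0 ≤ w := by rw [hw]; exact Real.sqrt_nonneg _
  have hw3 : w < 1.2 := by
    have : w ^ 2 = (s - 1) / 2 := by rw [hw2, hb]; nlinarith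
    nlinarith
  obtain ⟨t, ht⟩ : ∃ t : ℝ, t = (b + w) / 2 := ⟨_, rfl⟩
  have ht1 : 1 < t := by rw [ht, hb]; linarith
  have ht2 : t < 2 := by rw [ht, hb]; linarith
  have ht0 : t ≠ 0 := by linarith
  have htt : t * t - b * t + 1 = 0 := by rw [ht]; nlinarith
  have hinv : t + t⁻¹ = b := by
    field_simp
    nlinarith
  have hirr : Irrational b := by
    have h13 : Irrational s := by
      rw [hs]
      have : Nat.Prime 13 := by norm_num
      exact_mod_cast this.irrational_sqrt
    rintro ⟨q, hq⟩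
    apply h13
    refine ⟨2 * q - 1, ?_⟩
    push_cast
    rw [hq, hb]
    ring
  -- the factors over `ℂ`
  obtain ⟨A, hA⟩ : ∃ A : ℂ[X], A = X ^ 2 - C (b : ℂ) * X + 1 := ⟨_, rfl⟩
  obtain ⟨B, hB⟩ : ∃ B : ℂ[X], B = X ^ 2 - C (b' : ℂ) * X + 1 := ⟨_, rfl⟩
  have hAt : A = (X - C (t : ℂ)) * (X - C ((t : ℂ)⁻¹)) := by
    have h1 : C (t : ℂ) * C ((t : ℂ)⁻¹) = 1 := by
      rw [← C_mul, mul_inv_cancel₀ (by exact_mod_cast ht0), C_1]
    have h2 : C (t : ℂ) + C ((t : ℂ)⁻¹) = C (b : ℂ) := by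
      rw [← C_add]
      congr 1
      exact_mod_cast hinv
    rw [hA, ← h2]
    linear_combination - h1
  have hAB : cx exP = A * B := by
    have h1 : C (b : ℂ) + C (b' : ℂ) = 1 := by
      rw [← C_add, ← C_1]
      congr 1
      exact_mod_cast hbb
    have h2 : C (b : ℂ) * C (b' : ℂ) = -3 := by
      rw [← C_mul]
      have : (b : ℂ) * b' = -3 := by exact_mod_cast hbb2
      rw [this, C_neg]
      congr 1
    have h3 : cx exP = X ^ 4 - X ^ 3 - X ^ 2 - X + 1 := by
      simp [cx, exP]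
    rw [h3, hA, hB]
    linear_combination (X ^ 3 + X) * h1 - X ^ 2 * h2
  have hBr : ∀ z : ℂ, B.eval z = 0 → ‖z‖ = 1 := by
    intro z hz
    apply ex_circle (c := b')
    · rw [abs_lt, hb']
      constructor <;> linarith
    · rw [hB] at hz
      simpa using hz
  have hdom : Dom exP t := by
    refine ⟨(X - C ((t : ℂ)⁻¹)) * B, by rw [hAB, hAt, mul_assoc], ?_⟩
    intro z hz
    rw [eval_mul, mul_eq_zero] at hz
    rcases hz with hz | hz
    · have : z = (t : ℂ)⁻¹ := by
        rw [eval_sub, eval_X, eval_C, sub_eq_zero] at hz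
        exact hz
      rw [this, norm_inv, Complex.norm_real, Real.norm_eq_abs, abs_of_pos (by linarith)]
      exact inv_le_one_of_one_le₀ ht1.le
    · exact (hBr z hz).le
  have hroot : (cx exP).eval (t : ℂ) = 0 := by
    obtain ⟨Q, hQ, -⟩ := hdom
    rw [hQ, eval_mul, eval_sub, eval_X, eval_C, sub_self, zero_mul]
  have haevc : ∀ z : ℂ, aeval z exP = (cx exP).eval z := by
    intro z
    rw [cx, eval_map, aeval_def]
    rfl
  have haev : aeval t exP = 0 := by
    have h1 : ((aeval t exP : ℝ) : ℂ) = 0 := by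
      rw [← hroot, ← haevc]
      exact (aeval_algebraMap_apply ℂ t exP).symm
    exact_mod_cast h1
  have hint : IsIntegral ℤ t := ⟨exP, ex_monic, by rw [← aeval_def]; exact haev⟩
  obtain ⟨m, hm⟩ : ∃ m : ℚ[X], m = minpoly ℚ t := ⟨_, rfl⟩
  have hintQ : IsIntegral ℚ t := hint.tower_top
  have hmonic : m.Monic := by rw [hm]; exact minpoly.monic hintQ
  have hmdvd : m ∣ exP.map (Int.castRingHom ℚ) := by
    rw [hm]
    apply minpoly.dvd
    exact (aeval_map_algebraMap ℚ t exP).trans haev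
  have hmt : aeval t m = 0 := by rw [hm]; exact minpoly.aeval ℚ t
  obtain ⟨M, hM⟩ : ∃ M : ℂ[X], M = m.map (algebraMap ℚ ℂ) := ⟨_, rfl⟩
  have hMmonic : M.Monic := by rw [hM]; exact hmonic.map _
  have hMdvd : M ∣ cx exP := by
    have h1 := Polynomial.map_dvd (algebraMap ℚ ℂ) hmdvd
    rw [Polynomial.map_map] at h1
    rw [hM]
    exact h1
  have hMe : ∀ z : ℂ, aeval z m = M.eval z := by
    intro z
    rw [hM, eval_map, aeval_def]
  refine ⟨t, ⟨hint, ht1, ?_, ?_⟩, ht2, hdom⟩
  · intro z hz hzt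
    rw [← hm, hMe] at hz
    obtain ⟨Q, hQ, hQ2⟩ := hdom
    have h1 : (cx exP).eval z = 0 := by
      obtain ⟨N, hN⟩ := hMdvd
      rw [hN, eval_mul, hz, zero_mul]
    rw [hQ, eval_mul, eval_sub, eval_X, eval_C, mul_eq_zero, sub_eq_zero] at h1
    rcases h1 with h1 | h1
    · exact absurd h1 hzt
    · exact hQ2 z h1
  · by_contra hno
    push Not at hno
    have hcop : IsCoprime M B := by
      rw [isCoprime_iff_aeval_ne_zero_of_isAlgClosed ℂ ℂ]
      intro z
      by_contra hz
      push Not at hz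
      obtain ⟨hz1, hz2⟩ := hz
      rw [coe_aeval_eq_eval] at hz1 hz2
      exact hno z (by rw [← hm, hMe]; exact hz1) (hBr z hz2)
    have hMA : M ∣ A := by
      rw [hAB] at hMdvd
      exact hcop.dvd_of_dvd_mul_right hMdvd
    have hAdeg : A.natDegree = 2 := by
      rw [hA]
      compute_degree!
    have hAmonic : A.Monic := by
      rw [hA]
      monicity!
    have hle : M.natDegree ≤ 2 := by
      rw [← hAdeg]
      exact natDegree_le_of_dvd hMA hAmonic.ne_zero
    have hMm : M.natDegree = m.natDegree := by rw [hM, natDegree_map]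
    have hpos : 0 < m.natDegree := by rw [hm]; exact minpoly.natDegree_pos hintQ
    rcases Nat.lt_or_ge m.natDegree 2 with h2 | h2
    · -- degree one
      have h1 : m.natDegree = 1 := by omega
      have h3 : m = X + C (m.coeff 0) := by
        have h4 := eq_X_add_C_of_natDegree_le_one h1.le
        rw [h4]
        have h5 : m.coeff 1 = 1 := by rw [← h1]; exact hmonic
        rw [h5]
        simp
      rw [h3, map_add, aeval_X, aeval_C] at hmt
      apply hirr
      refine ⟨-(m.coeff 0) + (-(m.coeff 0))⁻¹, ?_⟩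
      have h6 : t = -((m.coeff 0 : ℚ) : ℝ) := by
        have : t + ((m.coeff 0 : ℚ) : ℝ) = 0 := hmt
        linarith
      push_cast
      rw [← h6, hinv]
    · -- degree two
      have h3 : M = A := by
        obtain ⟨N, hN⟩ := hMA
        have hNm : N.Monic := hMmonic.of_mul_monic_left (hN ▸ hAmonic)
        have hNd : N.natDegree = 0 := by
          have := congrArg natDegree hN
          rw [hMmonic.natDegree_mul hNm, hAdeg] at this
          omega
        rw [hN, hNm.natDegree_eq_zero.1 hNd, mul_one]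
      have h4 := congrArg (fun q => q.coeff 1) h3
      simp only [hM, hA, coeff_map] at h4
      simp [coeff_one] at h4
      apply hirr
      refine ⟨-(m.coeff 1), ?_⟩
      have h5 : ((m.coeff 1 : ℚ) : ℂ) = -(b : ℂ) := by
        exact h4
      have h6 : ((m.coeff 1 : ℚ) : ℝ) = -b := by exact_mod_cast h5
      push_cast
      rw [h6, neg_neg]

/-- The real root `1.72…` of `X ^ 4 - X ^ 3 - X ^ 2 - X + 1` is a Salem number of length five. -/
theorem exists_small : ∃ t ∈ T 5, t < 2 := by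
  obtain ⟨t, h1, h2, h3⟩ := exists_small_dom
  exact ⟨t, ⟨h1, exP, ex_monic, ex_len, h3⟩, h2⟩

end SalemLen
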