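import Pool.Agent.Lib.MP_9599cf_ntL.Ex

/-! # A small Salem number with four monomials -/

set_option autoImplicit false

namespace SalemLen

open Polynomial

private noncomputable def ex4P : ℤ[X] := X ^ 5 - 2 * X ^ 4 + 2 * X - 1

private theorem ex4_monic : ex4P.Monic := by
  unfold ex4P
  monicity!

private theorem ex4_coeff (i : ℕ) : ex4P.coeff i =
    (if i = 5 then 1 else 0) - 2 * (if i = 4 then 1 else 0) + 2 * (if i = 1 then 1 else 0) -
      (if i = 0 then 1 else 0) := by
  have h : ex4P = X ^ 5 - C 2 * X ^ 4 + C 2 * X - C 1 := by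
    unfold ex4P
    simp
  rw [h, coeff_sub, coeff_add, coeff_sub, coeff_C_mul, coeff_C_mul, coeff_X_pow, coeff_X_pow,
    coeff_X, coeff_C]
  have h1 : (if 1 = i then (1 : ℤ) else 0) = if i = 1 then 1 else 0 :=
    if_congr eq_comm rfl rfl
  rw [h1]

private theorem ex4_support : ex4P.support ⊆ {0, 1, 4, 5} := by
  intro i hi
  rw [mem_support_iff, ex4_coeff] at hi
  simp only [Finset.mem_insert, Finset.mem_singleton]
  by_contra hno
  apply hi
  have h0 : i ≠ 0 := fun h => hno (by omega)
  have h1 : i ≠ 1 := fun h => hno (by omega)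
  have h4 : i ≠ 4 := fun h => hno (by omega)
  have h5 : i ≠ 5 := fun h => hno (by omega)
  simp [h0, h1, h4, h5]

private theorem ex4_len : len ex4P ≤ 6 := by
  unfold len
  refine (Finset.sum_le_sum_of_subset ex4_support).trans ?_
  rw [Finset.sum_insert (by decide), Finset.sum_insert (by decide), Finset.sum_insert (by decide),
    Finset.sum_singleton]
  simp only [ex4_coeff]
  decide

/-- PROOF. `P = (X - 1) (X ^ 4 - X ^ 3 - X ^ 2 - X + 1) = X ^ 5 - 2 X ^ 4 + 2 X - 1` and the Salem number of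
`exists_small` (`Ex.lean`): `t` is the root `1.72…` of `X ^ 4 - X ^ 3 - X ^ 2 - X + 1`. -/
theorem exists_small4 : ∃ t : ℝ, IsSalem t ∧ t < 2 ∧ ∃ P : ℤ[X], P.Monic ∧ len P ≤ 6 ∧
    P.support.card ≤ 4 ∧ Dom P t := by
  obtain ⟨t, h1, h2, Q, hQ, hQ2⟩ := exists_small_dom
  refine ⟨t, h1, h2, ex4P, ex4_monic, ex4_len, (Finset.card_le_card ex4_support).trans (by decide),
    (X - 1) * Q, ?_, ?_⟩
  · have h3 : cx ex4P = (X - 1) * cx (X ^ 4 - X ^ 3 - X ^ 2 - X + 1) := by
      simp only [cx, ex4P, Polynomial.map_sub, Polynomial.map_add, Polynomial.map_mul,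
        Polynomial.map_pow, Polynomial.map_X, Polynomial.map_one, Polynomial.map_ofNat]
      ring
    rw [h3, hQ]
    ring
  · intro z hz
    rw [eval_mul, mul_eq_zero] at hz
    rcases hz with hz | hz
    · rw [eval_sub, eval_X, eval_one, sub_eq_zero] at hz
      rw [hz, norm_one]
    · exact hQ2 z hz

end SalemLen
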