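import Pool.Agent.Lib.MP_9599cf_ntL.Defs

/-! # Finiteness -/

set_option autoImplicit false

namespace SalemLen

open Polynomial

theorem Fin_natAbs_coeff_le (P : ℤ[X]) (i : ℕ) : (P.coeff i).natAbs ≤ len P := by
  by_cases h : i ∈ P.support
  · exact Finset.single_le_sum (f := fun i => (P.coeff i).natAbs) (fun _ _ => Nat.zero_le _) h
  · rw [notMem_support_iff.1 h]
    simp

/-- PROOF. The coefficients with index `≤ D` are in `[-B, B]`, the others vanish: the map
`P ↦ (fun i : Fin (D + 1) => P.coeff i)` is injective on this set, with values in a finite set. -/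
theorem finite_len (B D : ℕ) : {P : ℤ[X] | len P ≤ B ∧ P.natDegree ≤ D}.Finite := by
  have hfin : (Set.pi Set.univ fun _ : Fin (D + 1) => Set.Icc (-(B : ℤ)) B).Finite :=
    Set.Finite.pi fun _ => Set.finite_Icc _ _
  refine (hfin.image fun c : Fin (D + 1) → ℤ => ∑ i : Fin (D + 1), (monomial (i : ℕ) (c i) : ℤ[X])).subset ?_
  rintro P ⟨h1, h2⟩
  refine ⟨fun i => P.coeff i, ?_, ?_⟩
  · intro i _
    have h := (Fin_natAbs_coeff_le P i).trans h1
    simp only [Set.mem_Icc]
    omega
  · have h := P.as_sum_range' (D + 1) (Nat.lt_succ_of_le h2)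
    rw [← Fin.sum_univ_eq_sum_range (fun i => monomial i (P.coeff i))] at h
    exact h.symm

/-- PROOF. `t` is determined by `P`: the real root of the monic polynomial `P` (not zero) greater than one
(two such `t` would be roots of the other's cofactor); or: each `P ≠ 0` has finitely many real roots, so
the set is contained in a finite union of finite sets. -/
theorem finite_dom (B D : ℕ) :
    {t : ℝ | ∃ P : ℤ[X], P.Monic ∧ len P ≤ B ∧ P.natDegree ≤ D ∧ Dom P t}.Finite := by
  refine ((finite_len B D).biUnion fun P _ => P.rootSet_finite ℝ).subset ?_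
  rintro t ⟨P, hP, h1, h2, Q, hQ, -⟩
  simp only [Set.mem_iUnion]
  refine ⟨P, ⟨h1, h2⟩, ?_⟩
  rw [mem_rootSet]
  refine ⟨hP.ne_zero, ?_⟩
  have h3 : (cx P).eval (t : ℂ) = 0 := by
    rw [hQ]
    simp
  have h4 : ((aeval t P : ℝ) : ℂ) = (cx P).eval (t : ℂ) := by
    rw [cx, eval_map, aeval_def]
    have h5 := Polynomial.hom_eval₂ P (algebraMap ℤ ℝ) Complex.ofRealHom t
    have h6 : Complex.ofRealHom.comp (algebraMap ℤ ℝ) = Int.castRingHom ℂ := RingHom.ext_int _ _
    rw [h6] at h5
    exact h5
  rw [h3] at h4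
  exact_mod_cast h4

end SalemLen
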