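import Pool.Agent.Lib.MP_9599cf_ntL.Defs

/-! # The coefficientwise limit -/

set_option autoImplicit false

namespace SalemLen

open Polynomial

private theorem Lim1_sum_le (P : ℤ[X]) (J : Finset ℕ) :
    ∑ j ∈ J, (P.coeff j).natAbs ≤ len P := by
  unfold len
  refine Finset.sum_le_sum_of_ne_zero fun j _ hj => ?_
  rw [Polynomial.mem_support_iff]
  intro h0
  exact hj (by rw [h0]; rfl)

private theorem Lim1_coeff_le (P : ℤ[X]) (j : ℕ) : (P.coeff j).natAbs ≤ len P := by
  have h := Lim1_sum_le P {j}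
  rwa [Finset.sum_singleton] at h

private theorem Lim1_const {B : ℕ} (U : Ultrafilter ℕ) (Q : ℕ → ℤ[X]) (h : ∀ n, len (Q n) ≤ B)
    (j : ℕ) : ∃ g : ℤ, ∀ᶠ n in (U : Filter ℕ), (Q n).coeff j = g := by
  have hcov : (⋃ g ∈ (Set.Icc (-(B : ℤ)) (B : ℤ)), {n : ℕ | (Q n).coeff j = g}) ∈ U := by
    have : (⋃ g ∈ (Set.Icc (-(B : ℤ)) (B : ℤ)), {n : ℕ | (Q n).coeff j = g}) = Set.univ := by
      refine Set.eq_univ_of_forall fun n => ?_
      have h1 : ((Q n).coeff j).natAbs ≤ B := (Lim1_coeff_le (Q n) j).trans (h n)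
      have h2 : (Q n).coeff j ∈ Set.Icc (-(B : ℤ)) (B : ℤ) := by
        rw [Set.mem_Icc]
        omega
      exact Set.mem_biUnion h2 rfl
    rw [this]
    exact Filter.univ_mem
  obtain ⟨g, -, hg⟩ :=
    (Ultrafilter.finite_biUnion_mem_iff (Set.finite_Icc (-(B : ℤ)) (B : ℤ))).1 hcov
  exact ⟨g, hg⟩

/-- PROOF. For each `j` the integer `(R n).coeff j` is in `[-B, B]`, so it is constant for almost all `n`
with respect to the ultrafilter (finitely many values: `Ultrafilter.eventually_or`, or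
`Ultrafilter.finite_biUnion_mem_iff`); let `g j` be this value. For each `J`,
`∑ j < J, |g j| ≤ B` (finitely many conditions hold for a common `n`), so `g` has finite support (at most `B`
nonzero values); `G = ∑ g j X ^ j` (`Polynomial.ofFinsupp` or `∑ j in range J, monomial j (g j)`). -/
theorem exists_limit {B : ℕ} (U : Ultrafilter ℕ) (Q : ℕ → ℤ[X]) (h : ∀ n, len (Q n) ≤ B) :
    ∃ G : ℤ[X], ∀ j, ∀ᶠ n in (U : Filter ℕ), (Q n).coeff j = G.coeff j := by
  choose g hg using Lim1_const U Q h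
  have hsum : ∀ J : Finset ℕ, ∑ j ∈ J, (g j).natAbs ≤ B := by
    intro J
    have hall : ∀ᶠ n in (U : Filter ℕ), ∀ j ∈ J, (Q n).coeff j = g j :=
      (Filter.eventually_all_finset J).2 fun j _ => hg j
    obtain ⟨n, hn⟩ := hall.exists
    calc ∑ j ∈ J, (g j).natAbs = ∑ j ∈ J, ((Q n).coeff j).natAbs :=
          Finset.sum_congr rfl fun j hj => by rw [hn j hj]
      _ ≤ len (Q n) := Lim1_sum_le (Q n) J
      _ ≤ B := h n
  have hfin : {j : ℕ | g j ≠ 0}.Finite := by
    by_contra hinf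
    obtain ⟨J, hJ, hcard⟩ := Set.Infinite.exists_subset_card_eq hinf (B + 1)
    have h1 : ∑ _j ∈ J, 1 ≤ ∑ j ∈ J, (g j).natAbs := by
      refine Finset.sum_le_sum fun j hj => ?_
      have h2 : g j ≠ 0 := hJ hj
      omega
    rw [Finset.sum_const, smul_eq_mul, mul_one, hcard] at h1
    have h2 := hsum J
    omega
  refine ⟨∑ j ∈ hfin.toFinset, Polynomial.monomial j (g j), fun j => ?_⟩
  have hc : (∑ i ∈ hfin.toFinset, Polynomial.monomial i (g i)).coeff j = g j := by
    rw [Polynomial.finsetSum_coeff]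
    simp only [Polynomial.coeff_monomial]
    rw [Finset.sum_ite_eq']
    split_ifs with hj
    · rfl
    · rw [Set.Finite.mem_toFinset, Set.mem_ofPred_eq, not_not] at hj
      exact hj.symm
  filter_upwards [hg j] with n hn
  rw [hn, hc]

end SalemLen
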