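import Pool.Agent.Lib.MP_9599cf_ntL.Defs

/-! # Reversed polynomials -/

set_option autoImplicit false

namespace SalemLen

open Polynomial

private theorem Rev_cx (P : ℤ[X]) : cx P.reverse = (cx P).reverse := by
  have hinj : Function.Injective (Int.castRingHom ℂ) := Int.cast_injective
  ext n
  rw [cx, cx, coeff_map, coeff_reverse, coeff_reverse, coeff_map,
    natDegree_map_eq_of_injective hinj]

private theorem Rev_lin (c : ℂ) : (X - C c : ℂ[X]).reverse = 1 - C c * X := by
  ext n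
  rw [coeff_reverse, natDegree_X_sub_C]
  rcases n with _ | _ | n
  · rw [revAt_le (by norm_num)]
    simp
  · rw [revAt_le (by norm_num)]
    simp [coeff_one]
  · rw [revAt_eq_self_of_lt (by omega)]
    have h1 : (X : ℂ[X]).coeff (n + 1 + 1) = 0 := coeff_X_of_ne_one (by omega)
    rw [coeff_sub, coeff_sub, coeff_C_mul, h1, coeff_C_of_ne_zero (by omega), coeff_one]
    simp

private theorem Rev_deg {c : ℂ} (hc : c ≠ 0) : (1 - C c * X : ℂ[X]).natDegree = 1 := by
  have h1 : (1 - C c * X : ℂ[X]) = C (-c) * X + C 1 := by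
    rw [C_neg, C_1]
    ring
  rw [h1]
  exact natDegree_linear (neg_ne_zero.2 hc)

private theorem Rev_lin' {c : ℂ} (hc : c ≠ 0) : (1 - C c * X : ℂ[X]).reverse = X - C c := by
  ext n
  rw [coeff_reverse, Rev_deg hc]
  rcases n with _ | _ | n
  · rw [revAt_le (by norm_num)]
    simp [coeff_one]
  · rw [revAt_le (by norm_num)]
    simp
  · rw [revAt_eq_self_of_lt (by omega)]
    have h1 : (X : ℂ[X]).coeff (n + 1 + 1) = 0 := coeff_X_of_ne_one (by omega)
    rw [coeff_sub, coeff_sub, coeff_C_mul, h1, coeff_C_of_ne_zero (by omega), coeff_one]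
    simp

private theorem Rev_zero (Q : ℂ[X]) {z : ℂ} (hz : z ≠ 0) (h : Q.reverse.eval z = 0) :
    Q.eval z⁻¹ = 0 := by
  let inst : Invertible (z⁻¹) := invertibleOfNonzero (inv_ne_zero hz)
  have h1 := eval₂_reverse_mul_pow (RingHom.id ℂ) (z⁻¹) Q
  rw [invOf_eq_inv, inv_inv] at h1
  have h2 : eval₂ (RingHom.id ℂ) z Q.reverse = 0 := h
  rw [h2, zero_mul] at h1
  exact h1.symm

private theorem Rev_len (P : ℤ[X]) : len P = ∑ i ∈ Finset.range (P.natDegree + 1),
    (P.coeff i).natAbs := by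
  refine Finset.sum_subset supp_subset_range_natDegree_succ fun i _ hi => ?_
  rw [notMem_support_iff.1 hi]
  rfl

/-- PROOF. `cx P = (X - C t) * Q`, `Q` monic, `Q (0) ≠ 0`; reverse: `(X - C t).reverse = 1 - C t * X` (as
`t ≠ 0`), `Polynomial.reverse_mul_of_domain`, `cx` commutes with `reverse` (injective ring hom), so
`cx P.reverse = (1 - C t * X) * Q.reverse`; `Q.reverse.eval 0 = Q.leadingCoeff = 1`; a zero `z` of
`Q.reverse` is not `0` and `z⁻¹` is a zero of `Q` (`Polynomial.eval₂_reverse_eq_zero_iff` or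
`Polynomial.reverse` and `eval` of the inverse), so `‖z⁻¹‖ ≤ 1`. -/
theorem rev_of_dom {P : ℤ[X]} (hP : P.Monic) (h0 : P.coeff 0 ≠ 0) {t : ℝ} (ht : 1 < t)
    (h : Dom P t) : ∃ Q : ℂ[X], cx P.reverse = (1 - C (t : ℂ) * X) * Q ∧ Q.eval 0 = 1 ∧
      ∀ z : ℂ, Q.eval z = 0 → 1 ≤ ‖z‖ := by
  obtain ⟨Q, hQ, hz⟩ := h
  have hm : (cx P).Monic := hP.map _
  have hQm : Q.Monic := by
    rw [hQ] at hm
    exact (monic_X_sub_C (t : ℂ)).of_mul_monic_left hm
  have he : Q.reverse.eval 0 = 1 := by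
    rw [← coeff_zero_eq_eval_zero, coeff_zero_reverse]
    exact hQm
  refine ⟨Q.reverse, ?_, he, ?_⟩
  · rw [Rev_cx, hQ, reverse_mul_of_domain, Rev_lin]
  · intro z h1
    have hz0 : z ≠ 0 := by
      rintro rfl
      rw [he] at h1
      exact one_ne_zero h1
    have h2 := hz _ (Rev_zero Q hz0 h1)
    rw [norm_inv] at h2
    exact (inv_le_one₀ (norm_pos_iff.2 hz0)).1 h2

/-- PROOF. The same computation for `G`: `G.coeff 0 = 1` (from the factorisation), so `G.reverse` is monic,
of degree `G.natDegree`, `G.reverse.coeff 0 = G.leadingCoeff ≠ 0`,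
`cx G.reverse = (X - C c) * H.reverse`, the zeros of `H.reverse` are inverses of zeros of `H` (or `0`, not
possible). `len` is invariant under `reverse` (the coefficients are permuted). -/
theorem dom_of_rev {G : ℤ[X]} {c : ℝ} (hc : 1 < c) {H : ℂ[X]}
    (h : cx G = (1 - C (c : ℂ) * X) * H) (h0 : H.eval 0 = 1)
    (h1 : ∀ z : ℂ, H.eval z = 0 → 1 ≤ ‖z‖) :
    G.reverse.Monic ∧ G.reverse.coeff 0 ≠ 0 ∧ Dom G.reverse c ∧ len G.reverse = len G := by
  have hc0 : (c : ℂ) ≠ 0 := by
    have : c ≠ 0 := by linarith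
    exact_mod_cast this
  have hG0 : G.coeff 0 = 1 := by
    have h2 : (cx G).eval 0 = 1 := by
      rw [h, eval_mul, h0]
      simp
    rw [← coeff_zero_eq_eval_zero, cx, coeff_map] at h2
    have h3 : ((G.coeff 0 : ℤ) : ℂ) = ((1 : ℤ) : ℂ) := by
      rw [Int.cast_one]
      exact h2
    exact Int.cast_injective h3
  have hG0' : G.coeff 0 ≠ 0 := by
    rw [hG0]
    exact one_ne_zero
  have hGne : G ≠ 0 := by
    rintro rfl
    simp at hG0
  have htr : G.natTrailingDegree = 0 := natTrailingDegree_eq_zero.2 (Or.inr hG0')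
  have hdeg : G.reverse.natDegree = G.natDegree := by
    rw [reverse_natDegree, htr, Nat.sub_zero]
  refine ⟨?_, ?_, ?_, ?_⟩
  · rw [Monic, reverse_leadingCoeff, trailingCoeff, htr, hG0]
  · rw [coeff_zero_reverse]
    exact leadingCoeff_ne_zero.2 hGne
  · refine ⟨H.reverse, ?_, ?_⟩
    · rw [Rev_cx, h, reverse_mul_of_domain, Rev_lin' hc0]
    · intro z hz
      by_cases hz0 : z = 0
      · rw [hz0, norm_zero]
        exact zero_le_one
      · have h2 := h1 _ (Rev_zero H hz0 hz)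
        rw [norm_inv] at h2
        have hp := norm_pos_iff.2 hz0
        exact (one_le_inv₀ hp).1 h2
  · rw [Rev_len, Rev_len, hdeg]
    rw [← Finset.sum_range_reflect (fun i => (G.coeff i).natAbs) (G.natDegree + 1)]
    refine Finset.sum_congr rfl fun i hi => ?_
    have hi' : i ≤ G.natDegree := Nat.lt_succ_iff.1 (Finset.mem_range.1 hi)
    rw [coeff_reverse, revAt_le hi']
    congr 2

end SalemLen
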