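import Pool.Agent.Lib.MP_9599cf_ntL.Strip
import Pool.Agent.Lib.MP_9599cf_ntL.Recip
import Pool.Agent.Lib.MP_9599cf_ntL.Lim1
import Pool.Agent.Lib.MP_9599cf_ntL.Lim2
import Pool.Agent.Lib.MP_9599cf_ntL.Lim3
import Pool.Agent.Lib.MP_9599cf_ntL.Rev
import Pool.Agent.Lib.MP_9599cf_ntL.Fin
import Pool.Agent.Lib.MP_9599cf_ntL.Pisot
import Pool.Agent.Lib.MP_9599cf_ntL.Sal2
import Pool.Agent.Lib.MP_9599cf_ntL.Sal3
import Pool.Agent.Lib.MP_9599cf_ntL.Sal4
import Pool.Agent.Lib.MP_9599cf_ntL.LenL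

/-! # The infimum is attained -/

set_option autoImplicit false

namespace SalemLen

open Polynomial

/-- If the infimum of `T B` is in the interval `(1, 2)`, it is attained. -/
theorem attained {B : ℕ} {c : ℝ} (hc : 1 < c) (hc2 : c < 2) (hglb : IsGLB (T B) c) : c ∈ T B := by
  by_contra hcT
  have h1 : ∀ n : ℕ, ∃ t : ℝ, IsSalem t ∧ c < t ∧ t < c + 1 / ((n : ℝ) + 1) ∧
      ∃ P : ℤ[X], P.Monic ∧ len P ≤ B ∧ Dom P t ∧ P.coeff 0 ≠ 0 := by
    intro n
    obtain ⟨t, ht, h2, h3⟩ := hglb.exists_between (show c < c + 1 / ((n : ℝ) + 1) by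
      have : (0 : ℝ) < 1 / ((n : ℝ) + 1) := by positivity
      linarith)
    have h4 : c ≠ t := fun h => hcT (h ▸ ht)
    obtain ⟨hs, P, hP, hl, hd⟩ := ht
    obtain ⟨P', g1, g2, g3, g4⟩ := exists_coeff_zero hP hs.2.1 hd
    exact ⟨t, hs, lt_of_le_of_ne h2 h4, h3, P', g1, by rw [g2]; exact hl, g3, g4⟩
  choose t hs hct hlt P hP hl hd h0 using h1
  obtain ⟨U, hU⟩ : ∃ U : Ultrafilter ℕ, (U : Filter ℕ) ≤ Filter.atTop :=
    ⟨Filter.hyperfilter ℕ, by rw [← Nat.cofinite_eq_atTop]; exact Filter.hyperfilter_le_cofinite⟩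
  have hz : Filter.Tendsto (fun n : ℕ => 1 / ((n : ℝ) + 1)) (U : Filter ℕ) (nhds 0) :=
    tendsto_one_div_add_atTop_nhds_zero_nat.mono_left hU
  have htend : Filter.Tendsto t (U : Filter ℕ) (nhds c) := by
    have h2 : Filter.Tendsto (fun n : ℕ => c + 1 / ((n : ℝ) + 1)) (U : Filter ℕ) (nhds c) := by
      simpa using hz.const_add c
    exact tendsto_of_tendsto_of_tendsto_of_le_of_le tendsto_const_nhds h2
      (fun n => (hct n).le) (fun n => (hlt n).le)
  -- the degrees tend to infinity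
  have hdegP : ∀ D : ℕ, ∀ᶠ n in (U : Filter ℕ), D ≤ (P n).natDegree := by
    intro D
    by_contra hcon
    have hcon' : ∀ᶠ n in (U : Filter ℕ), ¬ D ≤ (P n).natDegree :=
      Ultrafilter.eventually_not.2 hcon
    have hfin : ((fun s : ℝ => s) '' {s | s ∈ {t : ℝ | ∃ P : ℤ[X], P.Monic ∧ len P ≤ B ∧
        P.natDegree ≤ D ∧ Dom P t} ∧ c < s}).Finite :=
      ((finite_dom B D).subset (fun s hs => hs.1)).image _
    rw [Set.image_id'] at hfin
    have h5 : ∃ ε : ℝ, 0 < ε ∧ ∀ s ∈ {s | s ∈ {t : ℝ | ∃ P : ℤ[X], P.Monic ∧ len P ≤ B ∧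
        P.natDegree ≤ D ∧ Dom P t} ∧ c < s}, c + ε ≤ s := by
      rcases Set.eq_empty_or_nonempty {s | s ∈ {t : ℝ | ∃ P : ℤ[X], P.Monic ∧ len P ≤ B ∧
        P.natDegree ≤ D ∧ Dom P t} ∧ c < s} with he | hne
      · exact ⟨1, one_pos, fun s hs => by rw [he] at hs; exact absurd hs (Set.notMem_empty s)⟩
      · obtain ⟨s0, hs0, hmin⟩ := Set.exists_min_image _ id hfin hne
        refine ⟨s0 - c, by linarith [hs0.2], fun s hs => ?_⟩
        have := hmin s hs
        simp only [id] at this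
        linarith
    obtain ⟨ε, hε, h6⟩ := h5
    obtain ⟨n, g1, g2⟩ := (hcon'.and (hz.eventually (gt_mem_nhds hε))).exists
    have := h6 (t n) ⟨⟨P n, hP n, hl n, by omega, hd n⟩, hct n⟩
    linarith [hlt n]
  have hrevP : ∀ n, (P n).reverse = P n ∨ (P n).reverse = -P n := fun n =>
    (hs n).reverse_eq (hP n) (h0 n) (hd n)
  obtain ⟨G, hG⟩ := exists_limit (B := B) U (fun n => (P n).reverse)
    (fun n => by rw [len_reverse]; exact hl n)
  have h2len : 2 * len G ≤ B := by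
    refine two_len_le U (fun n => (P n).reverse) (fun n => by rw [len_reverse]; exact hl n)
      (fun n => ?_) (fun D => ?_) hG
    · rcases hrevP n with h | h
      · left
        simp only [h]
      · right
        simp only [h, Polynomial.reverse_neg, neg_neg]
    · filter_upwards [hdegP D] with n h
      rcases hrevP n with g | g
      · rw [g]
        exact h
      · rw [g, Polynomial.natDegree_neg]
        exact h
  have hrev := fun n => rev_of_dom (hP n) (h0 n) (hs n).2.1 (hd n)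
  choose Q' hQ1 hQ2 hQ3 using hrev
  obtain ⟨H, hH1, hH2, hH3⟩ := limit_zeros (B := B) U (fun n => (P n).reverse)
    (fun n => by rw [len_reverse]; exact hl n) hG t hc htend Q' hQ1 hQ2 hQ3
  obtain ⟨hg1, hg2, hg3, hg4⟩ := dom_of_rev hc hH1 hH2 hH3
  have hns : ¬ IsSalem c := fun hsc => hcT ⟨hsc, G.reverse, hg1, by omega, hg3⟩
  obtain ⟨h, D, hgD, hpis, hDm, hDr, hDc⟩ := exists_pisot hg1 hg2 hc hc2 hg3 hns
  obtain ⟨ε, hε, hroot⟩ := hpis.exists_root (δ := 1) one_pos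
  obtain ⟨m, ⟨s, hs1, -, hsc, hs0⟩, hcount, hm⟩ :=
    (hroot.and (hpis.count.and (Filter.eventually_ge_atTop 1))).exists
  obtain ⟨hsal, hdom, hmon⟩ := hpis.salem hm hε hs1 (hsc.trans hc2) hs0 (hcount ε hε)
  refine absurd (hglb.1 ⟨hsal, D * sal h m ε, hDm.mul hmon, ?_, ?_⟩) (not_le.2 hsc)
  · -- the length
    have hrg : G.reverse.reverse = h.reverse * D.reverse := by
      rw [hgD, Polynomial.reverse_mul_of_domain]
    have key : ∃ ε' : ℤ, |ε'| = 1 ∧
        D * sal h m ε = X ^ m * G.reverse + C ε' * G.reverse.reverse := by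
      rcases hDr with hD | hD
      · refine ⟨ε, hε, ?_⟩
        rw [hrg, hD, hgD, sal]
        ring
      · refine ⟨-ε, by rw [abs_neg]; exact hε, ?_⟩
        rw [hrg, hD, hgD, sal, C_neg]
        ring
    obtain ⟨ε', hε', hkey⟩ := key
    rw [hkey]
    exact (len_sal_le _ _ hε').trans (by omega)
  · -- the zeros
    obtain ⟨Q, hQ, hQz⟩ := hdom
    refine ⟨cx D * Q, ?_, fun z hz => ?_⟩
    · have h7 : cx (D * sal h m ε) = cx D * cx (sal h m ε) := Polynomial.map_mul _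
      rw [h7, hQ]
      ring
    · rw [Polynomial.eval_mul] at hz
      rcases mul_eq_zero.1 hz with h7 | h7
      · exact (hDc z h7).le
      · exact hQz z h7

end SalemLen
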