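import Pool.Agent.Lib.MP_9599cf_ntL.Main1
import Pool.Agent.Lib.MP_9599cf_ntL.Main2
import Pool.Agent.Lib.MP_9599cf_ntL.Ex

/-! # The least element -/

set_option autoImplicit false

namespace SalemLen

open Polynomial

theorem T_mono {B B' : ℕ} (h : B ≤ B') : T B ⊆ T B' := by
  rintro t ⟨hs, P, h1, h2, h3⟩
  exact ⟨hs, P, h1, h2.trans h, h3⟩

/-- For each `B ≥ 5` the set `T B` has a least element. -/
theorem exists_least (B : ℕ) (hB : 5 ≤ B) : ∃ t ∈ T B, ∀ s ∈ T B, t ≤ s := by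
  obtain ⟨t0, ht0, ht02⟩ := exists_small
  have hne : (T B).Nonempty := ⟨t0, T_mono hB ht0⟩
  obtain ⟨δ, hδ, hiso⟩ := isolated B
  have hbdd : BddBelow (T B) := ⟨1 + δ, hiso⟩
  have hglb := isGLB_csInf hne hbdd
  have h1 : 1 < sInf (T B) := by
    have := hglb.2 hiso
    linarith
  have h2 : sInf (T B) < 2 := lt_of_le_of_lt (hglb.1 (T_mono hB ht0)) ht02
  exact ⟨sInf (T B), attained h1 h2 hglb, fun s hs => hglb.1 hs⟩

end SalemLen
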