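import Pool.Agent.Lib.MP_9599cf_ntL.Defs

/-! # Division by a generalized cyclotomic factor -/

set_option autoImplicit false

namespace SalemLen

open Polynomial

/-- PROOF. For almost all `τ` and all `z`: `ev F = Φ_N (z ^ dot a n) * ev F1` (`ev_cyc`, membership in `nul`). So
`ev F1` is not zero where `ev F` is not zero; at `z = t`, `z ^ dot a n = t ^ dot a n > 1` is a real number, not a root
of unity, so `Φ_N` does not vanish there (`N > 0`; the roots of `cyclotomic N ℂ` are primitive `N`-th roots of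
unity, of absolute value one) and `ev F1 = 0`; a zero of `ev F1` is a zero of `ev F`. -/
theorem good_of_factor {k : ℕ} (U : Ultrafilter ℕ) (n : ℕ → E k) (t : ℕ → ℝ)
    (ht : ∀ τ, 1 < t τ) {F F1 : R k} {N : ℕ} {a : E k} (hN : 0 < N)
    (ha : ∀ᶠ τ in (U : Filter ℕ), 0 < dot a (n τ)) (h : F - cyc N a * F1 ∈ nul U n)
    (hF : ∀ᶠ τ in (U : Filter ℕ), Good F (n τ) (t τ)) :
    ∀ᶠ τ in (U : Filter ℕ), Good F1 (n τ) (t τ) := by
  have h' : ∀ᶠ τ in (U : Filter ℕ), ∀ z : ℂˣ, ev (n τ) z (F - cyc N a * F1) = 0 := h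
  filter_upwards [ha, h', hF] with τ h1 h2 h3
  have key : ∀ z : ℂˣ, ev (n τ) z F =
      (Polynomial.cyclotomic N ℂ).eval ((z ^ dot a (n τ) : ℂˣ) : ℂ) * ev (n τ) z F1 := by
    intro z
    have := h2 z
    rw [map_sub, map_mul, ev_cyc, sub_eq_zero] at this
    exact this
  refine ⟨?_, ?_, ?_⟩
  · obtain ⟨z, hz⟩ := h3.ne
    refine ⟨z, fun h0 => hz ?_⟩
    rw [key, h0, mul_zero]
  · intro z hz
    have h4 := h3.root z hz
    rw [key] at h4
    rcases mul_eq_zero.1 h4 with h5 | h5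
    · exfalso
      have : NeZero ((N : ℕ) : ℂ) := ⟨by exact_mod_cast hN.ne'⟩
      have h6 : IsPrimitiveRoot ((z ^ dot a (n τ) : ℂˣ) : ℂ) N :=
        Polynomial.isRoot_cyclotomic_iff.1 h5
      have h7 := h6.norm'_eq_one hN.ne'
      rw [Units.val_zpow_eq_zpow_val, hz, norm_zpow, Complex.norm_real, Real.norm_eq_abs,
        abs_of_pos (by linarith [ht τ])] at h7
      have h8 : 1 < (t τ) ^ dot a (n τ) := one_lt_zpow₀ (ht τ) h1
      linarith
    · exact h5
  · intro z hz
    refine h3.zeros z ?_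
    rw [key, hz, mul_zero]

end SalemLen
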