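import Pool.Agent.Lib.MP_9599cf_ntL.Defs

/-! # Mahler measures on circles, products -/

set_option autoImplicit false

namespace SalemLen

open Polynomial

/-- PROOF. `Polynomial.mahlerMeasure_mul` and `Polynomial.mul_comp`. -/
theorem mr_mul (r : ℝ) (P Q : ℂ[X]) : mr r (P * Q) = mr r P * mr r Q := by
  unfold mr
  rw [mul_comp, mahlerMeasure_mul]

/-- PROOF. `C r * X - C w`; `Polynomial.mahlerMeasure_C_mul_X_add_C`. -/
theorem mr_X_sub {r : ℝ} (hr : 0 < r) (w : ℂ) : mr r (X - C w) = max r ‖w‖ := by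
  have hr0 : (r : ℂ) ≠ 0 := by exact_mod_cast hr.ne'
  have h1 : (X - C w : ℂ[X]).comp (C (r : ℂ) * X) = C (r : ℂ) * X + C (-w) := by
    rw [sub_comp, X_comp, C_comp, C_neg, sub_eq_add_neg]
  unfold mr
  rw [h1, mahlerMeasure_C_mul_X_add_C hr0, norm_neg, Complex.norm_real,
    Real.norm_of_nonneg hr.le]

/-- PROOF. `1 - C w * X` composed with `C r * X` is `C (- w r) * X + C 1`; for `w = 0` it is `1`. -/
theorem mr_one_sub {r : ℝ} (hr : 0 < r) (w : ℂ) : mr r (1 - C w * X) = max 1 (r * ‖w‖) := by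
  by_cases hw : w = 0
  · rw [hw, C_0, zero_mul, sub_zero, norm_zero, mul_zero, max_eq_left zero_le_one]
    unfold mr
    rw [one_comp, mahlerMeasure_one]
  · have hr0 : (r : ℂ) ≠ 0 := by exact_mod_cast hr.ne'
    have ha : -(w * (r : ℂ)) ≠ 0 := neg_ne_zero.2 (mul_ne_zero hw hr0)
    have h1 : (1 - C w * X : ℂ[X]).comp (C (r : ℂ) * X) = C (-(w * (r : ℂ))) * X + C 1 := by
      rw [sub_comp, one_comp, mul_comp, C_comp, X_comp, C_neg, C_mul, C_1]
      ring
    have hn' : ‖-(w * (r : ℂ))‖ = r * ‖w‖ := by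
      rw [norm_neg, norm_mul, Complex.norm_real, Real.norm_of_nonneg hr.le, _root_.mul_comm]
    unfold mr
    rw [h1, mahlerMeasure_C_mul_X_add_C ha, hn', norm_one, max_comm]

private theorem mah1_prod (r : ℝ) (s : Multiset ℂ) (hr : 0 < r) :
    mr r (s.map fun z => X - C z).prod = (s.map fun z => max r ‖z‖).prod := by
  induction s using Multiset.induction_on with
  | empty =>
    unfold mr
    simp
  | cons a s ih => rw [Multiset.map_cons, Multiset.prod_cons, mr_mul, ih, mr_X_sub hr,
      Multiset.map_cons, Multiset.prod_cons]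

private theorem mah1_roots {P : ℂ[X]} (hP : P.Monic) {r : ℝ} (hr : 0 < r) :
    mr r P = (P.roots.map fun z => max r ‖z‖).prod := by
  have h1 : P = (P.roots.map fun z => X - C z).prod :=
    (IsAlgClosed.splits P).eq_prod_roots_of_monic hP
  conv_lhs => rw [h1]
  exact mah1_prod r P.roots hr

/-- PROOF. `P` is the product of `X - C z` over its roots (`Polynomial.eq_prod_roots_of_monic_of_splits_id`
or similar, `ℂ` algebraically closed); `mr_mul`, `mr_X_sub`, `max r ‖z‖ ≥ r`. -/
theorem pow_le_mr {P : ℂ[X]} (hP : P.Monic) {r : ℝ} (hr : 0 < r) :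
    r ^ P.natDegree ≤ mr r P := by
  rw [mah1_roots hP hr]
  have hc : P.roots.card = P.natDegree := (splits_iff_card_roots.1 (IsAlgClosed.splits P))
  rw [← hc]
  generalize P.roots = s
  induction s using Multiset.induction_on with
  | empty => simp
  | cons a s ih =>
    rw [Multiset.card_cons, pow_succ', Multiset.map_cons, Multiset.prod_cons]
    exact mul_le_mul (le_max_left _ _) ih (pow_nonneg hr.le _) (hr.le.trans (le_max_left _ _))

/-- PROOF. As `pow_le_mr`, with `max r ‖z‖ = r` for all roots. -/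
theorem mr_eq_pow {P : ℂ[X]} (hP : P.Monic) {r : ℝ} (hr : 0 < r)
    (h : ∀ z : ℂ, P.eval z = 0 → ‖z‖ ≤ r) : mr r P = r ^ P.natDegree := by
  rw [mah1_roots hP hr]
  have hc : P.roots.card = P.natDegree := (splits_iff_card_roots.1 (IsAlgClosed.splits P))
  have h1 : (P.roots.map fun z => max r ‖z‖) = P.roots.map fun _ => r := by
    refine Multiset.map_congr rfl fun z hz => ?_
    exact max_eq_left (h z ((mem_roots hP.ne_zero).1 hz))
  rw [h1, Multiset.map_const', Multiset.prod_replicate, hc]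

end SalemLen
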