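import Pool.Agent.Lib.MP_9599cf_ntL.MahDerA
import Pool.Agent.Lib.MP_9599cf_ntL.Mah3

/-! # Mahler's inequality for the derivative -/

set_option autoImplicit false

namespace SalemLen

open Polynomial

private theorem MahDer_factor_ne (z : ℂ) : (1 - C z * X : ℂ[X]) ≠ 0 := by
  intro h
  have := congrArg (Polynomial.eval 0) h
  simp at this

private theorem MahDer_lc {z : ℂ} (hz : z ≠ 0) : (1 - C z * X : ℂ[X]).leadingCoeff = -z := by
  have h : (1 - C z * X : ℂ[X]) = C (-z) * X + C 1 := by
    rw [C_neg, C_1]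
    ring
  rw [h, leadingCoeff_linear (neg_ne_zero.2 hz)]

private theorem MahDer_nd {z : ℂ} (hz : z ≠ 0) : (1 - C z * X : ℂ[X]).natDegree = 1 := by
  have h : (1 - C z * X : ℂ[X]) = C (-z) * X + C 1 := by
    rw [C_neg, C_1]
    ring
  rw [h, natDegree_linear (neg_ne_zero.2 hz)]

private theorem MahDer_norm_prod (t : Multiset ℂ) : ‖t.prod‖ = (t.map fun z => ‖z‖).prod := by
  induction t using Multiset.induction_on with
  | empty => simp
  | cons a t ih => rw [Multiset.prod_cons, norm_mul, ih, Multiset.map_cons, Multiset.prod_cons]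

/-- If all the roots of `Q` are in the closed unit disc then `M (Q') ≤ n * ‖lc Q‖`. -/
private theorem MahDer_disc {Q : ℂ[X]} (h : ∀ z : ℂ, Q.eval z = 0 → ‖z‖ ≤ 1) :
    (derivative Q).mahlerMeasure ≤ Q.natDegree * ‖Q.leadingCoeff‖ := by
  by_cases hd : derivative Q = 0
  · rw [hd, mahlerMeasure_zero]
    positivity
  have hdeg : 0 < Q.natDegree := by
    by_contra h0
    push Not at h0
    apply hd
    rw [eq_C_of_natDegree_eq_zero (Nat.le_zero.1 h0), derivative_C]
  have hQ : Q ≠ 0 := by
    rintro rfl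
    simp at hd
  have h1 : ∀ z ∈ (derivative Q).roots, ‖z‖ ≤ 1 := by
    intro z hz
    have h2 : z ∈ (derivative Q).rootSet ℂ := by
      rw [mem_rootSet]
      refine ⟨hd, ?_⟩
      rw [coe_aeval_eq_eval]
      exact isRoot_of_mem_roots hz
    have h3 := rootSet_derivative_subset_convexHull_rootSet
      (natDegree_pos_iff_degree_pos.1 hdeg) h2
    have h4 : convexHull ℝ (Q.rootSet ℂ) ⊆ Metric.closedBall (0 : ℂ) 1 := by
      refine convexHull_min ?_ (convex_closedBall 0 1)
      intro w hw
      rw [mem_rootSet, coe_aeval_eq_eval] at hw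
      rw [mem_closedBall_zero_iff]
      exact h w hw.2
    exact mem_closedBall_zero_iff.1 (h4 h3)
  rw [mahlerMeasure_eq_leadingCoeff_mul_prod_roots]
  have h5 : ((derivative Q).roots.map (fun a ↦ max 1 ‖a‖)).prod = 1 := by
    refine Multiset.prod_eq_one fun x hx => ?_
    obtain ⟨z, hz, rfl⟩ := Multiset.mem_map.1 hx
    exact max_eq_left (h1 z hz)
  have h6 : (derivative Q).coeff (Q.natDegree - 1) = Q.leadingCoeff * Q.natDegree := by
    rw [coeff_derivative, Nat.sub_add_cancel hdeg, coeff_natDegree]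
    congr 1
    have : ((Q.natDegree - 1 + 1 : ℕ) : ℂ) = (Q.natDegree : ℂ) := by rw [Nat.sub_add_cancel hdeg]
    push_cast at this
    exact this
  have h7 : (derivative Q).leadingCoeff = Q.leadingCoeff * Q.natDegree := by
    have h8 : (derivative Q).natDegree = Q.natDegree - 1 := by
      refine le_antisymm (natDegree_derivative_le Q) (le_natDegree_of_ne_zero ?_)
      rw [h6]
      exact mul_ne_zero (leadingCoeff_ne_zero.2 hQ) (Nat.cast_ne_zero.2 hdeg.ne')
    rw [leadingCoeff, h8, h6]
  rw [h5, mul_one, h7, norm_mul, Complex.norm_natCast, mul_comm]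

/-- PROOF (Mahler). `P = C a * ∏_{s} (X - z) * ∏_{s'} (X - z)` (roots with `‖z‖ ≤ 1` / `> 1`),
`Q = C a * ∏_{s} (X - z) * ∏_{s'} (1 - conj z X)`: `‖P' x‖ ≤ ‖Q' x‖` for `‖x‖ = 1` (`norm_derivative_le`), so
`M(P') ≤ M(Q')` (`mr_le` with `r = 1`, `K = 1`, or monotonicity directly). All roots of `Q` are in the closed disc, so
those of `Q'` too (Gauss-Lucas: `Polynomial.rootSet_derivative_subset_convexHull_rootSet`; the closed disc is convex),
so `M(Q') = ‖lc(Q')‖ = n ‖lc(Q)‖ = n M(Q) = n M(P)` (`Polynomial.mahlerMeasure_eq_leadingCoeff_mul_prod_roots`;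
`lc(Q) = a ∏_{s'} (- conj z)`, of absolute value `M(P)`), `n = natDegree`. (`n = 0`: both sides are `0`.) -/
theorem mahler_derivative (P : ℂ[X]) :
    P.derivative.mahlerMeasure ≤ P.natDegree * P.mahlerMeasure := by
  classical
  have hmr : ∀ Q : ℂ[X], mr 1 Q = Q.mahlerMeasure := by
    intro Q
    unfold mr
    rw [Complex.ofReal_one, C_1, one_mul, comp_X]
  obtain ⟨s, hs⟩ : ∃ s, s = P.roots.filter fun z => ‖z‖ ≤ 1 := ⟨_, rfl⟩
  obtain ⟨s', hs'⟩ : ∃ s', s' = P.roots.filter fun z => ¬ ‖z‖ ≤ 1 := ⟨_, rfl⟩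
  have hss : s + s' = P.roots := by
    rw [hs, hs']
    exact Multiset.filter_add_not _ _
  have hsle : ∀ z ∈ s, ‖z‖ ≤ 1 := by
    intro z hz
    rw [hs] at hz
    exact (Multiset.mem_filter.1 hz).2
  have hsgt : ∀ z ∈ s', 1 < ‖z‖ := by
    intro z hz
    rw [hs'] at hz
    exact not_le.1 (Multiset.mem_filter.1 hz).2
  have hs0 : ∀ z ∈ s', starRingEnd ℂ z ≠ 0 := by
    intro z hz h0
    have h1 := hsgt z hz
    rw [map_eq_zero] at h0
    rw [h0, norm_zero] at h1
    linarith
  set A : ℂ[X] := (s.map fun z => X - C z).prod with hA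
  set B : ℂ[X] := (s'.map fun z => X - C z).prod with hB
  set B' : ℂ[X] := (s'.map fun z => 1 - C (starRingEnd ℂ z) * X).prod with hB'
  have hfac : C P.leadingCoeff * (A * B) = P := by
    rw [hA, hB, ← Multiset.prod_add, ← Multiset.map_add, hss]
    exact C_leadingCoeff_mul_prod_multiset_X_sub_C
      (IsAlgClosed.splits P).natDegree_eq_card_roots.symm
  have h1 : P.derivative = C P.leadingCoeff * derivative (A * B) := by
    conv_lhs => rw [← hfac]
    rw [derivative_C_mul]
  have h2 : P.derivative.mahlerMeasure = ‖P.leadingCoeff‖ * (derivative (A * B)).mahlerMeasure := by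
    rw [h1, mahlerMeasure_mul, mahlerMeasure_const]
  have h3 : (derivative (A * B)).mahlerMeasure ≤ (derivative (A * B')).mahlerMeasure := by
    have h := mr_le (P := derivative (A * B)) (Q := derivative (A * B')) one_pos zero_le_one
      (fun x hx => by
        rw [one_mul]
        exact norm_derivative_le s s' hsle hsgt x hx)
    rwa [hmr, hmr, one_mul] at h
  have hroot : ∀ z : ℂ, (A * B').eval z = 0 → ‖z‖ ≤ 1 := by
    intro z hz
    rw [eval_mul, mul_eq_zero] at hz
    rcases hz with hz | hz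
    · rw [hA, eval_multiset_prod, Multiset.map_map, Multiset.prod_eq_zero_iff,
        Multiset.mem_map] at hz
      obtain ⟨w, hw, hwz⟩ := hz
      have h4 : z = w := by
        have : z - w = 0 := by simpa using hwz
        exact sub_eq_zero.1 this
      rw [h4]
      exact hsle w hw
    · rw [hB', eval_multiset_prod, Multiset.map_map, Multiset.prod_eq_zero_iff,
        Multiset.mem_map] at hz
      obtain ⟨w, hw, hwz⟩ := hz
      have h4 : 1 - starRingEnd ℂ w * z = 0 := by simpa using hwz
      have h5 : ‖w‖ * ‖z‖ = 1 := by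
        have h6 : starRingEnd ℂ w * z = 1 := (sub_eq_zero.1 h4).symm
        have h7 := congrArg norm h6
        rwa [norm_mul, RCLike.norm_conj, norm_one] at h7
      have h8 := hsgt w hw
      have h9 := norm_nonneg z
      nlinarith
  have hB'ne : (0 : ℂ[X]) ∉ s'.map fun z => 1 - C (starRingEnd ℂ z) * X := by
    intro h0
    obtain ⟨w, -, hw⟩ := Multiset.mem_map.1 h0
    exact MahDer_factor_ne _ hw
  have hAmonic : A.Monic := monic_multiset_prod_of_monic _ _ fun z _ => monic_X_sub_C z
  have hlcB' : ‖B'.leadingCoeff‖ = (s'.map fun z => ‖z‖).prod := by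
    rw [hB', leadingCoeff_multiset_prod, Multiset.map_map, MahDer_norm_prod, Multiset.map_map]
    refine congrArg Multiset.prod (Multiset.map_congr rfl fun z hz => ?_)
    simp only [Function.comp_apply]
    rw [MahDer_lc (hs0 z hz), norm_neg, RCLike.norm_conj]
  have hndA : A.natDegree = Multiset.card s := by
    rw [hA, natDegree_multiset_prod_X_sub_C_eq_card]
  have hndB' : B'.natDegree = Multiset.card s' := by
    rw [hB', natDegree_multiset_prod _ hB'ne, Multiset.map_map]
    have : (Multiset.map (natDegree ∘ fun z => 1 - C (starRingEnd ℂ z) * X) s') =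
        s'.map fun _ => 1 := Multiset.map_congr rfl fun z hz => MahDer_nd (hs0 z hz)
    rw [this]
    simp
  have hB'0 : B' ≠ 0 := by
    rw [hB']
    exact Multiset.prod_ne_zero hB'ne
  have hnd : (A * B').natDegree = P.natDegree := by
    rw [natDegree_mul hAmonic.ne_zero hB'0, hndA, hndB', ← Multiset.card_add, hss]
    exact (IsAlgClosed.splits P).natDegree_eq_card_roots.symm
  have hlc : ‖(A * B').leadingCoeff‖ = (s'.map fun z => ‖z‖).prod := by
    rw [leadingCoeff_mul, hAmonic.leadingCoeff, one_mul, hlcB']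
  have hM : P.mahlerMeasure = ‖P.leadingCoeff‖ * (s'.map fun z => ‖z‖).prod := by
    rw [mahlerMeasure_eq_leadingCoeff_mul_prod_roots, ← hss, Multiset.map_add, Multiset.prod_add]
    have h4 : (s.map fun a => max 1 ‖a‖).prod = 1 := by
      refine Multiset.prod_eq_one fun x hx => ?_
      obtain ⟨z, hz, rfl⟩ := Multiset.mem_map.1 hx
      exact max_eq_left (hsle z hz)
    have h5 : (s'.map fun a => max 1 ‖a‖) = s'.map fun z => ‖z‖ :=
      Multiset.map_congr rfl fun z hz => max_eq_right (hsgt z hz).le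
    rw [h4, h5, one_mul]
  have h10 := MahDer_disc hroot
  rw [hnd, hlc] at h10
  rw [h2, hM]
  calc ‖P.leadingCoeff‖ * (derivative (A * B)).mahlerMeasure
      ≤ ‖P.leadingCoeff‖ * ((P.natDegree : ℝ) * (s'.map fun z => ‖z‖).prod) :=
        mul_le_mul_of_nonneg_left (h3.trans h10) (norm_nonneg _)
    _ = (P.natDegree : ℝ) * (‖P.leadingCoeff‖ * (s'.map fun z => ‖z‖).prod) := by ring

end SalemLen
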