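import Pool.Agent.Lib.MP_9599cf_ntL.Defs

/-! # Reflection of the roots -/

set_option autoImplicit false

namespace SalemLen

open Polynomial

theorem mahDerA_re {x z : ℂ} (hx : ‖x‖ = 1) (h : x - z ≠ 0) :
    2 * (x / (x - z)).re - 1 = (1 - ‖z‖ ^ 2) / ‖x - z‖ ^ 2 := by
  have h1 : Complex.normSq (x - z) ≠ 0 := by rwa [Ne, Complex.normSq_eq_zero]
  have h2 : x.re * x.re + x.im * x.im = 1 := by
    rw [← Complex.normSq_apply, Complex.normSq_eq_norm_sq, hx, one_pow]
  rw [← Complex.normSq_eq_norm_sq, ← Complex.normSq_eq_norm_sq, Complex.div_re, ← add_div,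
    Complex.normSq_apply z]
  rw [eq_div_iff h1, sub_mul, mul_assoc, div_mul_cancel₀ _ h1, Complex.normSq_apply,
    Complex.sub_re, Complex.sub_im]
  linear_combination h2

theorem mahDerA_conj {x z : ℂ} (hx : ‖x‖ = 1) :
    1 - (starRingEnd ℂ) z * x = x * (starRingEnd ℂ) (x - z) := by
  have h1 : x * (starRingEnd ℂ) x = 1 := by
    rw [Complex.mul_conj, Complex.normSq_eq_norm_sq, hx]
    simp
  rw [map_sub]
  linear_combination -h1

theorem mahDerA_in (s : Multiset ℂ) (hs : ∀ z ∈ s, ‖z‖ ≤ 1) {x : ℂ} (hx : ‖x‖ = 1)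
    (h0 : ((s.map fun z => X - C z).prod).eval x ≠ 0) :
    ∃ a : ℂ, x * (derivative (s.map fun z => X - C z).prod).eval x =
      a * ((s.map fun z => X - C z).prod).eval x ∧ 0 ≤ a.re := by
  induction s using Multiset.induction_on with
  | empty => exact ⟨0, by simp, by simp⟩
  | cons z s ih =>
    rw [Multiset.map_cons, Multiset.prod_cons, eval_mul, eval_sub, eval_X, eval_C] at h0
    have hxz : x - z ≠ 0 := left_ne_zero_of_mul h0
    obtain ⟨a, h1, h2⟩ := ih (fun w hw => hs w (Multiset.mem_cons_of_mem hw))
      (right_ne_zero_of_mul h0)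
    refine ⟨x / (x - z) + a, ?_, ?_⟩
    · rw [Multiset.map_cons, Multiset.prod_cons, derivative_mul, derivative_sub, derivative_X,
        derivative_C, sub_zero, one_mul, eval_add, eval_mul, eval_mul, eval_sub, eval_X, eval_C]
      have h3 : x / (x - z) * (x - z) = x := div_mul_cancel₀ _ hxz
      linear_combination (x - z) * h1 -
        (eval x (Multiset.map (fun z => X - C z) s).prod) * h3
    · have h3 := mahDerA_re hx hxz
      have h4 : 0 ≤ (1 - ‖z‖ ^ 2) / ‖x - z‖ ^ 2 := by
        have h5 := hs z (Multiset.mem_cons_self z s)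
        have h6 : ‖z‖ ^ 2 ≤ 1 := pow_le_one₀ (norm_nonneg _) h5
        exact div_nonneg (by linarith) (by positivity)
      rw [Complex.add_re]
      linarith

theorem mahDerA_out (s : Multiset ℂ) (hs : ∀ z ∈ s, 1 < ‖z‖) {x : ℂ} (hx : ‖x‖ = 1) :
    ∃ b : ℂ, x * (derivative (s.map fun z => X - C z).prod).eval x =
        b * ((s.map fun z => X - C z).prod).eval x ∧ 2 * b.re ≤ Multiset.card s ∧
      x * (derivative (s.map fun z => 1 - C ((starRingEnd ℂ) z) * X).prod).eval x =
        (Multiset.card s - (starRingEnd ℂ) b) *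
          ((s.map fun z => 1 - C ((starRingEnd ℂ) z) * X).prod).eval x ∧
      ‖((s.map fun z => X - C z).prod).eval x‖ =
        ‖((s.map fun z => 1 - C ((starRingEnd ℂ) z) * X).prod).eval x‖ := by
  induction s using Multiset.induction_on with
  | empty => exact ⟨0, by simp, by simp, by simp, by simp⟩
  | cons z s ih =>
    obtain ⟨b, h1, h2, h3, h4⟩ := ih (fun w hw => hs w (Multiset.mem_cons_of_mem hw))
    have hz := hs z (Multiset.mem_cons_self z s)
    have hxz : x - z ≠ 0 := by
      intro e
      rw [← sub_eq_zero.1 e, hx] at hz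
      exact lt_irrefl _ hz
    have hx0 : x ≠ 0 := by
      intro e
      rw [e, norm_zero] at hx
      exact zero_ne_one hx
    have hcz : (starRingEnd ℂ) (x - z) ≠ 0 := by
      rwa [Ne, map_eq_zero]
    have e1 := mahDerA_conj (z := z) hx
    refine ⟨x / (x - z) + b, ?_, ?_, ?_, ?_⟩
    · rw [Multiset.map_cons, Multiset.prod_cons, derivative_mul, derivative_sub, derivative_X,
        derivative_C, sub_zero, one_mul, eval_add, eval_mul, eval_mul, eval_sub, eval_X, eval_C]
      have h5 : x / (x - z) * (x - z) = x := div_mul_cancel₀ _ hxz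
      linear_combination (x - z) * h1 -
        (eval x (Multiset.map (fun z => X - C z) s).prod) * h5
    · have h5 := mahDerA_re hx hxz
      have h6 : (1 - ‖z‖ ^ 2) / ‖x - z‖ ^ 2 ≤ 0 := by
        have h7 : 1 ≤ ‖z‖ ^ 2 := one_le_pow₀ hz.le
        exact div_nonpos_of_nonpos_of_nonneg (by linarith) (by positivity)
      rw [Complex.add_re, Multiset.card_cons]
      push_cast
      linarith
    · rw [Multiset.map_cons, Multiset.prod_cons, derivative_mul, derivative_sub, derivative_one,
        derivative_C_mul, derivative_X, mul_one, zero_sub, eval_add, eval_mul, eval_mul, eval_mul,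
        eval_neg, eval_sub, eval_one, eval_mul, eval_X, eval_C, Multiset.card_cons, map_add,
        map_div₀, e1]
      push_cast
      have h5 : (starRingEnd ℂ) x / (starRingEnd ℂ) (x - z) * (starRingEnd ℂ) (x - z) =
          (starRingEnd ℂ) x := div_mul_cancel₀ _ hcz
      have h6 : x * (starRingEnd ℂ) x = 1 := by
        rw [Complex.mul_conj, Complex.normSq_eq_norm_sq, hx]
        simp
      linear_combination (x * (starRingEnd ℂ) (x - z)) * h3 +
        (eval x (Multiset.map (fun z => 1 - C ((starRingEnd ℂ) z) * X) s).prod) *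
          (x * h5 + h6 + e1)
    · rw [Multiset.map_cons, Multiset.prod_cons, Multiset.map_cons, Multiset.prod_cons, eval_mul,
        eval_mul, norm_mul, norm_mul, h4, eval_sub, eval_X, eval_C, eval_sub, eval_one, eval_mul,
        eval_X, eval_C, e1, norm_mul, hx, one_mul, Complex.norm_conj]

/-- Multisets of complex numbers: the product `∏ (x - z)` over `s`, and the same with the elements of absolute value
greater than one reflected: `∏ (1 - conj z * x)`. PROOF. Logarithmic derivative: for `‖x‖ = 1` (`x` no root), a root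
`z` contributes `w = x / (x - z)` to `x P' / P`; `Re w ≥ 1/2` if `‖z‖ ≤ 1`, `Re w ≤ 1/2` if `‖z‖ ≥ 1`; the reflected
factor contributes `1 - conj w` (for `z ≠ 0`: `x / (x - 1 / conj z) = 1 - conj (x / (x - z))`). So the imaginary
parts of the sums agree, and the real part of the sum for the reflected polynomial is
`card / 2 + ∑ |Re w - 1/2| ≥ |card / 2 + ∑ (Re w - 1/2)|`. Hence `‖P' / P‖ ≤ ‖Q' / Q‖`, and `‖P‖ = ‖Q‖` at `x`. At a
common root `x` on the circle (roots on the circle are not reflected) use continuity: both sides are continuous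
functions of `x` and the circle minus a finite set is dense in the circle; or: divide both by the common factor
and apply the product rule. Here `Q = P.rf`-like is described by the hypotheses on the multisets `s` (roots kept,
`‖z‖ ≤ 1`) and `s'` (roots reflected, `‖z‖ > 1`). -/
theorem norm_derivative_le (s s' : Multiset ℂ) (hs : ∀ z ∈ s, ‖z‖ ≤ 1) (hs' : ∀ z ∈ s', 1 < ‖z‖)
    (x : ℂ) (hx : ‖x‖ = 1) :
    ‖(derivative ((s.map fun z => X - C z).prod * (s'.map fun z => X - C z).prod)).eval x‖ ≤
      ‖(derivative ((s.map fun z => X - C z).prod *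
        (s'.map fun z => 1 - C (starRingEnd ℂ z) * X).prod)).eval x‖ := by
  obtain ⟨b, h1, h2, h3, h4⟩ := mahDerA_out s' hs' hx
  rw [derivative_mul, derivative_mul, eval_add, eval_add, eval_mul, eval_mul, eval_mul, eval_mul]
  by_cases h0 : ((s.map fun z => X - C z).prod).eval x = 0
  · rw [h0, zero_mul, zero_mul, add_zero, add_zero, norm_mul, norm_mul, h4]
  · obtain ⟨a, h5, h6⟩ := mahDerA_in s hs hx h0
    set A := ((s.map fun z => X - C z).prod).eval x with hA
    set A' := (derivative (s.map fun z => X - C z).prod).eval x with hA'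
    set B := ((s'.map fun z => X - C z).prod).eval x with hB
    set B' := (derivative (s'.map fun z => X - C z).prod).eval x with hB'
    set D := ((s'.map fun z => 1 - C ((starRingEnd ℂ) z) * X).prod).eval x with hD
    set D' := (derivative (s'.map fun z => 1 - C ((starRingEnd ℂ) z) * X).prod).eval x with hD'
    have e1 : ‖A' * B + A * B'‖ = ‖a + b‖ * (‖A‖ * ‖B‖) := by
      have e2 : x * (A' * B + A * B') = (a + b) * (A * B) := by
        linear_combination B * h5 + A * h1
      have e3 := congrArg norm e2
      rwa [norm_mul, norm_mul, norm_mul, hx, one_mul] at e3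
    have e4 : ‖A' * D + A * D'‖ =
        ‖a + (Multiset.card s' - (starRingEnd ℂ) b)‖ * (‖A‖ * ‖D‖) := by
      have e2 : x * (A' * D + A * D') =
          (a + (Multiset.card s' - (starRingEnd ℂ) b)) * (A * D) := by
        linear_combination D * h5 + A * h3
      have e3 := congrArg norm e2
      rwa [norm_mul, norm_mul, norm_mul, hx, one_mul] at e3
    rw [e1, e4, h4]
    refine mul_le_mul_of_nonneg_right ?_ (by positivity)
    rw [← sq_le_sq₀ (norm_nonneg _) (norm_nonneg _), ← Complex.normSq_eq_norm_sq,
      ← Complex.normSq_eq_norm_sq, Complex.normSq_apply, Complex.normSq_apply]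
    simp only [Complex.add_re, Complex.add_im, Complex.sub_re, Complex.sub_im, Complex.conj_re,
      Complex.conj_im, Complex.natCast_re, Complex.natCast_im]
    have h7 : (0 : ℝ) ≤ Multiset.card s' := Nat.cast_nonneg _
    nlinarith [mul_nonneg (by linarith : 0 ≤ 2 * a.re + (Multiset.card s' : ℝ))
      (by linarith : 0 ≤ (Multiset.card s' : ℝ) - 2 * b.re)]

end SalemLen
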