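import Pool.Agent.Lib.MP_9599cf_ntL.Main1
import Pool.Agent.Lib.MP_9599cf_ntL.TTDef
import Pool.Agent.Lib.MP_9599cf_ntL.Ex4
import Pool.Agent.Lib.MP_9599cf_ntL.Card4
import Pool.Agent.Lib.MP_9599cf_ntL.Strip
import Pool.Agent.Lib.MP_9599cf_ntL.StripC
import Pool.Agent.Lib.MP_9599cf_ntL.Recip
import Pool.Agent.Lib.MP_9599cf_ntL.Lim1
import Pool.Agent.Lib.MP_9599cf_ntL.Lim2
import Pool.Agent.Lib.MP_9599cf_ntL.Lim3
import Pool.Agent.Lib.MP_9599cf_ntL.Rev
import Pool.Agent.Lib.MP_9599cf_ntL.Fin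
import Pool.Agent.Lib.MP_9599cf_ntL.Pisot
import Pool.Agent.Lib.MP_9599cf_ntL.Sal2
import Pool.Agent.Lib.MP_9599cf_ntL.Sal3
import Pool.Agent.Lib.MP_9599cf_ntL.Sal4
import Pool.Agent.Lib.MP_9599cf_ntL.LenL
import Pool.Agent.Lib.MP_9599cf_ntL.LenCard
import Pool.Agent.Lib.MP_9599cf_ntL.TwoCard
import Pool.Agent.Lib.MP_9599cf_ntL.CardSal
import Pool.Agent.Lib.MP_9599cf_ntL.Ex

/-! # Length and number of monomials -/

set_option autoImplicit false

namespace SalemLen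

open Polynomial

theorem mem_T_of_mem_TT {B : ℕ∞} {k : ℕ} {t : ℝ} (ht : t ∈ TT B k) (ht2 : t ≤ 2) :
    t ∈ T (k * 2 ^ (k + 1)) := by
  obtain ⟨hs, P, h1, -, h3, h4⟩ := ht
  exact ⟨hs, P, h1, len_le_of_card h1 hs.2.1 ht2 h4 h3, h4⟩

/-- If the infimum of `TT B k` is in the interval `(1, 2)`, it is attained. -/
theorem attained' {B : ℕ∞} {k : ℕ} {c : ℝ} (hc : 1 < c) (hc2 : c < 2)
    (hglb : IsGLB (TT B k) c) : c ∈ TT B k := by
  by_contra hcT
  have h1 : ∀ n : ℕ, ∃ t : ℝ, IsSalem t ∧ c < t ∧ t < c + (2 - c) / ((n : ℝ) + 1) ∧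
      ∃ P : ℤ[X], P.Monic ∧ (len P : ℕ∞) ≤ B ∧ P.support.card ≤ k ∧
        len P ≤ k * 2 ^ (k + 1) ∧ Dom P t ∧ P.coeff 0 ≠ 0 := by
    intro n
    have hn : (0 : ℝ) < (n : ℝ) + 1 := by positivity
    obtain ⟨t, ht, h2, h3⟩ := hglb.exists_between (show c < c + (2 - c) / ((n : ℝ) + 1) by
      have : (0 : ℝ) < (2 - c) / ((n : ℝ) + 1) := div_pos (by linarith) hn
      linarith)
    have h4 : c ≠ t := fun h => hcT (h ▸ ht)
    have h5 : t ≤ 2 := by
      have h6 : (2 - c) / ((n : ℝ) + 1) ≤ 2 - c :=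
        div_le_self (by linarith) (by linarith [(Nat.cast_nonneg n : (0 : ℝ) ≤ n)])
      linarith
    obtain ⟨hs, P, hP, hl, hk, hd⟩ := ht
    obtain ⟨P', g1, g2, g3, g4, g5⟩ := exists_coeff_zero_card hP hs.2.1 hd
    exact ⟨t, hs, lt_of_le_of_ne h2 h4, h3, P', g1, by rw [g2]; exact hl, by rw [g3]; exact hk,
      len_le_of_card g1 hs.2.1 h5 g4 (by rw [g3]; exact hk), g4, g5⟩
  choose t hs hct hlt P hP hlB hk hl hd h0 using h1
  obtain ⟨U, hU⟩ : ∃ U : Ultrafilter ℕ, (U : Filter ℕ) ≤ Filter.atTop :=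
    ⟨Filter.hyperfilter ℕ, by rw [← Nat.cofinite_eq_atTop]; exact Filter.hyperfilter_le_cofinite⟩
  have hz : Filter.Tendsto (fun n : ℕ => (2 - c) / ((n : ℝ) + 1)) (U : Filter ℕ) (nhds 0) := by
    have h2 : Filter.Tendsto (fun n : ℕ => (2 - c) * (1 / ((n : ℝ) + 1))) Filter.atTop
        (nhds ((2 - c) * 0)) := tendsto_one_div_add_atTop_nhds_zero_nat.const_mul (2 - c)
    rw [mul_zero] at h2
    refine (h2.congr fun n => ?_).mono_left hU
    rw [mul_one_div]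
  have htend : Filter.Tendsto t (U : Filter ℕ) (nhds c) := by
    have h2 : Filter.Tendsto (fun n : ℕ => c + (2 - c) / ((n : ℝ) + 1)) (U : Filter ℕ)
        (nhds c) := by
      simpa using hz.const_add c
    exact tendsto_of_tendsto_of_tendsto_of_le_of_le tendsto_const_nhds h2
      (fun n => (hct n).le) (fun n => (hlt n).le)
  -- the degrees tend to infinity
  have hdegP : ∀ D : ℕ, ∀ᶠ n in (U : Filter ℕ), D ≤ (P n).natDegree := by
    intro D
    by_contra hcon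
    have hcon' : ∀ᶠ n in (U : Filter ℕ), ¬ D ≤ (P n).natDegree :=
      Ultrafilter.eventually_not.2 hcon
    obtain ⟨S, hS⟩ : ∃ S : Set ℝ, S = {s | s ∈ {t : ℝ | ∃ P : ℤ[X], P.Monic ∧
        len P ≤ k * 2 ^ (k + 1) ∧ P.natDegree ≤ D ∧ Dom P t} ∧ c < s} := ⟨_, rfl⟩
    have hfin : S.Finite := by
      rw [hS]
      exact (finite_dom (k * 2 ^ (k + 1)) D).subset (fun s hs => hs.1)
    have h5 : ∃ ε : ℝ, 0 < ε ∧ ∀ s ∈ S, c + ε ≤ s := by
      rcases Set.eq_empty_or_nonempty S with he | hne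
      · exact ⟨1, one_pos, fun s hs => by rw [he] at hs; exact absurd hs (Set.notMem_empty s)⟩
      · obtain ⟨s0, hs0, hmin⟩ := Set.exists_min_image S id hfin hne
        have hs0' : c < s0 := by
          rw [hS] at hs0
          exact hs0.2
        refine ⟨s0 - c, by linarith, fun s hs => ?_⟩
        have := hmin s hs
        simp only [id] at this
        linarith
    obtain ⟨ε, hε, h6⟩ := h5
    obtain ⟨n, g1, g2⟩ := (hcon'.and (hz.eventually (gt_mem_nhds hε))).exists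
    have := h6 (t n) (by
      rw [hS]
      exact ⟨⟨P n, hP n, hl n, by omega, hd n⟩, hct n⟩)
    linarith [hlt n]
  have hrevP : ∀ n, (P n).reverse = P n ∨ (P n).reverse = -P n := fun n =>
    (hs n).reverse_eq (hP n) (h0 n) (hd n)
  have hrevQ : ∀ n, ((P n).reverse).reverse = (P n).reverse ∨
      ((P n).reverse).reverse = -(P n).reverse := by
    intro n
    rcases hrevP n with h | h
    · left
      simp only [h]
    · right
      simp only [h, Polynomial.reverse_neg, neg_neg]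
  have hdegQ : ∀ D : ℕ, ∀ᶠ n in (U : Filter ℕ), D ≤ ((P n).reverse).natDegree := by
    intro D
    filter_upwards [hdegP D] with n h
    rcases hrevP n with g | g
    · rw [g]
      exact h
    · rw [g, Polynomial.natDegree_neg]
      exact h
  obtain ⟨G, hG⟩ := exists_limit (B := k * 2 ^ (k + 1)) U (fun n => (P n).reverse)
    (fun n => by rw [len_reverse]; exact hl n)
  have h2len : ((2 * len G : ℕ) : ℕ∞) ≤ B := by
    induction B using ENat.recTopCoe with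
    | top => exact le_top
    | coe b =>
      rw [Nat.cast_le]
      refine two_len_le U (fun n => (P n).reverse) (fun n => ?_) hrevQ hdegQ hG
      rw [len_reverse]
      exact Nat.cast_le.1 (hlB n)
  have h2card : 2 * G.support.card ≤ k := by
    refine two_card_le U (fun n => (P n).reverse) (fun n => ?_) hrevQ hdegQ hG
    rw [card_reverse]
    exact hk n
  have hrev := fun n => rev_of_dom (hP n) (h0 n) (hs n).2.1 (hd n)
  choose Q' hQ1 hQ2 hQ3 using hrev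
  obtain ⟨H, hH1, hH2, hH3⟩ := limit_zeros (B := k * 2 ^ (k + 1)) U (fun n => (P n).reverse)
    (fun n => by rw [len_reverse]; exact hl n) hG t hc htend Q' hQ1 hQ2 hQ3
  obtain ⟨hg1, hg2, hg3, hg4⟩ := dom_of_rev hc hH1 hH2 hH3
  have hgl : ((2 * len G.reverse : ℕ) : ℕ∞) ≤ B := by rw [hg4]; exact h2len
  have hgc : 2 * G.reverse.support.card ≤ k := by rw [card_reverse]; exact h2card
  have hns : ¬ IsSalem c := fun hsc => hcT ⟨hsc, G.reverse, hg1,
    (Nat.cast_le.2 (by omega)).trans hgl, by omega, hg3⟩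
  obtain ⟨h, D, hgD, hpis, hDm, hDr, hDc⟩ := exists_pisot hg1 hg2 hc hc2 hg3 hns
  obtain ⟨ε, hε, hroot⟩ := hpis.exists_root (δ := 1) one_pos
  obtain ⟨m, ⟨s, hs1, -, hsc, hs0⟩, hcount, hm⟩ :=
    (hroot.and (hpis.count.and (Filter.eventually_ge_atTop 1))).exists
  obtain ⟨hsal, hdom, hmon⟩ := hpis.salem hm hε hs1 (hsc.trans hc2) hs0 (hcount ε hε)
  -- the polynomial
  have hrg : G.reverse.reverse = h.reverse * D.reverse := by
    rw [hgD, Polynomial.reverse_mul_of_domain]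
  have key : ∃ ε' : ℤ, |ε'| = 1 ∧
      D * sal h m ε = X ^ m * G.reverse + C ε' * G.reverse.reverse := by
    rcases hDr with hD | hD
    · refine ⟨ε, hε, ?_⟩
      rw [hrg, hD, hgD, sal]
      ring
    · refine ⟨-ε, by rw [abs_neg]; exact hε, ?_⟩
      rw [hrg, hD, hgD, sal, C_neg]
      ring
  obtain ⟨ε', hε', hkey⟩ := key
  refine absurd (hglb.1 ⟨hsal, D * sal h m ε, hDm.mul hmon, ?_, ?_, ?_⟩) (not_le.2 hsc)
  · rw [hkey]
    exact (Nat.cast_le.2 (len_sal_le _ _ hε')).trans hgl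
  · rw [hkey]
    exact (card_sal_le _ _ _).trans hgc
  · -- the zeros
    obtain ⟨Q, hQ, hQz⟩ := hdom
    refine ⟨cx D * Q, ?_, fun z hz => ?_⟩
    · have h7 : cx (D * sal h m ε) = cx D * cx (sal h m ε) := Polynomial.map_mul _
      rw [h7, hQ]
      ring
    · rw [Polynomial.eval_mul] at hz
      rcases mul_eq_zero.1 hz with h7 | h7
      · exact (hDc z h7).le
      · exact hQz z h7

theorem exists_lt_two {B : ℕ∞} {k : ℕ} (h : (TT B k).Nonempty) : ∃ t ∈ TT B k, t < 2 := by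
  obtain ⟨t, hs, P, h1, h2, h3, h4⟩ := h
  obtain ⟨P', g1, g2, g3, g4, g5⟩ := exists_coeff_zero_card h1 hs.2.1 h4
  obtain ⟨c1, c2⟩ := card_cases hs g1 g5 g4
  rw [g3] at c1 c2
  rw [g2] at c2
  have h5 := card_le_len P
  by_cases hc : P.support.card = 4
  · obtain ⟨s, hs1, hs2, Q, q1, q2, q3, q4⟩ := exists_small4
    refine ⟨s, ⟨hs1, Q, q1, ?_, by omega, q4⟩, hs2⟩
    exact (Nat.cast_le.2 (by have := c2 hc; omega)).trans h2
  · obtain ⟨s, ⟨hs1, Q, q1, q2, q4⟩, hs2⟩ := exists_small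
    have q3 := card_le_len Q
    refine ⟨s, ⟨hs1, Q, q1, ?_, by omega, q4⟩, hs2⟩
    exact (Nat.cast_le.2 (by omega)).trans h2

/-- For each `B`, finite or not, and each `k`, if the set `TT B k` is not empty it has a least element. -/
theorem exists_least' (B : ℕ∞) (k : ℕ) (hne : (TT B k).Nonempty) :
    ∃ t ∈ TT B k, ∀ s ∈ TT B k, t ≤ s := by
  obtain ⟨t0, hmem, ht02⟩ := exists_lt_two hne
  obtain ⟨δ, hδ, hiso⟩ := isolated (k * 2 ^ (k + 1))
  have hiso' : 1 + min δ 1 ∈ lowerBounds (TT B k) := by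
    intro s hs
    rcases le_total s 2 with h | h
    · have := hiso s (mem_T_of_mem_TT hs h)
      linarith [min_le_left δ 1]
    · linarith [min_le_right δ 1]
  have hglb := isGLB_csInf ⟨t0, hmem⟩ ⟨1 + min δ 1, hiso'⟩
  have h4 : 1 < sInf (TT B k) := by
    have := hglb.2 hiso'
    have : 0 < min δ 1 := lt_min hδ one_pos
    linarith
  have h5 : sInf (TT B k) < 2 := lt_of_le_of_lt (hglb.1 hmem) ht02
  exact ⟨sInf (TT B k), attained' h4 h5 hglb, fun s hs => hglb.1 hs⟩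

/-- The sets are not empty for `5 ≤ B`, `5 ≤ k` and for `6 ≤ B`, `4 ≤ k`. -/
theorem TT_nonempty {B : ℕ∞} {k : ℕ} (h : (5 ≤ B ∧ 5 ≤ k) ∨ (6 ≤ B ∧ 4 ≤ k)) :
    (TT B k).Nonempty := by
  rcases h with ⟨hB, hk⟩ | ⟨hB, hk⟩
  · obtain ⟨s, ⟨hs1, Q, q1, q2, q4⟩, hs2⟩ := exists_small
    have q3 := card_le_len Q
    exact ⟨s, hs1, Q, q1, (Nat.cast_le.2 q2).trans hB, by omega, q4⟩
  · obtain ⟨s, hs1, hs2, Q, q1, q2, q3, q4⟩ := exists_small4
    exact ⟨s, hs1, Q, q1, (Nat.cast_le.2 q2).trans hB, by omega, q4⟩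

end SalemLen
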