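import Pool.Agent.Lib.MP_9599cf_ntL.Defs

/-! # Vanishing sums of roots of unity: residue classes -/

set_option autoImplicit false

namespace SalemLen

open Polynomial

private theorem Mann1_conj {ι : Type} (s : Finset ι) (a : ι → ℤ) (e : ι → ℕ) {n m : ℕ} {ζ : ℂ}
    (hn : 0 < n) (hζ : IsPrimitiveRoot ζ n) (hm : Nat.Coprime m n)
    (hsum : ∑ i ∈ s, (a i : ℂ) * ζ ^ e i = 0) : ∑ i ∈ s, (a i : ℂ) * (ζ ^ m) ^ e i = 0 := by
  have h1 : ∀ z : ℂ, aeval z (∑ i ∈ s, C (a i) * X ^ e i : ℤ[X]) =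
      ∑ i ∈ s, (a i : ℂ) * z ^ e i := by
    intro z
    simp [map_sum]
  have hi : IsIntegral ℤ ζ := hζ.isIntegral hn
  have h2 := minpoly.isIntegrallyClosed_dvd hi (p := ∑ i ∈ s, C (a i) * X ^ e i)
    (by rw [h1]; exact hsum)
  rw [hζ.minpoly_eq_pow_coprime hm] at h2
  obtain ⟨q, hq⟩ := h2
  rw [← h1, hq, map_mul, minpoly.aeval, zero_mul]

private theorem Mann1_dvd {p e r : ℕ} (hr : r < p) : p ∣ e + (p - r) ↔ e % p = r := by
  constructor
  · rintro ⟨c, hc⟩
    have hc1 : 1 ≤ c := by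
      rcases Nat.eq_zero_or_pos c with h0 | h0
      · rw [h0, Nat.mul_zero] at hc; omega
      · exact h0
    obtain ⟨d, rfl⟩ := Nat.exists_eq_add_of_le hc1
    have he : e = r + p * d := by
      have : p * (1 + d) = p + p * d := by ring
      omega
    rw [he, Nat.add_mul_mod_self_left, Nat.mod_eq_of_lt hr]
  · intro h
    have h1 := Nat.div_add_mod e p
    refine ⟨e / p + 1, ?_⟩
    have : p * (e / p + 1) = p * (e / p) + p := by ring
    omega

private theorem Mann1_geom {p : ℕ} {ω : ℂ} (hω : IsPrimitiveRoot ω p) (k : ℕ) :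
    ∑ t ∈ Finset.range p, (ω ^ k) ^ t = if p ∣ k then (p : ℂ) else 0 := by
  split_ifs with h
  · rw [(hω.pow_eq_one_iff_dvd k).2 h]
    simp
  · have h1 : ω ^ k ≠ 1 := fun h2 => h ((hω.pow_eq_one_iff_dvd k).1 h2)
    have h2 := geom_sum_mul (ω ^ k) p
    have h3 : (ω ^ k) ^ p = 1 := by
      rw [← pow_mul, mul_comm, pow_mul, hω.pow_eq_one, one_pow]
    rw [h3, sub_self] at h2
    rcases mul_eq_zero.1 h2 with h4 | h4
    · exact h4
    · exact absurd (sub_eq_zero.1 h4) h1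

/-- PROOF. All primitive `n`-th roots of unity are zeros of the integer polynomial `∑ a i X ^ (e i)`
(`Polynomial.cyclotomic_eq_minpoly`, `minpoly.isIntegrallyClosed_dvd`). Let `ω = ζ ^ (n / p)`, a primitive
`p`-th root of unity. (A) `p ^ 2 ∣ n`: for `j = 0, …, p - 1` the number `ζ * ω ^ j = ζ ^ (1 + j n / p)` is a
primitive `n`-th root of unity (the exponent is coprime to `n`: each prime divisor of `n` divides `n / p`), so
`∑ a i ζ ^ (e i) ω ^ (j e i) = 0` for all `j`; multiply by `ω ^ (- j r)` and add over `j`: `p` times the class sum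
of `r` (for `r < p`; for `r ≥ p` the class is empty). (B) `p ^ 2 ∤ n`: `ζ = ω' * η`, with `ω'` a primitive `p`-th
root of unity and `η` a primitive `n / p`-th root of unity (`p`, `n / p` coprime); for `j = 1, …, p - 1`,
`ω' ^ j * η` is a primitive `n`-th root of unity, so with `A r = ∑ (e i ≡ r) a i η ^ (e i)`:
`∑ r, ω' ^ (j r) A r = 0` for `j = 1, …, p - 1`. So `p A r = ∑ j, ω' ^ (- j r) ∑ s, ω' ^ (j s) A s = ∑ s, A s` does
not depend on `r`; `A r0 = 0` (empty class), so all `A r = 0`, and the class sum is `ω' ^ r A r`. -/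
theorem class_sum {ι : Type} (s : Finset ι) (a : ι → ℤ) (e : ι → ℕ) {n p : ℕ} (hp : p.Prime)
    (hpn : p ∣ n) (hn : 0 < n) {ζ : ℂ} (hζ : IsPrimitiveRoot ζ n)
    (hsum : ∑ i ∈ s, (a i : ℂ) * ζ ^ e i = 0)
    (h : p ^ 2 ∣ n ∨ ∃ r0 < p, ∀ i ∈ s, e i % p ≠ r0) (r : ℕ) :
    ∑ i ∈ s with e i % p = r, (a i : ℂ) * ζ ^ e i = 0 := by
  obtain ⟨m, hm⟩ := hpn
  have hp0 : 0 < p := hp.pos
  have hω : IsPrimitiveRoot (ζ ^ m) p := hζ.pow hn (by rw [hm, mul_comm])
  have hpow : ∀ t k : ℕ, (ζ ^ (1 + t * m)) ^ k = ζ ^ k * (ζ ^ m) ^ (t * k) := by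
    intro t k
    rw [← pow_mul, ← pow_mul, ← pow_add]
    congr 1
    ring
  have key : ∀ t, ¬ p ∣ 1 + t * m →
      ∑ i ∈ s, (a i : ℂ) * (ζ ^ e i * (ζ ^ m) ^ (t * e i)) = 0 := by
    intro t ht
    have hc : Nat.Coprime (1 + t * m) n := by
      rw [hm]
      refine Nat.Coprime.mul_right ((hp.coprime_iff_not_dvd.2 ht).symm) ?_
      rw [Nat.coprime_add_mul_right_left]
      exact Nat.coprime_one_left m
    have h1 := Mann1_conj s a e hn hζ hc hsum
    rw [← h1]
    exact Finset.sum_congr rfl fun i _ => by rw [hpow]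
  have inv : ∀ r < p, (p : ℂ) * ∑ i ∈ s with e i % p = r, (a i : ℂ) * ζ ^ e i =
      ∑ t ∈ Finset.range p, (ζ ^ m) ^ (t * (p - r)) *
        ∑ i ∈ s, (a i : ℂ) * (ζ ^ e i * (ζ ^ m) ^ (t * e i)) := by
    intro r hr
    have h1 : ∀ i ∈ s, ∑ t ∈ Finset.range p, (ζ ^ m) ^ (t * (p - r)) *
        ((a i : ℂ) * (ζ ^ e i * (ζ ^ m) ^ (t * e i))) =
        if e i % p = r then (p : ℂ) * ((a i : ℂ) * ζ ^ e i) else 0 := by
      intro i _
      have h2 : ∀ t ∈ Finset.range p, (ζ ^ m) ^ (t * (p - r)) *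
          ((a i : ℂ) * (ζ ^ e i * (ζ ^ m) ^ (t * e i))) =
          (a i : ℂ) * ζ ^ e i * ((ζ ^ m) ^ (e i + (p - r))) ^ t := by
        intro t _
        rw [← pow_mul (ζ ^ m) (e i + (p - r)) t,
          show (e i + (p - r)) * t = t * (p - r) + t * e i by ring, pow_add]
        ring
      rw [Finset.sum_congr rfl h2, ← Finset.mul_sum, Mann1_geom hω]
      by_cases h3 : e i % p = r
      · rw [if_pos ((Mann1_dvd hr).2 h3), if_pos h3]; ring
      · rw [if_neg (fun h4 => h3 ((Mann1_dvd hr).1 h4)), if_neg h3, mul_zero]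
    simp_rw [Finset.mul_sum]
    rw [Finset.sum_comm, Finset.sum_congr rfl h1, Finset.sum_filter]
  have all : ∀ t < p, ∑ i ∈ s, (a i : ℂ) * (ζ ^ e i * (ζ ^ m) ^ (t * e i)) = 0 := by
    intro t ht
    by_cases hd : p ∣ 1 + t * m
    · have hpm : ¬ p ∣ m := fun h1 => by
        have h2 : p ∣ 1 := (Nat.dvd_add_left (dvd_mul_of_dvd_right h1 t)).1 hd
        exact hp.one_lt.ne' (Nat.dvd_one.1 h2)
      rcases h with h1 | ⟨r0, hr0, h1⟩
      · exfalso
        rw [hm, sq] at h1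
        exact hpm (Nat.dvd_of_mul_dvd_mul_left hp0 h1)
      · have h2 := inv r0 hr0
        rw [Finset.filter_false_of_mem h1, Finset.sum_empty, mul_zero,
          Finset.sum_eq_single_of_mem t (Finset.mem_range.2 ht) (fun t' ht' hne => by
            rw [key t' fun hd' => hne ?_, mul_zero]
            have h3 : (1 + t' * m) % p = (1 + t * m) % p := by
              rw [Nat.mod_eq_zero_of_dvd hd', Nat.mod_eq_zero_of_dvd hd]
            have h4 : t' * m ≡ t * m [MOD p] := Nat.ModEq.add_left_cancel' 1 h3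
            have h5 : t' ≡ t [MOD p] := Nat.ModEq.cancel_right_of_coprime
              (hp.coprime_iff_not_dvd.2 hpm) h4
            rw [Nat.ModEq, Nat.mod_eq_of_lt (Finset.mem_range.1 ht'), Nat.mod_eq_of_lt ht] at h5
            exact h5)] at h2
        rcases mul_eq_zero.1 h2.symm with h6 | h6
        · exact absurd h6 (pow_ne_zero _ (pow_ne_zero _ (hζ.ne_zero hn.ne')))
        · exact h6
    · exact key t hd
  rcases lt_or_ge r p with hr | hr
  · have h1 := inv r hr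
    have hz : ∑ t ∈ Finset.range p, (ζ ^ m) ^ (t * (p - r)) *
        ∑ i ∈ s, (a i : ℂ) * (ζ ^ e i * (ζ ^ m) ^ (t * e i)) = 0 :=
      Finset.sum_eq_zero fun t ht => by rw [all t (Finset.mem_range.1 ht), mul_zero]
    rw [hz] at h1
    rcases mul_eq_zero.1 h1 with h2 | h2
    · exact absurd h2 (Nat.cast_ne_zero.2 hp0.ne')
    · exact h2
  · rw [Finset.filter_false_of_mem, Finset.sum_empty]
    intro i _ h1
    have := Nat.mod_lt (e i) hp0
    omega

end SalemLen
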