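import Pool.Agent.Lib.MP_9599cf_ntL.Defs

/-! # The product over the conjugates is an integer -/

set_option autoImplicit false

namespace SalemLen

open Polynomial

private theorem NormZ_prod (f : ℂ → ℂ) (s : Multiset ℂ) :
    (s.map fun z => ‖f z‖).prod = ‖(s.map f).prod‖ := by
  induction s using Multiset.induction_on with
  | empty => simp
  | cons a s ih => rw [Multiset.map_cons, Multiset.prod_cons, Multiset.map_cons,
      Multiset.prod_cons, norm_mul, ih]

private theorem NormZ_ne {S : ℤ[X]} (hS : S.Monic) (hirr : Irreducible S) (H : ℤ[X])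
    (hne : ¬ S ∣ H) : resultant S H ≠ 0 := by
  have hinj : Function.Injective (Int.castRingHom ℚ) := Int.cast_injective
  have h1 : Irreducible (S.map (Int.castRingHom ℚ)) :=
    (IsPrimitive.Int.irreducible_iff_irreducible_map_cast hS.isPrimitive).1 hirr
  have h2 : ¬ S.map (Int.castRingHom ℚ) ∣ H.map (Int.castRingHom ℚ) := by
    rw [Polynomial.map_dvd_map _ hinj hS]
    exact hne
  have h3 : IsCoprime (S.map (Int.castRingHom ℚ)) (H.map (Int.castRingHom ℚ)) :=
    (Irreducible.coprime_iff_not_dvd h1).2 h2
  have h4 := resultant_ne_zero _ _ h3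
  rw [natDegree_map_eq_of_injective hinj, natDegree_map_eq_of_injective hinj,
    resultant_map_map] at h4
  intro h5
  rw [h5, map_zero] at h4
  exact h4 rfl

/-- PROOF. `∏ (cx H).eval z` over the complex roots `z` of the monic irreducible `S` is the norm of the element
`H (x)` of `AdjoinRoot S` over `ℤ` (or of `ℚ⟮root⟯ / ℚ`: `Algebra.norm_eq_prod_embeddings`,
`Algebra.norm_eq_prod_roots`; or the resultant `Polynomial.resultant`), an integer
(`Algebra.isIntegral_norm`), and not zero: `H` does not vanish at the root (`S` does not divide `H`; `S` is the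
minimal polynomial of its roots by Gauss). So its absolute value is at least one. -/
theorem one_le_prod {S : ℤ[X]} (hS : S.Monic) (hirr : Irreducible S) (H : ℤ[X]) (hne : ¬ S ∣ H) :
    1 ≤ ((cx S).roots.map fun z => ‖(cx H).eval z‖).prod := by
  have hinj : Function.Injective (Int.castRingHom ℂ) := Int.cast_injective
  rw [NormZ_prod (fun z => (cx H).eval z)]
  have h1 := resultant_eq_prod_eval (cx S) (cx H) H.natDegree natDegree_map_le
    (IsAlgClosed.splits (cx S))
  have h2 : (cx S).natDegree = S.natDegree := natDegree_map_eq_of_injective hinj S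
  have h3 : (cx S).leadingCoeff = 1 := hS.map _
  rw [h2, h3, one_pow, one_mul, cx, cx, resultant_map_map] at h1
  have h4 : ((cx S).roots.map fun z => (cx H).eval z).prod = ((resultant S H : ℤ) : ℂ) := h1.symm
  rw [h4, Complex.norm_intCast]
  have h5 := NormZ_ne hS hirr H hne
  exact_mod_cast Int.one_le_abs h5

end SalemLen
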