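import Pool.Agent.Lib.MP_9599cf_ntL.Defs

/-! # Comparison of a Pisot polynomial and its reverse -/

set_option autoImplicit false

namespace SalemLen

open Polynomial

private theorem sal0_one {x b : ℂ} (hx : 1 ≤ ‖x‖) (hb : ‖b‖ ≤ 1) :
    ‖x‖ * ‖(starRingEnd ℂ x)⁻¹ - b‖ ≤ ‖x - b‖ := by
  have hx0 : x ≠ 0 := by
    rintro rfl
    rw [norm_zero] at hx
    linarith
  have hx0' : starRingEnd ℂ x ≠ 0 := (_root_.map_ne_zero _).2 hx0
  have h1 : ‖x‖ * ‖(starRingEnd ℂ x)⁻¹ - b‖ = ‖1 - starRingEnd ℂ x * b‖ := by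
    rw [← RCLike.norm_conj x, ← norm_mul, mul_sub, mul_inv_cancel₀ hx0']
  rw [h1]
  have h2 : ‖1 - starRingEnd ℂ x * b‖ ^ 2 ≤ ‖x - b‖ ^ 2 := by
    rw [← Complex.normSq_eq_norm_sq, ← Complex.normSq_eq_norm_sq]
    have h3 : (1 : ℝ) ≤ x.re * x.re + x.im * x.im := by
      have h4 : (1 : ℝ) ≤ ‖x‖ ^ 2 := by nlinarith
      rw [← Complex.normSq_eq_norm_sq, Complex.normSq_apply] at h4
      exact h4
    have h5 : b.re * b.re + b.im * b.im ≤ 1 := by
      have h4 : ‖b‖ ^ 2 ≤ 1 := by nlinarith [norm_nonneg b]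
      rw [← Complex.normSq_eq_norm_sq, Complex.normSq_apply] at h4
      exact h4
    rw [Complex.normSq_apply, Complex.normSq_apply]
    simp only [Complex.sub_re, Complex.one_re, Complex.mul_re, Complex.conj_re, Complex.conj_im,
      Complex.sub_im, Complex.one_im, Complex.mul_im]
    nlinarith [mul_nonneg (sub_nonneg.2 h3) (sub_nonneg.2 h5)]
  exact le_of_sq_le_sq h2 (norm_nonneg _)

private theorem sal0_prod {x : ℂ} (hx : 1 ≤ ‖x‖) (s : Multiset ℂ) (hs : ∀ b ∈ s, ‖b‖ ≤ 1) :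
    ‖x‖ ^ (Multiset.card s) * ‖(s.map fun b => (starRingEnd ℂ x)⁻¹ - b).prod‖ ≤
      ‖(s.map fun b => x - b).prod‖ := by
  induction s using Multiset.induction_on with
  | empty => simp
  | cons b s ih =>
    have h1 := ih fun c hc => hs c (Multiset.mem_cons_of_mem hc)
    have h2 := sal0_one hx (hs b (Multiset.mem_cons_self b s))
    rw [Multiset.card_cons, Multiset.map_cons, Multiset.prod_cons, Multiset.map_cons,
      Multiset.prod_cons, norm_mul, norm_mul, pow_succ]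
    calc ‖x‖ ^ (Multiset.card s) * ‖x‖ * (‖(starRingEnd ℂ x)⁻¹ - b‖ *
          ‖(s.map fun b => (starRingEnd ℂ x)⁻¹ - b).prod‖)
        = (‖x‖ * ‖(starRingEnd ℂ x)⁻¹ - b‖) * (‖x‖ ^ (Multiset.card s) *
          ‖(s.map fun b => (starRingEnd ℂ x)⁻¹ - b).prod‖) := by ring
      _ ≤ ‖x - b‖ * ‖(s.map fun b => x - b).prod‖ :=
          mul_le_mul h2 h1 (by positivity) (norm_nonneg _)

private theorem sal0_eval {k : ℂ[X]} (hk : k.Monic) (y : ℂ) :
    k.eval y = (k.roots.map fun b => y - b).prod := by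
  have h1 : k = (k.roots.map fun a => X - C a).prod :=
    (IsAlgClosed.splits k).eq_prod_roots_of_monic hk
  conv_lhs => rw [h1]
  rw [eval_multiset_prod, Multiset.map_map]
  congr 1
  refine Multiset.map_congr rfl fun b _ => ?_
  simp

private theorem sal0_k {k : ℂ[X]} (hk : k.Monic) (hz : ∀ z : ℂ, k.eval z = 0 → ‖z‖ < 1) {x : ℂ}
    (hx : 1 ≤ ‖x‖) :
    ‖x‖ ^ k.natDegree * ‖k.eval (starRingEnd ℂ x)⁻¹‖ ≤ ‖k.eval x‖ := by
  have h1 := sal0_prod hx k.roots fun b hb => (hz b (isRoot_of_mem_roots hb)).le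
  rw [← sal0_eval hk, ← sal0_eval hk, IsAlgClosed.card_roots_eq_natDegree] at h1
  exact h1

private theorem sal0_conj (h : ℤ[X]) (y : ℂ) :
    (cx h).eval (starRingEnd ℂ y) = starRingEnd ℂ ((cx h).eval y) := by
  rw [cx, eval_map, eval_map, hom_eval₂]
  congr 1
  exact (RingHom.ext_int _ _)

private theorem sal0_rev (h : ℤ[X]) {x : ℂ} (hx : x ≠ 0) :
    ‖(cx h.reverse).eval x‖ = ‖x‖ ^ h.natDegree * ‖(cx h).eval (starRingEnd ℂ x)⁻¹‖ := by
  have h1 : (starRingEnd ℂ x)⁻¹ = starRingEnd ℂ x⁻¹ := (map_inv₀ _ x).symm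
  rw [h1, sal0_conj, RCLike.norm_conj]
  let _ : Invertible (x⁻¹) := invertibleOfNonzero (inv_ne_zero hx)
  have h2 := eval₂_reverse_mul_pow (Int.castRingHom ℂ) (x⁻¹) h
  rw [invOf_eq_inv, inv_inv] at h2
  rw [cx, cx, eval_map, eval_map, ← h2, norm_mul, norm_pow, norm_inv, inv_pow]
  have h3 : ‖x‖ ^ h.natDegree ≠ 0 := pow_ne_zero _ (norm_ne_zero_iff.2 hx)
  field_simp

/-- PROOF. `cx h = (X - c) k`, `k` monic with roots `β`, `‖β‖ < 1`; `h` and `X - c` are real, so `k` has real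
coefficients and the multiset of its roots is closed under conjugation. The reverse is
`(1 - c X) ∏ (1 - β X) = (1 - c X) ∏ (1 - conj β X)`, and `‖1 - conj β x‖ ≤ ‖x - β‖` for `‖x‖ ≥ 1`:
`‖x - β‖² - ‖1 - conj β x‖² = (‖x‖² - 1) (1 - ‖β‖²)`. (Induction over the multiset of the roots, or
`Multiset.prod_le_prod`-type lemmas; `h.reverse` evaluated at `x ≠ 0` is `x ^ deg * h (1 / x)`.) -/
theorem Pis.reverse_le {h : ℤ[X]} {c : ℝ} (H : Pis h c) {x : ℂ} (hx : 1 ≤ ‖x‖) :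
    ‖(cx h.reverse).eval x‖ * ‖x - c‖ ≤ ‖(cx h).eval x‖ * ‖1 - c * x‖ := by
  obtain ⟨k, hk, hz⟩ := H.dom
  have hx0 : x ≠ 0 := by
    rintro rfl
    rw [norm_zero] at hx
    linarith
  have hx0' : starRingEnd ℂ x ≠ 0 := (_root_.map_ne_zero _).2 hx0
  have hm : (cx h).Monic := H.monic.map _
  have hkm : k.Monic := by
    rw [hk] at hm
    exact Monic.of_mul_monic_left (monic_X_sub_C _) hm
  have hd : h.natDegree = k.natDegree + 1 := by
    have h1 : (cx h).natDegree = h.natDegree := H.monic.natDegree_map _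
    rw [← h1, hk, (monic_X_sub_C _).natDegree_mul hkm, natDegree_X_sub_C, add_comm]
  have e1 : ‖(cx h.reverse).eval x‖ =
      (‖x‖ * ‖(starRingEnd ℂ x)⁻¹ - c‖) * (‖x‖ ^ k.natDegree * ‖k.eval (starRingEnd ℂ x)⁻¹‖) := by
    rw [sal0_rev h hx0, hk, eval_mul, norm_mul, hd, pow_succ, eval_sub, eval_X, eval_C]
    ring
  have e2 : ‖x‖ * ‖(starRingEnd ℂ x)⁻¹ - c‖ = ‖1 - c * x‖ := by
    rw [← RCLike.norm_conj x, ← norm_mul, mul_sub, mul_inv_cancel₀ hx0', ← RCLike.norm_conj (1 - c * x)]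
    congr 1
    rw [map_sub, map_one, map_mul, Complex.conj_ofReal, mul_comm]
  have e3 : ‖(cx h).eval x‖ = ‖x - c‖ * ‖k.eval x‖ := by
    rw [hk, eval_mul, norm_mul, eval_sub, eval_X, eval_C]
  rw [e1, e2, e3]
  calc ‖1 - c * x‖ * (‖x‖ ^ k.natDegree * ‖k.eval (starRingEnd ℂ x)⁻¹‖) * ‖x - c‖
      ≤ ‖1 - c * x‖ * ‖k.eval x‖ * ‖x - c‖ :=
        mul_le_mul_of_nonneg_right (mul_le_mul_of_nonneg_left (sal0_k hkm hz hx) (norm_nonneg _))
          (norm_nonneg _)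
    _ = ‖x - c‖ * ‖k.eval x‖ * ‖1 - c * x‖ := by ring

end SalemLen
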