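import Pool.Agent.Lib.MP_9599cf_ntL.Sal0

/-! # No zeros in an annulus -/

set_option autoImplicit false

namespace SalemLen

open Polynomial

/-- PROOF. Let `m δ ^ 2 > c ^ 2 - 1`, `1 < ‖x‖ < c - δ`. `(cx h).eval x ≠ 0` (its zeros are `c` and points of the
open unit disc) and `x ≠ c`. `‖1 - c x‖² - ‖x - c‖² = (‖x‖² - 1) (c² - 1)` and `‖x‖ ^ (2 m) ≥ 1 + m (‖x‖² - 1)`
(Bernoulli), so `‖x‖ ^ (2 m) ‖x - c‖² - ‖x - c‖² ≥ m (‖x‖² - 1) δ² > (‖x‖² - 1) (c² - 1)`, hence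
`‖x‖ ^ m ‖x - c‖ > ‖1 - c x‖` and `‖x ^ m h (x)‖ ‖x - c‖ > ‖h (x)‖ ‖1 - c x‖ ≥ ‖h.reverse (x)‖ ‖x - c‖`
(`reverse_le`), so `x ^ m h (x) + ε h.reverse (x) ≠ 0`. -/
theorem Pis.annulus {h : ℤ[X]} {c : ℝ} (H : Pis h c) {δ : ℝ} (hδ : 0 < δ) :
    ∀ᶠ m : ℕ in Filter.atTop, ∀ ε : ℤ, |ε| = 1 → ∀ x : ℂ, 1 < ‖x‖ → ‖x‖ < c - δ →
      (cx (sal h m ε)).eval x ≠ 0 := by
  obtain ⟨k, hk, hk1⟩ := H.dom
  have hc := H.gt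
  have hlarge : ∀ᶠ m : ℕ in Filter.atTop, (c ^ 2 - 1) / δ ^ 2 < (m : ℝ) :=
    tendsto_natCast_atTop_atTop.eventually_gt_atTop _
  filter_upwards [hlarge] with m hm ε hε x hx1 hx2 h0
  have hδ2 : (0 : ℝ) < δ ^ 2 := by positivity
  have hm2 : c ^ 2 - 1 < m * δ ^ 2 := (div_lt_iff₀ hδ2).1 hm
  -- the equation
  have hev : (cx (sal h m ε)).eval x = x ^ m * (cx h).eval x + (ε : ℂ) * (cx h.reverse).eval x := by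
    simp [cx, sal]
  rw [hev] at h0
  have hεn : ‖(ε : ℂ)‖ = 1 := by
    rcases (abs_eq (by norm_num : (0 : ℤ) ≤ 1)).1 hε with h | h <;> rw [h] <;> simp
  have h1 : ‖x‖ ^ m * ‖(cx h).eval x‖ = ‖(cx h.reverse).eval x‖ := by
    have h2 : x ^ m * (cx h).eval x = -((ε : ℂ) * (cx h.reverse).eval x) :=
      eq_neg_of_add_eq_zero_left h0
    have h3 := congrArg norm h2
    rwa [norm_mul, norm_pow, norm_neg, norm_mul, hεn, one_mul] at h3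
  -- the value of `h`
  have hcn : ‖(c : ℂ)‖ = c := by
    rw [Complex.norm_real, Real.norm_of_nonneg (by linarith)]
  have hxc : δ < ‖x - c‖ := by
    have h2 := norm_sub_norm_le (c : ℂ) x
    rw [norm_sub_rev, hcn] at h2
    linarith
  have hhx : 0 < ‖(cx h).eval x‖ := by
    rw [norm_pos_iff, hk, eval_mul]
    refine mul_ne_zero ?_ fun h => ?_
    · rw [eval_sub, eval_X, eval_C]
      intro h
      rw [h, norm_zero] at hxc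
      linarith
    · have := hk1 x h
      linarith
  have h4 := H.reverse_le hx1.le
  rw [← h1] at h4
  have h5 : ‖x‖ ^ m * ‖x - c‖ ≤ ‖1 - c * x‖ := by
    have h6 : ‖(cx h).eval x‖ * (‖x‖ ^ m * ‖x - c‖) ≤ ‖(cx h).eval x‖ * ‖1 - c * x‖ := by
      calc ‖(cx h).eval x‖ * (‖x‖ ^ m * ‖x - c‖) = ‖x‖ ^ m * ‖(cx h).eval x‖ * ‖x - c‖ := by ring
        _ ≤ _ := h4
    exact le_of_mul_le_mul_left h6 hhx
  have h7 : (‖x‖ ^ m * ‖x - c‖) ^ 2 ≤ ‖1 - c * x‖ ^ 2 :=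
    pow_le_pow_left₀ (by positivity) h5 2
  have h8 : ‖1 - c * x‖ ^ 2 = ‖x - c‖ ^ 2 + (‖x‖ ^ 2 - 1) * (c ^ 2 - 1) := by
    rw [← Complex.normSq_eq_norm_sq, ← Complex.normSq_eq_norm_sq, ← Complex.normSq_eq_norm_sq,
      Complex.normSq_apply, Complex.normSq_apply, Complex.normSq_apply]
    simp
    ring
  have h9 : 1 + (m : ℝ) * (‖x‖ ^ 2 - 1) ≤ (‖x‖ ^ 2) ^ m := by
    have := one_add_mul_le_pow (a := ‖x‖ ^ 2 - 1) (by nlinarith [sq_nonneg ‖x‖]) m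
    rwa [add_sub_cancel] at this
  have h10 : 0 < ‖x‖ ^ 2 - 1 := by nlinarith
  have h11 : δ ^ 2 < ‖x - c‖ ^ 2 := pow_lt_pow_left₀ hxc hδ.le (by norm_num)
  have h12 : (‖x‖ ^ m * ‖x - c‖) ^ 2 = (‖x‖ ^ 2) ^ m * ‖x - c‖ ^ 2 := by
    rw [mul_pow, ← pow_mul, ← pow_mul, mul_comm m 2]
  rw [h12, h8] at h7
  have h13 : (1 + (m : ℝ) * (‖x‖ ^ 2 - 1)) * ‖x - c‖ ^ 2 ≤ (‖x‖ ^ 2) ^ m * ‖x - c‖ ^ 2 :=
    mul_le_mul_of_nonneg_right h9 (by positivity)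
  have h14 : (m : ℝ) * (‖x‖ ^ 2 - 1) * ‖x - c‖ ^ 2 ≤ (‖x‖ ^ 2 - 1) * (c ^ 2 - 1) := by
    nlinarith
  have h15 : (‖x‖ ^ 2 - 1) * ((m : ℝ) * ‖x - c‖ ^ 2) ≤ (‖x‖ ^ 2 - 1) * (c ^ 2 - 1) := by
    calc _ = (m : ℝ) * (‖x‖ ^ 2 - 1) * ‖x - c‖ ^ 2 := by ring
      _ ≤ _ := h14
  have h16 : (m : ℝ) * ‖x - c‖ ^ 2 ≤ c ^ 2 - 1 := le_of_mul_le_mul_left h15 h10
  have h17 : (m : ℝ) * δ ^ 2 ≤ m * ‖x - c‖ ^ 2 :=
    mul_le_mul_of_nonneg_left h11.le (Nat.cast_nonneg m)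
  linarith

end SalemLen
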