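import Pool.Agent.Lib.MP_9599cf_ntL.Defs

/-! # Uniform convergence -/

set_option autoImplicit false

namespace SalemLen

open Polynomial

/-- PROOF. Choose `J > G.natDegree` with `B * r ^ J ≤ ε` (if `B = 0` trivial). For almost all `n` the
coefficients with index `j < J` of `Q n` and `G` agree. Then for `‖z‖ ≤ r` the difference is
`∑ j ≥ J, (Q n).coeff j z ^ j`, of absolute value at most `len (Q n) * r ^ J ≤ B * r ^ J`
(`Polynomial.eval_eq_sum_range` or `Polynomial.eval_eq_sum`). -/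
theorem unif {B : ℕ} (U : Ultrafilter ℕ) (Q : ℕ → ℤ[X]) (h : ∀ n, len (Q n) ≤ B) {G : ℤ[X]}
    (hG : ∀ j, ∀ᶠ n in (U : Filter ℕ), (Q n).coeff j = G.coeff j) {r : ℝ} (hr0 : 0 ≤ r)
    (hr : r < 1) {ε : ℝ} (hε : 0 < ε) :
    ∀ᶠ n in (U : Filter ℕ), ∀ z : ℂ, ‖z‖ ≤ r → ‖(cx (Q n)).eval z - (cx G).eval z‖ ≤ ε := by
  have hB : (0 : ℝ) < (B : ℝ) + 1 := by positivity
  obtain ⟨J0, hJ0⟩ := exists_pow_lt_of_lt_one (div_pos hε hB) hr
  obtain ⟨J, hJ⟩ : ∃ J, J = max J0 (G.natDegree + 1) := ⟨_, rfl⟩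
  have hJ1 : J0 ≤ J := by rw [hJ]; exact le_max_left _ _
  have hJ2 : G.natDegree < J := by rw [hJ]; exact lt_of_lt_of_le (Nat.lt_succ_self _) (le_max_right _ _)
  have hrJ : r ^ J ≤ ε / ((B : ℝ) + 1) := (pow_le_pow_of_le_one hr0 hr.le hJ1).trans hJ0.le
  have hrJ0 : 0 ≤ r ^ J := pow_nonneg hr0 J
  have hev : ∀ᶠ n in (U : Filter ℕ), ∀ j ∈ Finset.range J, (Q n).coeff j = G.coeff j :=
    (Filter.eventually_all_finset _).2 fun j _ => hG j
  filter_upwards [hev] with n hn z hz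
  obtain ⟨D, hD⟩ : ∃ D : ℤ[X], D = Q n - G := ⟨_, rfl⟩
  have hDc : ∀ i ∈ D.support, J ≤ i ∧ D.coeff i = (Q n).coeff i := by
    intro i hi
    have hi' : D.coeff i ≠ 0 := mem_support_iff.1 hi
    have hiJ : J ≤ i := by
      by_contra hlt
      push Not at hlt
      apply hi'
      rw [hD, coeff_sub, hn i (Finset.mem_range.2 hlt), sub_self]
    refine ⟨hiJ, ?_⟩
    rw [hD, coeff_sub, coeff_eq_zero_of_natDegree_lt (lt_of_lt_of_le hJ2 hiJ), sub_zero]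
  have hsub : D.support ⊆ (Q n).support := by
    intro i hi
    rw [mem_support_iff, ← (hDc i hi).2]
    exact mem_support_iff.1 hi
  have hcx : (cx (Q n)).eval z - (cx G).eval z = ∑ i ∈ D.support, (D.coeff i : ℂ) * z ^ i := by
    have h1 : (cx (Q n)).eval z - (cx G).eval z = (cx D).eval z := by
      rw [hD, cx, cx, cx, Polynomial.map_sub, eval_sub]
    rw [h1, cx, eval_map, eval₂_eq_sum, Polynomial.sum]
    rfl
  rw [hcx]
  have hterm : ∀ i ∈ D.support, ‖(D.coeff i : ℂ) * z ^ i‖ ≤ (((Q n).coeff i).natAbs : ℝ) * r ^ J := by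
    intro i hi
    obtain ⟨h1, h2⟩ := hDc i hi
    rw [norm_mul, norm_pow, h2]
    have h3 : ‖(((Q n).coeff i : ℤ) : ℂ)‖ = (((Q n).coeff i).natAbs : ℝ) := by
      rw [Complex.norm_intCast, Nat.cast_natAbs, Int.cast_abs]
    rw [h3]
    refine mul_le_mul_of_nonneg_left ?_ (Nat.cast_nonneg _)
    calc ‖z‖ ^ i ≤ r ^ i := pow_le_pow_left₀ (norm_nonneg _) hz i
      _ ≤ r ^ J := pow_le_pow_of_le_one hr0 hr.le h1
  have hlen : (∑ i ∈ D.support, (((Q n).coeff i).natAbs : ℝ)) ≤ (B : ℝ) := by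
    have h1 : ∑ i ∈ D.support, ((Q n).coeff i).natAbs ≤ len (Q n) :=
      Finset.sum_le_sum_of_subset hsub
    have h2 := h1.trans (h n)
    exact_mod_cast h2
  calc ‖∑ i ∈ D.support, (D.coeff i : ℂ) * z ^ i‖
      ≤ ∑ i ∈ D.support, (((Q n).coeff i).natAbs : ℝ) * r ^ J :=
        (norm_sum_le _ _).trans (Finset.sum_le_sum hterm)
    _ = (∑ i ∈ D.support, (((Q n).coeff i).natAbs : ℝ)) * r ^ J := by rw [Finset.sum_mul]
    _ ≤ (B : ℝ) * (ε / ((B : ℝ) + 1)) :=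
        mul_le_mul hlen hrJ hrJ0 (Nat.cast_nonneg _)
    _ ≤ ε := by
        rw [mul_div_assoc', div_le_iff₀ hB]
        nlinarith

end SalemLen
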